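import Mathlib

/-!
# A Banach space of band-limited functions

Helper file for `MP_981724_an`: the closed subspace `S` of `C₀(ℕ × ℝ)` consisting of the `F` with
`d/dx F(n, x) = 2 F(n + 1, x)`, and the operator `T F (n, x) = 2 F(n + 1, x)` on it.
-/

open Filter Topology MeasureTheory
open scoped ZeroAtInfty Real FourierTransform

namespace Pool.Agent.Helper88.BandLimited

noncomputable section

/-! ### The space -/

/-- The Banach space `C₀(ℕ × ℝ)` of real continuous functions on `ℕ × ℝ` vanishing at infinity. -/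
def A : Type := C₀(ℕ × ℝ, ℝ)

instance : NormedAddCommGroup A := inferInstanceAs (NormedAddCommGroup C₀(ℕ × ℝ, ℝ))

instance : NormedSpace ℝ A := inferInstanceAs (NormedSpace ℝ C₀(ℕ × ℝ, ℝ))

instance : CompleteSpace A := inferInstanceAs (CompleteSpace C₀(ℕ × ℝ, ℝ))

/-- Evaluation. -/
def ev (F : A) (n : ℕ) (x : ℝ) : ℝ := (show C₀(ℕ × ℝ, ℝ) from F) (n, x)

lemma ev_add (F G : A) (n : ℕ) (x : ℝ) : ev (F + G) n x = ev F n x + ev G n x := rfl

lemma ev_smul (c : ℝ) (F : A) (n : ℕ) (x : ℝ) : ev (c • F) n x = c * ev F n x := rfl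

lemma ev_zero (n : ℕ) (x : ℝ) : ev 0 n x = 0 := rfl

lemma abs_ev_le (F : A) (n : ℕ) (x : ℝ) : |ev F n x| ≤ ‖F‖ :=
  (ZeroAtInftyContinuousMap.toBCF (show C₀(ℕ × ℝ, ℝ) from F)).norm_coe_le_norm (n, x)

lemma norm_le_of {F : A} {C : ℝ} (hC : 0 ≤ C) (h : ∀ n x, |ev F n x| ≤ C) : ‖F‖ ≤ C := by
  change ‖(show C₀(ℕ × ℝ, ℝ) from F)‖ ≤ C
  rw [← ZeroAtInftyContinuousMap.norm_toBCF_eq_norm]
  rw [BoundedContinuousFunction.norm_le hC]
  rintro ⟨n, x⟩
  exact h n x

lemma tendsto_ev (F : A) : Tendsto (fun p : ℕ × ℝ => ev F p.1 p.2) (cocompact (ℕ × ℝ)) (𝓝 0) :=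
  ZeroAtInftyContinuousMap.zero_at_infty' (show C₀(ℕ × ℝ, ℝ) from F)

lemma continuous_ev (F : A) : Continuous (fun p : ℕ × ℝ => ev F p.1 p.2) :=
  ContinuousMap.continuous_toFun (ZeroAtInftyContinuousMap.toContinuousMap (show C₀(ℕ × ℝ, ℝ) from F))

/-- Sequences `(F(n, ·))_n` of functions in `C₀(ℝ)`, tending to `0`, with `F(n,·)' = 2 F(n+1,·)`. -/
def S : Submodule ℝ A where
  carrier := {F | ∀ (n : ℕ) (x : ℝ), HasDerivAt (fun y => ev F n y) (2 * ev F (n + 1) x) x}
  add_mem' := by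
    intro F G hF hG n x
    have := (hF n x).add (hG n x)
    refine this.congr_deriv ?_
    rw [ev_add]; ring
  zero_mem' := by
    intro n x
    simpa [ev_zero] using hasDerivAt_const x (0 : ℝ)
  smul_mem' := by
    intro c F hF n x
    have := (hF n x).const_mul c
    refine this.congr_deriv ?_
    rw [ev_smul]; ring

lemma isClosed_S : IsClosed (S : Set A) := by
  apply IsSeqClosed.isClosed
  intro u F hu hlim n x
  have hlim' : ∀ m, TendstoUniformly (fun k (y : ℝ) => ev (u k) m y) (fun y => ev F m y) atTop := by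
    intro m
    rw [Metric.tendstoUniformly_iff]
    rw [Metric.tendsto_atTop] at hlim
    intro ε hε
    obtain ⟨N, hN⟩ := hlim ε hε
    filter_upwards [eventually_ge_atTop N] with k hk y
    have h1 := hN k hk
    rw [dist_eq_norm] at h1
    have h2 := abs_ev_le (u k - F) m y
    have h3 : ev (u k - F) m y = ev (u k) m y - ev F m y := rfl
    rw [h3] at h2
    rw [Real.dist_eq, abs_sub_comm]
    linarith
  have h1 : TendstoUniformly (fun k (y : ℝ) => 2 * ev (u k) (n + 1) y)
      (fun y => 2 * ev F (n + 1) y) atTop := by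
    have := hlim' (n + 1)
    rw [Metric.tendstoUniformly_iff] at this ⊢
    intro ε hε
    filter_upwards [this (ε / 2) (by positivity)] with k hk y
    have := hk y
    rw [Real.dist_eq] at this ⊢
    rw [← mul_sub, abs_mul, abs_two]
    linarith
  refine hasDerivAt_of_tendstoUniformly h1 (Eventually.of_forall fun k y => hu k n y) ?_ x
  intro y
  exact (hlim' n).tendsto_at y

instance : CompleteSpace S := (isClosed_S).completeSpace_coe

/-- The shift `(n, x) ↦ (n + 1, x)` as a cocompact map. -/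
def shiftCo : CocompactMap (ℕ × ℝ) (ℕ × ℝ) where
  toFun p := (p.1 + 1, p.2)
  continuous_toFun := by fun_prop
  cocompact_tendsto' := by
    have h : IsClosedEmbedding (Prod.map (fun n : ℕ => n + 1) (id : ℝ → ℝ)) := by
      apply IsClosedEmbedding.prodMap
      · exact IsClosedEmbedding.of_continuous_injective_isClosedMap (by fun_prop)
          (fun a b h => by simpa using h) (fun s _ => isClosed_discrete _)
      · exact IsClosedEmbedding.id
    exact h.tendsto_cocompact

/-- The operator `F ↦ 2 F(n+1, x)` on `C₀(ℕ × ℝ)`. -/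
def T0 : A →ₗ[ℝ] A where
  toFun F := (2 : ℝ) • (show A from (show C₀(ℕ × ℝ, ℝ) from F).comp shiftCo)
  map_add' F G := by
    rw [← smul_add]
    rfl
  map_smul' c F := by
    rw [RingHom.id_apply, smul_comm]
    rfl

lemma T0_apply (F : A) (n : ℕ) (x : ℝ) : ev (T0 F) n x = 2 * ev F (n + 1) x := by
  rfl

lemma T0_mem {F : A} (hF : F ∈ S) : T0 F ∈ S := by
  intro n x
  have := (hF (n + 1) x).const_mul 2
  exact this

/-- The operator `T` on `S`, i.e. differentiation. -/
def T : S →L[ℝ] S :=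
  LinearMap.mkContinuous (T0.restrict (fun _ hF => T0_mem hF)) 2 (by
    rintro ⟨F, hF⟩
    change ‖T0 F‖ ≤ 2 * ‖F‖
    apply norm_le_of (by positivity)
    intro n x
    rw [T0_apply, abs_mul, abs_two]
    have := abs_ev_le F (n + 1) x
    linarith)

lemma T_apply (F : S) (n : ℕ) (x : ℝ) : ev (T F : A) n x = 2 * ev (F : A) (n + 1) x :=
  rfl

/-! ### `T` is skew-hermitian -/

/-- First order Taylor estimate. -/
lemma taylor_two {F : A} (hF : F ∈ S) (n : ℕ) (x ρ : ℝ) :
    |ev F n (x + ρ) - ev F n x - ρ * (2 * ev F (n + 1) x)| ≤ 4 * ‖F‖ * |ρ| ^ 2 := by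
  -- first the derivative
  have h1 : ∀ m : ℕ, ∀ y : ℝ, |ev F m (x + y) - ev F m x| ≤ 2 * ‖F‖ * |y| := by
    intro m y
    have := (convex_univ (𝕜 := ℝ) (E := ℝ)).norm_image_sub_le_of_norm_hasDerivWithin_le
      (f := fun y => ev F m y) (f' := fun y => 2 * ev F (m + 1) y) (C := 2 * ‖F‖)
      (x := x) (y := x + y)
      (fun z _ => (hF m z).hasDerivWithinAt)
      (fun z _ => by
        rw [Real.norm_eq_abs, abs_mul, abs_two]
        have := abs_ev_le F (m + 1) z
        linarith) (Set.mem_univ _) (Set.mem_univ _)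
    simpa using this
  have h2 : ∀ y ∈ Set.uIcc 0 ρ, HasDerivWithinAt
      (fun y => ev F n (x + y) - y * (2 * ev F (n + 1) x))
      (2 * ev F (n + 1) (x + y) - 2 * ev F (n + 1) x) (Set.uIcc 0 ρ) y := by
    intro y _
    apply HasDerivAt.hasDerivWithinAt
    have h3 : HasDerivAt (fun y => ev F n (x + y)) (2 * ev F (n + 1) (x + y)) y := by
      simpa using (hF n (x + y)).comp_const_add x y
    have h4 : HasDerivAt (fun y => y * (2 * ev F (n + 1) x)) (2 * ev F (n + 1) x) y := by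
      simpa using (hasDerivAt_id y).mul_const (2 * ev F (n + 1) x)
    exact h3.sub h4
  have h5 := (convex_uIcc (0 : ℝ) ρ).norm_image_sub_le_of_norm_hasDerivWithin_le
      (C := 4 * ‖F‖ * |ρ|) h2 (by
        intro y hy
        have hy' : |y| ≤ |ρ| := by
          have := Set.abs_sub_left_of_mem_uIcc hy
          simpa using this
        have := h1 (n + 1) y
        rw [← mul_sub, Real.norm_eq_abs, abs_mul, abs_two]
        have hF0 : 0 ≤ ‖F‖ := norm_nonneg _
        nlinarith [mul_le_mul_of_nonneg_left hy' hF0]) Set.left_mem_uIcc Set.right_mem_uIcc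
  simp only [add_zero, zero_mul, sub_zero, Real.norm_eq_abs] at h5
  calc |ev F n (x + ρ) - ev F n x - ρ * (2 * ev F (n + 1) x)|
      = |ev F n (x + ρ) - ρ * (2 * ev F (n + 1) x) - ev F n x| := by ring_nf
    _ ≤ 4 * ‖F‖ * |ρ| * |ρ| := h5
    _ = 4 * ‖F‖ * |ρ| ^ 2 := by ring

lemma norm_add_smul_T_le (F : S) (ρ : ℝ) : ‖F + ρ • T F‖ ≤ ‖F‖ + 4 * ‖F‖ * ρ ^ 2 := by
  change ‖((F + ρ • T F : S) : A)‖ ≤ _
  apply norm_le_of (by positivity)
  intro n x
  have h1 : ev ((F + ρ • T F : S) : A) n x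
      = ev (F : A) n x + ρ * (2 * ev (F : A) (n + 1) x) := rfl
  rw [h1]
  have h2 := taylor_two F.2 n x ρ
  have h3 := abs_ev_le (F : A) n (x + ρ)
  have h4 : ‖(F : A)‖ = ‖F‖ := rfl
  rw [h4] at h2 h3
  rw [sq_abs] at h2
  have h5 := abs_le.mp h2
  have h6 := abs_le.mp h3
  rw [abs_le]
  constructor <;> linarith [h5.1, h5.2, h6.1, h6.2]

lemma skew_apply {F : S} (hF : ‖F‖ = 1) {φ : S →L[ℝ] ℝ} (hφ : ‖φ‖ = 1) (h : φ F = 1) :
    φ (T F) = 0 := by
  have key : ∀ ρ : ℝ, ρ * φ (T F) ≤ 4 * ρ ^ 2 := by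
    intro ρ
    have h1 : φ (F + ρ • T F) ≤ 1 + 4 * ρ ^ 2 := by
      calc φ (F + ρ • T F) ≤ ‖φ (F + ρ • T F)‖ := Real.le_norm_self _
        _ ≤ ‖φ‖ * ‖F + ρ • T F‖ := φ.le_opNorm _
        _ ≤ 1 + 4 * ρ ^ 2 := by
          rw [hφ, one_mul]
          have := norm_add_smul_T_le F ρ
          rw [hF] at this
          linarith
    rw [map_add, map_smul, h, smul_eq_mul] at h1
    linarith
  set a := φ (T F)
  have h1 := key (a / 8)
  have h2 : a ^ 2 ≤ 0 := by nlinarith
  nlinarith [sq_nonneg a, pow_eq_zero_iff (two_ne_zero) |>.mp (le_antisymm h2 (sq_nonneg a))]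

/-! ### Analyticity -/

/-- Taylor estimate of arbitrary order. -/
lemma taylor_bound (M : ℕ) : ∀ (f : ℕ → ℝ → ℝ) (C : ℝ), (∀ m x, HasDerivAt (f m) (f (m + 1) x) x) →
    (∀ m x, |f m x| ≤ C * 2 ^ m) → ∀ (x y : ℝ),
    |f 0 (x + y) - ∑ m ∈ Finset.range M, f m x * (y ^ m / (m.factorial : ℝ))| ≤ C * (2 * |y|) ^ M := by
  induction M with
  | zero =>
    intro f C hf hC x y
    simpa using hC 0 (x + y)
  | succ M ih =>
    intro f C hf hC x y
    have hC0 : 0 ≤ C := by
      have := (abs_nonneg _).trans (hC 0 0)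
      simpa using this
    let R : ℝ → ℝ := fun y => f 0 (x + y) - ∑ m ∈ Finset.range (M + 1), f m x * (y ^ m / (m.factorial : ℝ))
    let R' : ℝ → ℝ := fun y => f 1 (x + y) - ∑ m ∈ Finset.range M, f (m + 1) x * (y ^ m / (m.factorial : ℝ))
    have hR : ∀ y, HasDerivAt R (R' y) y := by
      intro y
      apply HasDerivAt.sub
      · simpa using (hf 0 (x + y)).comp_const_add x y
      · have : ∀ y, ∑ m ∈ Finset.range (M + 1), f m x * (y ^ m / (m.factorial : ℝ))
            = f 0 x + ∑ m ∈ Finset.range M, f (m + 1) x * (y ^ (m + 1) / ((m + 1).factorial : ℝ)) := by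
          intro y
          rw [Finset.sum_range_succ']
          simp [add_comm]
        simp_rw [this]
        have h1 : HasDerivAt (fun y : ℝ => ∑ m ∈ Finset.range M, f (m + 1) x * (y ^ (m + 1) / ((m + 1).factorial : ℝ)))
            (∑ m ∈ Finset.range M, f (m + 1) x * (y ^ m / (m.factorial : ℝ))) y := by
          apply HasDerivAt.fun_sum
          intro m _
          apply HasDerivAt.const_mul
          have := (hasDerivAt_pow (m + 1) y).div_const ((m + 1).factorial : ℝ)
          refine this.congr_deriv ?_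
          rw [Nat.factorial_succ]
          push_cast
          have hm : (m.factorial : ℝ) ≠ 0 := by positivity
          have hm1 : ((m : ℝ) + 1) ≠ 0 := by positivity
          field_simp
        simpa using h1.const_add (f 0 x)
    have hR' : ∀ z ∈ Set.uIcc 0 y, ‖R' z‖ ≤ (C * 2) * (2 * |y|) ^ M := by
      intro z hz
      have hz' : |z| ≤ |y| := by
        have := Set.abs_sub_left_of_mem_uIcc hz
        simpa using this
      have := ih (fun m => f (m + 1)) (C * 2) (fun m x => hf (m + 1) x) (fun m x => by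
        have := hC (m + 1) x
        rw [pow_succ] at this
        linarith) x z
      refine this.trans ?_
      gcongr
    have h5 := (convex_uIcc (0 : ℝ) y).norm_image_sub_le_of_norm_hasDerivWithin_le
      (fun z _ => (hR z).hasDerivWithinAt) hR' Set.left_mem_uIcc Set.right_mem_uIcc
    have hR0 : R 0 = 0 := by
      simp only [R, add_zero]
      rw [Finset.sum_range_succ']
      simp
    rw [hR0, sub_zero, sub_zero] at h5
    calc |R y| ≤ (C * 2) * (2 * |y|) ^ M * |y| := h5
      _ = C * (2 * |y|) ^ (M + 1) := by ring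

lemma analyticAt_of_tower (f : ℕ → ℝ → ℝ) (C : ℝ) (hf : ∀ m x, HasDerivAt (f m) (f (m + 1) x) x)
    (hC : ∀ m x, |f m x| ≤ C * 2 ^ m) (x : ℝ) : AnalyticAt ℝ (f 0) x := by
  have hC0 : 0 ≤ C := by
    have := (abs_nonneg _).trans (hC 0 0)
    simpa using this
  let p : FormalMultilinearSeries ℝ ℝ ℝ :=
    FormalMultilinearSeries.ofScalars ℝ (fun m => f m x / (m.factorial : ℝ))
  have hp : HasFPowerSeriesOnBall (f 0) p x (ENNReal.ofReal (1 / 4)) := by
    refine ⟨?_, by simp, ?_⟩
    · rw [ENNReal.ofReal]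
      apply FormalMultilinearSeries.le_radius_of_bound p C
      intro n
      have h1 : ‖p n‖ ≤ |f n x / (n.factorial : ℝ)| := by
        have := FormalMultilinearSeries.ofScalars_norm (𝕜 := ℝ) (E := ℝ) (fun m => f m x / (m.factorial : ℝ)) n
        exact this.le
      have h2 : |f n x / (n.factorial : ℝ)| ≤ C * 2 ^ n := by
        rw [abs_div, Nat.abs_cast]
        have : (1 : ℝ) ≤ n.factorial := by exact_mod_cast Nat.one_le_iff_ne_zero.mpr (Nat.factorial_ne_zero n)
        calc |f n x| / n.factorial ≤ |f n x| / 1 := by gcongr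
          _ ≤ C * 2 ^ n := by simpa using hC n x
      have h3 : ((Real.toNNReal (1 / 4) : NNReal) : ℝ) = 1 / 4 := by
        rw [Real.coe_toNNReal]; norm_num
      rw [h3]
      calc ‖p n‖ * (1 / 4) ^ n ≤ (C * 2 ^ n) * (1 / 4) ^ n := by
            gcongr; exact h1.trans h2
        _ = C * (1 / 2) ^ n := by
          rw [mul_assoc, ← mul_pow]; norm_num
        _ ≤ C * 1 := by
          gcongr
          exact pow_le_one₀ (by norm_num) (by norm_num)
        _ = C := mul_one C
    · intro y hy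
      have hy' : |y| < 1 / 4 := by
        simp only [Metric.mem_eball, edist_zero_right] at hy
        have h1 : ENNReal.ofReal |y| < ENNReal.ofReal (1 / 4) := by
          rwa [← Real.norm_eq_abs, ofReal_norm]
        exact (ENNReal.ofReal_lt_ofReal_iff (by norm_num)).mp h1
      have hterm : ∀ n, p n (fun _ => y) = f n x * (y ^ n / (n.factorial : ℝ)) := by
        intro n
        simp only [p, FormalMultilinearSeries.ofScalars_apply_eq]
        simp
        ring
      have hsummable : Summable (fun n => p n (fun _ => y)) := by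
        apply Summable.of_norm_bounded (g := fun n => C * (1 / 2) ^ n)
        · exact (summable_geometric_of_lt_one (by norm_num) (by norm_num)).mul_left C
        · intro n
          rw [hterm, Real.norm_eq_abs, abs_mul, abs_div, abs_pow, Nat.abs_cast]
          have : (1 : ℝ) ≤ n.factorial := by exact_mod_cast Nat.one_le_iff_ne_zero.mpr (Nat.factorial_ne_zero n)
          calc |f n x| * (|y| ^ n / n.factorial) ≤ (C * 2 ^ n) * ((1 / 4) ^ n / 1) := by
                gcongr
                exact hC n x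
            _ = C * (1 / 2) ^ n := by
              rw [div_one, mul_assoc, ← mul_pow]; norm_num
      rw [hsummable.hasSum_iff_tendsto_nat]
      rw [tendsto_iff_norm_sub_tendsto_zero]
      have hlim : Tendsto (fun n : ℕ => C * (2 * |y|) ^ n) atTop (𝓝 0) := by
        have := (tendsto_pow_atTop_nhds_zero_of_lt_one (r := 2 * |y|) (by positivity) (by linarith)).const_mul C
        simpa using this
      refine squeeze_zero (fun n => norm_nonneg _) (fun n => ?_) hlim
      have := taylor_bound n f C hf hC x y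
      rw [abs_sub_comm] at this
      simp_rw [hterm]
      exact this
  exact hp.analyticAt

lemma analyticOnNhd_apply {F : A} (hF : F ∈ S) (n : ℕ) :
    AnalyticOnNhd ℝ (fun x => ev F n x) Set.univ := by
  intro x _
  have := analyticAt_of_tower (fun m y => 2 ^ m * ev F (n + m) y) ‖F‖ (by
    intro m x
    have := (hF (n + m) x).const_mul (2 ^ m)
    refine this.congr_deriv ?_
    rw [pow_succ, add_assoc]; ring) (by
    intro m x
    rw [abs_mul, abs_pow, abs_two]
    have := abs_ev_le F (n + m) x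
    nlinarith [pow_pos (zero_lt_two (α := ℝ)) m]) x
  simpa using this

/-! ### No circle -/

lemma exists_norming {F : A} (hF : ‖F‖ = 1) : ∃ n x, |ev F n x| = 1 := by
  obtain ⟨n0, x0, h0⟩ : ∃ n x, 1 / 2 < |ev F n x| := by
    by_contra hcon
    push Not at hcon
    have := norm_le_of (by norm_num) hcon
    rw [hF] at this
    norm_num at this
  have hc : Continuous (fun p : ℕ × ℝ => |ev F p.1 p.2|) := (continuous_ev F).abs
  have hev : ∀ᶠ p in cocompact (ℕ × ℝ), |ev F p.1 p.2| ≤ |ev F n0 x0| := by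
    have h1 : Tendsto (fun p : ℕ × ℝ => |ev F p.1 p.2|) (cocompact (ℕ × ℝ)) (𝓝 0) := by
      simpa using (tendsto_ev F).abs
    filter_upwards [h1.eventually (gt_mem_nhds (show (0 : ℝ) < 1 / 2 by norm_num))] with p hp
    linarith
  obtain ⟨p, hp⟩ := hc.exists_forall_ge' (n0, x0) hev
  refine ⟨p.1, p.2, le_antisymm ?_ ?_⟩
  · rw [← hF]; exact abs_ev_le F p.1 p.2
  · have := norm_le_of (C := |ev F p.1 p.2|) (abs_nonneg _) (fun n x => hp (n, x))
    rwa [hF] at this

lemma tendsto_ev_right (F : A) (n : ℕ) : Tendsto (fun x => ev F n x) (cocompact ℝ) (𝓝 0) := by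
  have h : IsClosedEmbedding (fun x : ℝ => ((n, x) : ℕ × ℝ)) := by
    refine IsClosedEmbedding.of_continuous_injective_isClosedMap (by fun_prop)
      (fun a b h => by simpa using h) ?_
    intro s hs
    have : (fun x : ℝ => ((n, x) : ℕ × ℝ)) '' s = {n} ×ˢ s := by
      ext ⟨a, b⟩
      simp only [Set.mem_image, Prod.mk.injEq, Set.mem_prod, Set.mem_singleton_iff]
      constructor
      · rintro ⟨x, hx, rfl, rfl⟩; exact ⟨rfl, hx⟩
      · rintro ⟨rfl, hb⟩; exact ⟨b, hb, rfl, rfl⟩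
    rw [this]
    exact isClosed_singleton.prod hs
  exact (tendsto_ev F).comp h.tendsto_cocompact

lemma no_circle {F G : A} (hF : F ∈ S) (hG : G ∈ S)
    (h : ∀ a b : ℝ, ‖a • F + b • G‖ = √(a ^ 2 + b ^ 2)) : False := by
  -- pointwise bound
  have hle : ∀ n x, ev F n x ^ 2 + ev G n x ^ 2 ≤ 1 := by
    intro n x
    have h1 := abs_ev_le (ev F n x • F + ev G n x • G) n x
    rw [h, ev_add, ev_smul, ev_smul] at h1
    set r := √(ev F n x ^ 2 + ev G n x ^ 2) with hr
    have hr2 : r ^ 2 = ev F n x ^ 2 + ev G n x ^ 2 := Real.sq_sqrt (by positivity)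
    have h2 : ev F n x * ev F n x + ev G n x * ev G n x = r ^ 2 := by rw [hr2]; ring
    rw [h2, abs_of_nonneg (sq_nonneg r)] at h1
    have hr0 : 0 ≤ r := Real.sqrt_nonneg _
    rw [← hr2]
    nlinarith
  let K : Set (ℕ × ℝ) := {p | ev F p.1 p.2 ^ 2 + ev G p.1 p.2 ^ 2 = 1}
  -- `K` is infinite
  have hK : K.Infinite := by
    intro hfin
    have himg : ((fun p : ℕ × ℝ => ev F p.1 p.2 ^ 2) '' K).Finite := hfin.image _
    refine (Set.Icc_infinite (show (0 : ℝ) < 1 by norm_num)) (himg.subset ?_)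
    intro t ht
    have h1 : ‖√t • F + √(1 - t) • G‖ = 1 := by
      rw [h, Real.sq_sqrt ht.1, Real.sq_sqrt (by linarith [ht.2])]
      norm_num
    obtain ⟨n, x, hx⟩ := exists_norming h1
    rw [ev_add, ev_smul, ev_smul] at hx
    have h2 := hle n x
    have h3 : √t ^ 2 = t := Real.sq_sqrt ht.1
    have h4 : √(1 - t) ^ 2 = 1 - t := Real.sq_sqrt (by linarith [ht.2])
    set a := ev F n x with ha
    set b := ev G n x with hb
    set c := √t
    set d := √(1 - t)
    have h5 : (c * a + d * b) ^ 2 = 1 := by rw [← sq_abs, hx]; norm_num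
    have h6 : (c * b - d * a) ^ 2 = (c ^ 2 + d ^ 2) * (a ^ 2 + b ^ 2) - (c * a + d * b) ^ 2 := by ring
    have h7 : c ^ 2 + d ^ 2 = 1 := by rw [h3, h4]; ring
    rw [h5, h7, one_mul] at h6
    have h8 : a ^ 2 + b ^ 2 = 1 := by nlinarith [sq_nonneg (c * b - d * a)]
    have h9 : c * b - d * a = 0 := by
      have : (c * b - d * a) ^ 2 = 0 := by rw [h6, h8]; ring
      exact pow_eq_zero_iff (two_ne_zero) |>.mp this
    refine ⟨(n, x), h8, ?_⟩
    change a ^ 2 = t
    rw [← h3]
    -- a ^ 2 = c ^ 2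
    have h10 : c = a * (c * a + d * b) := by
      have : a * (c * a + d * b) = c * (a ^ 2 + b ^ 2) - b * (c * b - d * a) := by ring
      rw [this, h8, h9]; ring
    calc a ^ 2 = a ^ 2 * (c * a + d * b) ^ 2 := by rw [h5, mul_one]
      _ = (a * (c * a + d * b)) ^ 2 := by ring
      _ = c ^ 2 := by rw [← h10]
  -- `K` is contained in a compact set
  have hlim : Tendsto (fun p : ℕ × ℝ => ev F p.1 p.2 ^ 2 + ev G p.1 p.2 ^ 2) (cocompact (ℕ × ℝ))
      (𝓝 0) := by
    have := ((tendsto_ev F).pow 2).add ((tendsto_ev G).pow 2)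
    simpa using this
  have hev := hlim.eventually (gt_mem_nhds (show (0 : ℝ) < 1 by norm_num))
  obtain ⟨C, hC, hCs⟩ := mem_cocompact.mp hev
  have hKC : K ⊆ C := by
    intro p hp
    by_contra hpC
    have : ev F p.1 p.2 ^ 2 + ev G p.1 p.2 ^ 2 < 1 := hCs hpC
    exact absurd hp this.ne
  obtain ⟨⟨n0, x0⟩, -, hacc⟩ := hK.exists_accPt_of_subset_isCompact hC hKC
  have hfreq : ∃ᶠ y in 𝓝[≠] x0, ev F n0 y ^ 2 + ev G n0 y ^ 2 = 1 := by
    rw [accPt_iff_frequently] at hacc
    rw [frequently_nhdsWithin_iff]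
    intro hcon
    apply hacc
    rw [nhds_prod_eq, nhds_discrete, Filter.pure_prod, Filter.eventually_map]
    filter_upwards [hcon] with y hy hy2
    exact hy ⟨hy2.2, fun h => hy2.1 (by rw [Set.mem_singleton_iff] at h; rw [h])⟩
  have hFG : AnalyticOnNhd ℝ (fun y => ev F n0 y ^ 2 + ev G n0 y ^ 2) Set.univ :=
    ((analyticOnNhd_apply hF n0).pow 2).add ((analyticOnNhd_apply hG n0).pow 2)
  have hone := hFG.eq_of_frequently_eq (g := fun _ => (1 : ℝ)) (fun _ _ => analyticAt_const) hfreq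
  have hlim2 : Tendsto (fun y => ev F n0 y ^ 2 + ev G n0 y ^ 2) (cocompact ℝ) (𝓝 0) := by
    have := ((tendsto_ev_right F n0).pow 2).add ((tendsto_ev_right G n0).pow 2)
    simpa using this
  rw [hone] at hlim2
  exact one_ne_zero (tendsto_nhds_unique tendsto_const_nhds hlim2)

/-! ### A nonzero element -/

/-- The functions whose Fourier transforms we use. -/
def fn (n : ℕ) (t : ℝ) : ℂ :=
  Set.indicator (Set.Icc 0 (1 / (2 * π))) (fun t => (-(π * Complex.I * t) : ℂ) ^ n) t

lemma integrable_fn (n : ℕ) : Integrable (fn n) := by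
  unfold fn
  rw [integrable_indicator_iff measurableSet_Icc]
  apply ContinuousOn.integrableOn_Icc
  fun_prop

lemma norm_fn_le (n : ℕ) (t : ℝ) :
    ‖fn n t‖ ≤ Set.indicator (Set.Icc 0 (1 / (2 * π))) (fun _ => (1 / 2 : ℝ) ^ n) t := by
  unfold fn
  by_cases ht : t ∈ Set.Icc 0 (1 / (2 * π))
  · rw [Set.indicator_of_mem ht, Set.indicator_of_mem ht, norm_pow]
    apply pow_le_pow_left₀ (norm_nonneg _)
    rw [norm_neg, norm_mul, norm_mul, Complex.norm_I, mul_one, Complex.norm_real, Complex.norm_real,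
      Real.norm_of_nonneg Real.pi_pos.le, Real.norm_of_nonneg ht.1]
    have := ht.2
    calc π * t ≤ π * (1 / (2 * π)) := by gcongr
      _ = 1 / 2 := by field_simp
  · rw [Set.indicator_of_notMem ht, Set.indicator_of_notMem ht, norm_zero]

lemma fourier_fn_le (n : ℕ) (x : ℝ) : ‖𝓕 (fn n) x‖ ≤ (1 / 2 : ℝ) ^ n := by
  have h1 : ‖𝓕 (fn n) x‖ ≤ ∫ t, ‖fn n t‖ := by
    exact VectorFourier.norm_fourierIntegral_le_integral_norm _ _ _ _ _
  refine h1.trans ?_
  have h2 : ∫ t, ‖fn n t‖ ≤ ∫ t, Set.indicator (Set.Icc 0 (1 / (2 * π))) (fun _ => (1 / 2 : ℝ) ^ n) t := by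
    apply integral_mono (integrable_fn n).norm
    · rw [integrable_indicator_iff measurableSet_Icc]
      exact continuousOn_const.integrableOn_Icc
    · exact norm_fn_le n
  refine h2.trans ?_
  rw [integral_indicator measurableSet_Icc, setIntegral_const, smul_eq_mul]
  have hpi : (0 : ℝ) ≤ 1 / (2 * π) := by positivity
  have h3 : volume.real (Set.Icc 0 (1 / (2 * π))) = 1 / (2 * π) := by
    rw [Real.volume_real_Icc_of_le hpi, sub_zero]
  rw [h3]
  have h4 : 1 / (2 * π) ≤ 1 := by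
    rw [div_le_one (by positivity)]
    linarith [Real.pi_gt_three]
  calc 1 / (2 * π) * (1 / 2 : ℝ) ^ n ≤ 1 * (1 / 2 : ℝ) ^ n := by gcongr
    _ = _ := one_mul _

lemma hasDerivAt_fourier_fn (n : ℕ) (x : ℝ) :
    HasDerivAt (𝓕 (fn n)) (2 * 𝓕 (fn (n + 1)) x) x := by
  have h1 : ∀ t : ℝ, fn (n + 1) t = (-(π * Complex.I * t) : ℂ) * fn n t := by
    intro t
    unfold fn
    by_cases ht : t ∈ Set.Icc 0 (1 / (2 * π))
    · rw [Set.indicator_of_mem ht, Set.indicator_of_mem ht, pow_succ, mul_comm]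
    · rw [Set.indicator_of_notMem ht, Set.indicator_of_notMem ht, mul_zero]
  have h2 : Integrable (fun t : ℝ => t • fn n t) := by
    have h3 := (integrable_fn (n + 1)).const_mul (Complex.I / π)
    refine h3.congr (Eventually.of_forall fun t => ?_)
    simp only [h1]
    rw [Complex.real_smul]
    have hpi : (π : ℂ) ≠ 0 := by exact_mod_cast Real.pi_ne_zero
    field_simp
    rw [Complex.I_sq]; ring
  have h3 := Real.hasDerivAt_fourier (integrable_fn n) h2 x
  refine h3.congr_deriv ?_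
  have h4 : (fun t : ℝ => (-2 * π * Complex.I * t) • fn n t) = (2 : ℂ) • fn (n + 1) := by
    ext t
    simp only [Pi.smul_apply, h1, smul_eq_mul]
    ring
  rw [h4]
  have h5 : 𝓕 ((2 : ℂ) • fn (n + 1)) x = (2 : ℂ) • 𝓕 (fn (n + 1)) x := by
    have := VectorFourier.fourierIntegral_const_smul Real.fourierChar volume (innerₗ ℝ) (fn (n + 1)) (2 : ℂ)
    exact congrFun this x
  rw [h5, smul_eq_mul]

/-- The explicit nonzero element: real parts of Fourier transforms. -/
def F0 : A := show C₀(ℕ × ℝ, ℝ) from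
  { toFun := fun p => (𝓕 (fn p.1) p.2).re
    continuous_toFun := by
      rw [continuous_prod_of_discrete_left]
      intro n
      have h1 : Continuous (𝓕 (fn n)) :=
        continuous_iff_continuousAt.mpr fun x => (hasDerivAt_fourier_fn n x).continuousAt
      exact Complex.continuous_re.comp h1
    zero_at_infty' := by
      rw [Metric.tendsto_nhds]
      intro ε hε
      obtain ⟨N, hN⟩ : ∃ N : ℕ, (1 / 2 : ℝ) ^ N < ε := exists_pow_lt_of_lt_one hε (by norm_num)
      have h1 : ∀ n : ℕ, ∀ᶠ x in cocompact ℝ, ‖𝓕 (fn n) x‖ < ε := by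
        intro n
        have := Real.zero_at_infty_fourier (fn n)
        rw [Metric.tendsto_nhds] at this
        simpa using this ε hε
      have h2 : ∀ᶠ x in cocompact ℝ, ∀ n ∈ Finset.range N, ‖𝓕 (fn n) x‖ < ε := by
        rw [Filter.eventually_all_finset]
        exact fun n _ => h1 n
      obtain ⟨C, hC, hCs⟩ := mem_cocompact.mp h2
      refine mem_cocompact.mpr ⟨((Finset.range N : Finset ℕ) : Set ℕ) ×ˢ C, ?_, ?_⟩
      · exact (Finset.finite_toSet _).isCompact.prod hC
      · rintro ⟨n, x⟩ hnx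
        change dist (𝓕 (fn n) x).re 0 < ε
        rw [Real.dist_eq, sub_zero]
        refine (Complex.abs_re_le_norm _).trans_lt ?_
        by_cases hn : n < N
        · have hx : x ∉ C := by
            intro hx
            exact hnx ⟨by simpa using hn, hx⟩
          exact hCs hx n (by simpa using hn)
        · refine (fourier_fn_le n x).trans_lt (lt_of_le_of_lt ?_ hN)
          exact pow_le_pow_of_le_one (by norm_num) (by norm_num) (by omega) }

lemma ev_F0 (n : ℕ) (x : ℝ) : ev F0 n x = (𝓕 (fn n) x).re := rfl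

lemma F0_mem : F0 ∈ S := by
  intro n x
  simp_rw [ev_F0]
  have h1 := hasDerivAt_fourier_fn n x
  have h2 : HasDerivAt (fun y => (𝓕 (fn n) y).re) (2 * 𝓕 (fn (n + 1)) x).re x := by
    have := (Complex.reCLM.hasFDerivAt (x := 𝓕 (fn n) x)).comp_hasDerivAt x h1
    exact this
  refine h2.congr_deriv ?_
  simp

lemma F0_zero : ev F0 0 0 = 1 / (2 * π) := by
  rw [ev_F0]
  have h1 : 𝓕 (fn 0) 0 = ∫ t, fn 0 t := by
    rw [Real.fourier_eq']
    simp
  rw [h1]
  unfold fn
  simp only [pow_zero]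
  rw [integral_indicator measurableSet_Icc, setIntegral_const]
  have hpi : (0 : ℝ) ≤ 1 / (2 * π) := by positivity
  have h3 : volume.real (Set.Icc 0 (1 / (2 * π))) = 1 / (2 * π) := by
    rw [Real.volume_real_Icc_of_le hpi, sub_zero]
  rw [h3]
  simp

lemma T_ne_zero : T ≠ 0 := by
  intro h
  have h1 : ∀ x, ev F0 1 x = 0 := by
    intro x
    have h2 := T_apply ⟨F0, F0_mem⟩ 0 x
    rw [h] at h2
    have h3 : ev (((0 : S →L[ℝ] S) ⟨F0, F0_mem⟩ : S) : A) 0 x = 0 := rfl
    rw [h3] at h2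
    have h4 : (0 : ℝ) = 2 * ev F0 1 x := h2
    linarith
  have h2 : ∀ x, ev F0 0 x = ev F0 0 0 := by
    intro x
    have hd : ∀ y, HasDerivAt (fun y => ev F0 0 y) 0 y := by
      intro y
      have := F0_mem 0 y
      rw [show (0 + 1 : ℕ) = 1 from rfl, h1 y, mul_zero] at this
      exact this
    exact is_const_of_deriv_eq_zero (fun y => (hd y).differentiableAt) (fun y => (hd y).deriv) x 0
  have h3 := tendsto_ev_right F0 0
  simp_rw [h2] at h3
  have h4 := tendsto_nhds_unique tendsto_const_nhds h3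
  rw [F0_zero] at h4
  have : (0 : ℝ) < 1 / (2 * π) := by positivity
  exact this.ne' h4

lemma isSkew_T : {r : ℝ | ∃ (x : S) (φ : S →L[ℝ] ℝ), ‖x‖ = 1 ∧ ‖φ‖ = 1 ∧ φ x = 1 ∧ φ (T x) = r}
    = {0} := by
  ext r
  simp only [Set.mem_ofPred_eq, Set.mem_singleton_iff]
  constructor
  · rintro ⟨x, φ, hx, hφ, h1, rfl⟩
    exact skew_apply hx hφ h1
  · rintro rfl
    have hne : (⟨F0, F0_mem⟩ : S) ≠ 0 := by
      intro h
      have : ev ((⟨F0, F0_mem⟩ : S) : A) 0 0 = 0 := by rw [h]; rfl
      have h2 : ev F0 0 0 = 0 := this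
      rw [F0_zero] at h2
      have : (0 : ℝ) < 1 / (2 * π) := by positivity
      exact this.ne' h2
    obtain ⟨φ, hφ, h1⟩ := exists_dual_vector ℝ (⟨F0, F0_mem⟩ : S) (norm_ne_zero_iff.mpr hne)
    set z : S := ⟨F0, F0_mem⟩
    have hz : ‖z‖ ≠ 0 := norm_ne_zero_iff.mpr hne
    have hz1 : ‖‖z‖⁻¹ • z‖ = 1 := by
      rw [norm_smul, norm_inv, norm_norm, inv_mul_cancel₀ hz]
    have hφz : φ (‖z‖⁻¹ • z) = 1 := by
      rw [map_smul, h1, smul_eq_mul]
      exact inv_mul_cancel₀ hz
    exact ⟨‖z‖⁻¹ • z, φ, hz1, hφ, hφz, skew_apply hz1 hφ hφz⟩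

lemma no_isometry : IsEmpty (EuclideanSpace ℝ (Fin 2) →ₗᵢ[ℝ] S) := by
  constructor
  intro e
  have h := fun a b : ℝ => e.norm_map (a • EuclideanSpace.single 0 (1 : ℝ) + b • EuclideanSpace.single 1 (1 : ℝ))
  refine no_circle (F := ((e (EuclideanSpace.single 0 (1 : ℝ)) : S) : A))
    (G := ((e (EuclideanSpace.single 1 (1 : ℝ)) : S) : A)) (Subtype.property _) (Subtype.property _) ?_
  intro a b
  have h1 := h a b
  rw [map_add, map_smul, map_smul] at h1
  refine Eq.trans h1 ?_
  rw [EuclideanSpace.norm_eq]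
  simp [Fin.sum_univ_two]

lemma no_complex : ¬ ∃ (Z : Submodule ℝ S) (J : Z →ₗ[ℝ] Z), IsClosed (Z : Set S) ∧ Z ≠ ⊥ ∧
    (∀ z : Z, J (J z) = -z) ∧
    ∀ (ρ : ℝ) (z : Z), ‖Real.cos ρ • z + Real.sin ρ • J z‖ = ‖z‖ := by
  rintro ⟨Z, J, -, hZ, -, hJ⟩
  obtain ⟨z, hz, hz0⟩ := Submodule.exists_mem_ne_zero_of_ne_bot hZ
  have hzn : ‖z‖ ≠ 0 := norm_ne_zero_iff.mpr hz0
  obtain ⟨w, hw1⟩ : ∃ w : Z, ‖w‖ = 1 := by
    refine ⟨‖z‖⁻¹ • ⟨z, hz⟩, ?_⟩
    rw [norm_smul, norm_inv, norm_norm]
    exact inv_mul_cancel₀ hzn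
  refine no_circle (F := ((w : S) : A)) (G := ((J w : S) : A)) (Subtype.property _)
    (Subtype.property _) ?_
  intro a b
  have key : ∀ c : ℂ, ‖(c.re • w + c.im • J w : Z)‖ = ‖c‖ := by
    intro c
    have h1 := hJ c.arg (‖c‖ • w)
    rw [norm_smul, norm_norm, hw1, mul_one] at h1
    rw [← h1]
    congr 1
    rw [map_smul, smul_smul, smul_smul, mul_comm (Real.cos _), mul_comm (Real.sin _),
      Complex.norm_mul_cos_arg, Complex.norm_mul_sin_arg]
  have := key ⟨a, b⟩
  refine Eq.trans this ?_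
  rw [Complex.norm_def, Complex.normSq_mk]
  ring_nf

end

end Pool.Agent.Helper88.BandLimited
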