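import Pool.Agent.Helper88.GrIso

set_option autoImplicit false

open Set MeasureTheory Metric intervalIntegral

namespace Pool.Agent.Helper88.Gr

/-- the point of angle `φ` on the unit circle -/
noncomputable def ee (φ : ℝ) : ℂ := Complex.exp (φ * Complex.I)

lemma norm_ee (φ : ℝ) : ‖ee φ‖ = 1 := Complex.norm_exp_ofReal_mul_I φ

lemma hasDerivAt_ee (φ : ℝ) : HasDerivAt ee (ee φ * Complex.I) φ := by
  have h := ((hasDerivAt_id (φ:ℂ)).mul_const Complex.I).cexp.comp_ofReal
  have h2 : HasDerivAt ee (Complex.exp (id (φ:ℂ) * Complex.I) * (1 * Complex.I)) φ := h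
  exact h2.congr_deriv (by simp [ee])

lemma continuous_ee : Continuous ee := by unfold ee; fun_prop

lemma periodic_ee : Function.Periodic ee (2 * Real.pi) := by
  intro φ
  simp only [ee]
  push_cast
  rw [add_mul, Complex.exp_add, Complex.exp_two_pi_mul_I, mul_one]

lemma mem_ball_ee {s : ℝ} (hs : |s| < 1) (φ : ℝ) : (s:ℂ) * ee φ ∈ ball (0:ℂ) 1 := by
  simp [norm_ee, hs]

lemma hasDerivAt_s {g : ℂ → ℂ} {g' : ℂ} {s φ : ℝ} (h : HasDerivAt g g' (s * ee φ)) :
    HasDerivAt (fun s : ℝ => g (s * ee φ)) (g' * ee φ) s := by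
  have h1 : HasDerivAt (fun w : ℂ => w * ee φ) (ee φ) (s:ℂ) := by
    simpa using (hasDerivAt_id (s:ℂ)).mul_const (ee φ)
  exact (HasDerivAt.comp (s:ℂ) h h1).comp_ofReal

lemma hasDerivAt_phi {g : ℂ → ℂ} {g' : ℂ} {s φ : ℝ} (h : HasDerivAt g g' (s * ee φ)) :
    HasDerivAt (fun φ : ℝ => g (s * ee φ)) (g' * (s * ee φ * Complex.I)) φ := by
  have h1 : HasDerivAt (fun φ : ℝ => (s:ℂ) * ee φ) (s * ee φ * Complex.I) φ := by
    simpa [mul_assoc] using (hasDerivAt_ee φ).const_mul (s:ℂ)
  exact HasDerivAt.comp φ h h1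

lemma hasDerivAt_re {g : ℝ → ℂ} {g' : ℂ} {x : ℝ} (h : HasDerivAt g g' x) :
    HasDerivAt (fun x => (g x).re) g'.re x :=
  (Complex.reCLM.hasFDerivAt.comp_hasDerivAt x h)

lemma hasDerivAt_im {g : ℝ → ℂ} {g' : ℂ} {x : ℝ} (h : HasDerivAt g g' x) :
    HasDerivAt (fun x => (g x).im) g'.im x :=
  (Complex.imCLM.hasFDerivAt.comp_hasDerivAt x h)

/-- continuity of parametric integrals on `(-1,1)` -/
lemma continuousOn_param {F : ℝ → ℝ → ℝ}
    (hF : ContinuousOn (Function.uncurry F) (Ioo (-1) 1 ×ˢ univ)) :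
    ContinuousOn (fun s => ∫ φ in (-Real.pi)..Real.pi, F s φ) (Ioo (-1) 1) := by
  intro s hs
  obtain ⟨ρ, h1, h2⟩ : ∃ ρ, |s| < ρ ∧ ρ < 1 := exists_between (abs_lt.mpr ⟨by linarith [hs.1], hs.2⟩)
  have hρ0 : 0 < ρ := lt_of_le_of_lt (abs_nonneg _) h1
  set cl : ℝ → ℝ := fun x => max (-ρ) (min ρ x) with hcl
  have hclc : Continuous cl := by fun_prop
  have hclm : ∀ x, cl x ∈ Ioo (-1:ℝ) 1 := by
    intro x
    constructor
    · exact lt_of_lt_of_le (by linarith) (le_max_left _ _)
    · exact max_lt (by linarith) (lt_of_le_of_lt (min_le_left _ _) h2)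
  have hc : Continuous (Function.uncurry (fun s φ => F (cl s) φ)) := by
    have : (Function.uncurry (fun s φ => F (cl s) φ)) =
      (Function.uncurry F) ∘ (fun p : ℝ × ℝ => (cl p.1, p.2)) := by
      ext p; rfl
    rw [this]
    apply hF.comp_continuous (by fun_prop)
    intro p
    exact ⟨hclm _, mem_univ _⟩
  have h3 := intervalIntegral.continuous_parametric_intervalIntegral_of_continuous' (μ := volume)
    hc (-Real.pi) Real.pi
  apply ContinuousAt.continuousWithinAt
  refine h3.continuousAt.congr ?_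
  have : Ioo (-ρ) ρ ∈ nhds s := Ioo_mem_nhds (abs_lt.mp h1).1 (abs_lt.mp h1).2
  filter_upwards [this] with x hx
  have : cl x = x := by
    simp only [hcl]
    rw [min_eq_right hx.2.le, max_eq_right hx.1.le]
  simp only [this]

lemma hasDerivAt_param {F F' : ℝ → ℝ → ℝ}
    (hF : ContinuousOn (Function.uncurry F) (Ioo (-1) 1 ×ˢ univ))
    (hF' : ContinuousOn (Function.uncurry F') (Ioo (-1) 1 ×ˢ univ))
    (hd : ∀ s ∈ Ioo (-1:ℝ) 1, ∀ φ, HasDerivAt (fun s => F s φ) (F' s φ) s)
    {s : ℝ} (hs : s ∈ Ioo (-1:ℝ) 1) :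
    HasDerivAt (fun s => ∫ φ in (-Real.pi)..Real.pi, F s φ)
      (∫ φ in (-Real.pi)..Real.pi, F' s φ) s := by
  obtain ⟨ρ, h1, h2⟩ : ∃ ρ, |s| < ρ ∧ ρ < 1 := exists_between (abs_lt.mpr ⟨by linarith [hs.1], hs.2⟩)
  have hρ0 : 0 < ρ := lt_of_le_of_lt (abs_nonneg _) h1
  have hK : IsCompact (Icc (-ρ) ρ ×ˢ Icc (-Real.pi) Real.pi) := isCompact_Icc.prod isCompact_Icc
  obtain ⟨C, hC⟩ := hK.exists_bound_of_continuousOn (f := Function.uncurry F')
    (hF'.mono (by
      intro p hp
      exact ⟨⟨by linarith [hp.1.1], by linarith [hp.1.2]⟩, mem_univ _⟩))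
  have hpi : -Real.pi ≤ Real.pi := by linarith [Real.pi_pos]
  have hsl : ∀ {G : ℝ → ℝ → ℝ}, ContinuousOn (Function.uncurry G) (Ioo (-1) 1 ×ˢ univ) →
      ∀ s ∈ Ioo (-1:ℝ) 1, Continuous (G s) := by
    intro G hG s hs
    have : G s = Function.uncurry G ∘ (fun φ => (s, φ)) := rfl
    rw [this]
    exact hG.comp_continuous (by fun_prop) (fun φ => ⟨hs, mem_univ _⟩)
  refine (intervalIntegral.hasDerivAt_integral_of_dominated_loc_of_deriv_le (μ := volume)
    (F := F) (F' := F') (x₀ := s) (s := Ioo (-ρ) ρ) (bound := fun _ => C)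
    (Ioo_mem_nhds (abs_lt.mp h1).1 (abs_lt.mp h1).2) ?_ ?_ ?_ ?_ ?_ ?_).2
  · filter_upwards [Ioo_mem_nhds hs.1 hs.2] with x hx
    exact (hsl hF x hx).aestronglyMeasurable
  · exact (hsl hF s hs).intervalIntegrable _ _
  · exact (hsl hF' s hs).aestronglyMeasurable
  · refine Filter.Eventually.of_forall fun t ht x hx => ?_
    rw [uIoc_of_le hpi] at ht
    exact hC (x, t) ⟨⟨hx.1.le, hx.2.le⟩, ⟨ht.1.le, ht.2⟩⟩
  · exact intervalIntegrable_const
  · refine Filter.Eventually.of_forall fun t ht x hx => ?_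
    exact hd x ⟨by linarith [hx.1], by linarith [hx.2]⟩ t

lemma continuousOn_polar {g : ℂ → ℂ} (hg : ContinuousOn g (ball 0 1)) :
    ContinuousOn (fun p : ℝ × ℝ => g (p.1 * ee p.2)) (Ioo (-1) 1 ×ˢ univ) := by
  have h1 : Continuous (fun p : ℝ × ℝ => (p.1:ℂ) * ee p.2) :=
    (Complex.continuous_ofReal.comp continuous_fst).mul (continuous_ee.comp continuous_snd)
  apply hg.comp h1.continuousOn
  intro p hp
  exact mem_ball_ee (abs_lt.mpr ⟨hp.1.1, hp.1.2⟩) _

/-- the weighted mean `V` -/
noncomputable def VV (L : ℂ → ℂ) (s : ℝ) : ℝ :=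
  ∫ φ in (-Real.pi)..Real.pi, Real.exp (L (s * ee φ)).re / (1 + Real.exp (L (s * ee φ)).re) ^ 2 *
    ‖deriv L (s * ee φ)‖ ^ 2

/-- the area function `Q` -/
noncomputable def QQ (L : ℂ → ℂ) (s : ℝ) : ℝ :=
  ∫ φ in (-Real.pi)..Real.pi, -((s * ee φ * deriv L (s * ee φ)).re / (1 + Real.exp (L (s * ee φ)).re))

lemma continuousOn_re_polar {g : ℂ → ℂ} (hg : ContinuousOn g (ball 0 1)) :
    ContinuousOn (fun p : ℝ × ℝ => (g (p.1 * ee p.2)).re) (Ioo (-1) 1 ×ˢ univ) :=
  Complex.continuous_re.comp_continuousOn (continuousOn_polar hg)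

lemma continuousOn_im_polar {g : ℂ → ℂ} (hg : ContinuousOn g (ball 0 1)) :
    ContinuousOn (fun p : ℝ × ℝ => (g (p.1 * ee p.2)).im) (Ioo (-1) 1 ×ˢ univ) :=
  Complex.continuous_im.comp_continuousOn (continuousOn_polar hg)

lemma continuousOn_exp_polar {g : ℂ → ℂ} (hg : ContinuousOn g (ball 0 1)) :
    ContinuousOn (fun p : ℝ × ℝ => Real.exp (g (p.1 * ee p.2)).re) (Ioo (-1) 1 ×ˢ univ) :=
  Real.continuous_exp.comp_continuousOn (continuousOn_re_polar hg)

lemma continuousOn_w_polar {L : ℂ → ℂ} (hL : DifferentiableOn ℂ L (ball 0 1)) :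
    ContinuousOn (fun p : ℝ × ℝ => Real.exp (L (p.1 * ee p.2)).re /
      (1 + Real.exp (L (p.1 * ee p.2)).re) ^ 2 * ‖deriv L (p.1 * ee p.2)‖ ^ 2)
      (Ioo (-1) 1 ×ˢ univ) := by
  have hd := (hL.deriv isOpen_ball).continuousOn
  have c1 := continuousOn_exp_polar hL.continuousOn
  have c2 := (continuousOn_polar hd).norm
  apply ContinuousOn.mul _ (c2.pow 2)
  apply c1.div ((continuousOn_const.add c1).pow 2)
  intro p _
  exact (by positivity : (1 + Real.exp (L (p.1 * ee p.2)).re) ^ 2 ≠ 0)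

lemma continuousOn_VV {L : ℂ → ℂ} (hL : DifferentiableOn ℂ L (ball 0 1)) :
    ContinuousOn (VV L) (Ioo (-1) 1) :=
  continuousOn_param (F := fun s φ => Real.exp (L (s * ee φ)).re /
    (1 + Real.exp (L (s * ee φ)).re) ^ 2 * ‖deriv L (s * ee φ)‖ ^ 2) (continuousOn_w_polar hL)

lemma continuousOn_q_polar {L : ℂ → ℂ} (hL : DifferentiableOn ℂ L (ball 0 1)) :
    ContinuousOn (fun p : ℝ × ℝ => -((p.1 * ee p.2 * deriv L (p.1 * ee p.2)).re /
      (1 + Real.exp (L (p.1 * ee p.2)).re))) (Ioo (-1) 1 ×ˢ univ) := by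
  have hd := (hL.deriv isOpen_ball).continuousOn
  have hN : ContinuousOn (fun z => z * deriv L z) (ball 0 1) := continuousOn_id.mul hd
  have c1 := continuousOn_exp_polar hL.continuousOn
  have c2 := continuousOn_re_polar hN
  apply ContinuousOn.neg
  apply c2.div (continuousOn_const.add c1)
  intro p _
  exact (by positivity : (1 + Real.exp (L (p.1 * ee p.2)).re) ≠ 0)

lemma continuousOn_QQ {L : ℂ → ℂ} (hL : DifferentiableOn ℂ L (ball 0 1)) :
    ContinuousOn (QQ L) (Ioo (-1) 1) :=
  continuousOn_param (F := fun s φ => -((s * ee φ * deriv L (s * ee φ)).re /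
    (1 + Real.exp (L (s * ee φ)).re))) (continuousOn_q_polar hL)

lemma QQ_zero (L : ℂ → ℂ) : QQ L 0 = 0 := by
  simp [QQ]

theorem hasDerivAt_QQ {L : ℂ → ℂ} (hL : DifferentiableOn ℂ L (ball 0 1)) {s : ℝ}
    (hs : s ∈ Ioo (0:ℝ) 1) : HasDerivAt (QQ L) (s * VV L s) s := by
  have hd := (hL.deriv isOpen_ball)
  set N : ℂ → ℂ := fun z => z * deriv L z with hN
  have hNd : DifferentiableOn ℂ N (ball 0 1) := differentiableOn_id.mul hd
  have hMc := (hNd.deriv isOpen_ball).continuousOn
  have cE := continuousOn_exp_polar hL.continuousOn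
  have cN := continuousOn_re_polar hNd.continuousOn
  have hden : ∀ x : ℝ, 1 + Real.exp x ≠ 0 := fun x => by positivity
  have cee : ContinuousOn (fun p : ℝ × ℝ => ee p.2) (Ioo (-1) 1 ×ˢ univ) :=
    (continuous_ee.comp continuous_snd).continuousOn
  -- derivatives
  have dL : ∀ z ∈ ball (0:ℂ) 1, HasDerivAt L (deriv L z) z := fun z hz =>
    (hL.differentiableAt (isOpen_ball.mem_nhds hz)).hasDerivAt
  have dN : ∀ z ∈ ball (0:ℂ) 1, HasDerivAt N (deriv N z) z := fun z hz =>
    (hNd.differentiableAt (isOpen_ball.mem_nhds hz)).hasDerivAt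
  have main := hasDerivAt_param
    (F := fun s φ => -((N (s * ee φ)).re / (1 + Real.exp (L (s * ee φ)).re)))
    (F' := fun s φ => -(((deriv N (s * ee φ) * ee φ).re * (1 + Real.exp (L (s * ee φ)).re)
        - (N (s * ee φ)).re * (Real.exp (L (s * ee φ)).re * (deriv L (s * ee φ) * ee φ).re)) /
        (1 + Real.exp (L (s * ee φ)).re) ^ 2)) (s := s)
    (continuousOn_q_polar hL) ?_ ?_ ⟨by linarith [hs.1], hs.2⟩
  · have hval : (∫ φ in (-Real.pi)..Real.pi,
        -(((deriv N (s * ee φ) * ee φ).re * (1 + Real.exp (L (s * ee φ)).re)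
        - (N (s * ee φ)).re * (Real.exp (L (s * ee φ)).re * (deriv L (s * ee φ) * ee φ).re)) /
        (1 + Real.exp (L (s * ee φ)).re) ^ 2)) = s * VV L s := by
      have hz : ∀ φ, (s:ℂ) * ee φ ∈ ball (0:ℂ) 1 := fun φ =>
        mem_ball_ee (by rw [abs_of_pos hs.1]; exact hs.2) φ
      have hP : ∀ φ, HasDerivAt (fun φ : ℝ => (N (s * ee φ)).im / (1 + Real.exp (L (s * ee φ)).re))
          (((deriv N (s * ee φ) * (s * ee φ * Complex.I)).im * (1 + Real.exp (L (s * ee φ)).re)
            - (N (s * ee φ)).im * (Real.exp (L (s * ee φ)).re *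
              (deriv L (s * ee φ) * (s * ee φ * Complex.I)).re)) /
            (1 + Real.exp (L (s * ee φ)).re) ^ 2) φ := by
        intro φ
        have h1 := hasDerivAt_im (hasDerivAt_phi (dN _ (hz φ)))
        have h2 := ((hasDerivAt_re (hasDerivAt_phi (dL _ (hz φ)))).exp).const_add 1
        exact h1.div h2 (hden _)
      have hslice : ∀ {G : ℝ × ℝ → ℝ}, ContinuousOn G (Ioo (-1) 1 ×ˢ univ) →
          Continuous (fun φ => G (s, φ)) := by
        intro G hG
        exact hG.comp_continuous (by fun_prop) (fun φ => ⟨⟨by linarith [hs.1], hs.2⟩, mem_univ _⟩)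
      have cw := hslice (continuousOn_w_polar hL)
      have cP : Continuous (fun φ => (((deriv N (s * ee φ) * (s * ee φ * Complex.I)).im *
            (1 + Real.exp (L (s * ee φ)).re)
            - (N (s * ee φ)).im * (Real.exp (L (s * ee φ)).re *
              (deriv L (s * ee φ) * (s * ee φ * Complex.I)).re)) /
            (1 + Real.exp (L (s * ee φ)).re) ^ 2)) := by
        have k1 : Continuous (fun φ => deriv N (s * ee φ)) :=
          hMc.comp_continuous (continuous_const.mul continuous_ee) hz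
        have k2 : Continuous (fun φ => N (s * ee φ)) :=
          hNd.continuousOn.comp_continuous (continuous_const.mul continuous_ee) hz
        have k3 : Continuous (fun φ => L (s * ee φ)) :=
          hL.continuousOn.comp_continuous (continuous_const.mul continuous_ee) hz
        have k4 : Continuous (fun φ => deriv L (s * ee φ)) :=
          hd.continuousOn.comp_continuous (continuous_const.mul continuous_ee) hz
        have k5 := continuous_ee
        have k6 : Continuous (fun φ => Real.exp (L (s * ee φ)).re) :=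
          Real.continuous_exp.comp (Complex.continuous_re.comp k3)
        have k7 : Continuous (fun φ => (s:ℂ) * ee φ * Complex.I) :=
          (continuous_const.mul k5).mul continuous_const
        apply Continuous.div
        · apply Continuous.sub
          · exact (Complex.continuous_im.comp (k1.mul k7)).mul (continuous_const.add k6)
          · exact (Complex.continuous_im.comp k2).mul (k6.mul (Complex.continuous_re.comp (k4.mul k7)))
        · exact (continuous_const.add k6).pow 2
        · intro φ; positivity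
      have hPint : ∫ φ in (-Real.pi)..Real.pi,
          (((deriv N (s * ee φ) * (s * ee φ * Complex.I)).im * (1 + Real.exp (L (s * ee φ)).re)
            - (N (s * ee φ)).im * (Real.exp (L (s * ee φ)).re *
              (deriv L (s * ee φ) * (s * ee φ * Complex.I)).re)) /
            (1 + Real.exp (L (s * ee φ)).re) ^ 2) = 0 := by
        rw [integral_eq_sub_of_hasDerivAt (fun φ _ => hP φ) (cP.intervalIntegrable _ _)]
        have : ee Real.pi = ee (-Real.pi) := by
          have := periodic_ee (-Real.pi)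
          rw [← this]; congr 1; ring
        rw [this, sub_self]
      have hcongr : ∀ φ, -(((deriv N (s * ee φ) * ee φ).re * (1 + Real.exp (L (s * ee φ)).re)
          - (N (s * ee φ)).re * (Real.exp (L (s * ee φ)).re * (deriv L (s * ee φ) * ee φ).re)) /
          (1 + Real.exp (L (s * ee φ)).re) ^ 2) =
          s * (Real.exp (L (s * ee φ)).re / (1 + Real.exp (L (s * ee φ)).re) ^ 2 *
            ‖deriv L (s * ee φ)‖ ^ 2) - s⁻¹ *
          (((deriv N (s * ee φ) * (s * ee φ * Complex.I)).im * (1 + Real.exp (L (s * ee φ)).re)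
            - (N (s * ee φ)).im * (Real.exp (L (s * ee φ)).re *
              (deriv L (s * ee φ) * (s * ee φ * Complex.I)).re)) /
            (1 + Real.exp (L (s * ee φ)).re) ^ 2) := by
        intro φ
        have hs0 : s ≠ 0 := hs.1.ne'
        set u := Real.exp (L (s * ee φ)).re with hu
        have hu0 : 0 < u := Real.exp_pos _
        set l := deriv L (s * ee φ) * ee φ with hl
        have hln : ‖deriv L (s * ee φ)‖ ^ 2 = l.re ^ 2 + l.im ^ 2 := by
          have : ‖deriv L (s * ee φ)‖ = ‖l‖ := by rw [hl, norm_mul, norm_ee, mul_one]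
          rw [this, ← Complex.normSq_eq_norm_sq, Complex.normSq_apply]; ring
        have hNl : N (s * ee φ) = s * l := by simp only [hN, hl]; ring
        have hN1 : (N (s * ee φ)).re = s * l.re := by rw [hNl]; simp
        have hN2 : (N (s * ee φ)).im = s * l.im := by rw [hNl]; simp
        set m := deriv N (s * ee φ) * ee φ with hm
        have hm1 : (deriv N (s * ee φ) * (s * ee φ * Complex.I)).im = s * m.re := by
          have : deriv N (s * ee φ) * (s * ee φ * Complex.I) = s * (m * Complex.I) := by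
            rw [hm]; ring
          rw [this]; simp
        have hl1 : (deriv L (s * ee φ) * (s * ee φ * Complex.I)).re = - (s * l.im) := by
          have : deriv L (s * ee φ) * (s * ee φ * Complex.I) = s * (l * Complex.I) := by
            rw [hl]; ring
          rw [this]; simp
        rw [hln, hN1, hN2, hm1, hl1]
        field_simp
        ring
      simp_rw [hcongr]
      rw [intervalIntegral.integral_sub, intervalIntegral.integral_const_mul,
        intervalIntegral.integral_const_mul, hPint, VV]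
      · ring
      · exact (continuous_const.mul cw).intervalIntegrable _ _
      · exact (continuous_const.mul cP).intervalIntegrable _ _
    rw [← hval]
    exact main
  · have k1 := continuousOn_polar hMc
    have k4 := continuousOn_polar hd.continuousOn
    have k5 : ContinuousOn (fun p : ℝ × ℝ => (deriv N (p.1 * ee p.2) * ee p.2).re)
      (Ioo (-1) 1 ×ˢ univ) := Complex.continuous_re.comp_continuousOn (k1.mul cee)
    have k6 : ContinuousOn (fun p : ℝ × ℝ => (deriv L (p.1 * ee p.2) * ee p.2).re)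
      (Ioo (-1) 1 ×ˢ univ) := Complex.continuous_re.comp_continuousOn (k4.mul cee)
    apply ContinuousOn.neg
    apply ContinuousOn.div
    · exact (k5.mul (continuousOn_const.add cE)).sub (cN.mul (cE.mul k6))
    · exact (continuousOn_const.add cE).pow 2
    · intro p _
      have := hden (L (p.1 * ee p.2)).re
      positivity
  · intro x hx φ
    have hz : (x:ℂ) * ee φ ∈ ball (0:ℂ) 1 := mem_ball_ee (abs_lt.mpr ⟨hx.1, hx.2⟩) φ
    have h1 := hasDerivAt_re (hasDerivAt_s (dN _ hz))
    have h2 := ((hasDerivAt_re (hasDerivAt_s (dL _ hz))).exp).const_add 1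
    exact (h1.div h2 (hden _)).neg

end Pool.Agent.Helper88.Gr
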