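import Mathlib

set_option autoImplicit false

open Set MeasureTheory Metric
open scoped ENNReal NNReal

namespace Pool.Agent.Helper88.Gr

/-- multiplication by a complex number as a real-linear map -/
noncomputable def cdm (c : ℂ) : ℂ →L[ℝ] ℂ :=
  (ContinuousLinearMap.toSpanSingleton ℂ c).restrictScalars ℝ

lemma cdm_apply (c z : ℂ) : cdm c z = z * c := by
  simp [cdm]

lemma cdm_det (c : ℂ) : (cdm c).det = ‖c‖ ^ 2 := by
  simp [cdm, ContinuousLinearMap.det, LinearMap.det_restrictScalars, Algebra.norm_complex_eq,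
    Complex.normSq_eq_norm_sq]

lemma hasFDerivAt_cdm {F : ℂ → ℂ} {F' z : ℂ} (h : HasDerivAt F F' z) :
    HasFDerivAt F (cdm F') z := h.hasFDerivAt.restrictScalars ℝ

/-- Area formula with multiplicity, for holomorphic functions on the unit disc. -/
theorem area_formula {F : ℂ → ℂ} (hF : DifferentiableOn ℂ F (ball 0 1)) :
    ∃ m : ℂ → ℝ≥0∞, Measurable m ∧
      (∀ w, m w ≤ ENat.toENNReal (Set.encard {z : ℂ | z ∈ ball (0 : ℂ) 1 ∧ F z = w})) ∧
      ∀ g : ℂ → ℝ≥0∞, Measurable g →
        ∫⁻ z in ball (0:ℂ) 1, ENNReal.ofReal (‖deriv F z‖ ^ 2) * g (F z) = ∫⁻ w, g w * m w := by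
  classical
  set s : Set ℂ := {z | z ∈ ball (0:ℂ) 1 ∧ deriv F z ≠ 0} with hs
  have hsm : MeasurableSet s :=
    measurableSet_ball.inter ((measurable_deriv F) (measurableSet_singleton 0).compl)
  have hder : ∀ z ∈ ball (0:ℂ) 1, HasDerivAt F (deriv F z) z := fun z hz =>
    (hF.differentiableAt (isOpen_ball.mem_nhds hz)).hasDerivAt
  obtain ⟨t, A, hdis, htm, hst, hap, hA⟩ :=
    exists_partition_approximatesLinearOn_of_hasFDerivWithinAt F s (fun z => cdm (deriv F z))
      (fun z hz => (hasFDerivAt_cdm (hder z hz.1)).hasFDerivWithinAt)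
      (fun A => if ‖A 1‖₊ = 0 then 1 else ‖A 1‖₊ / 2)
      (fun A => by
        split_ifs with h
        · exact one_ne_zero
        · exact (div_ne_zero h two_ne_zero))
  set E : ℕ → Set ℂ := fun n => s ∩ t n with hE
  have hEm : ∀ n, MeasurableSet (E n) := fun n => hsm.inter (htm n)
  have hEs : ∀ n, E n ⊆ s := fun n => inter_subset_left
  have hinj : ∀ n, InjOn F (E n) := by
    intro n x hx y hy hxy
    obtain ⟨z, hz, hAz⟩ := hA ⟨x, hx.1⟩ n
    have hc : A n 1 = deriv F z := by rw [hAz, cdm_apply, one_mul]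
    have hne : ‖A n 1‖₊ ≠ 0 := by rw [hc]; simpa using hz.2
    have h1 := hap n x hx y hy
    rw [if_neg hne, hxy, sub_self, zero_sub, norm_neg, hAz, cdm_apply, norm_mul] at h1
    rw [← hAz, hc] at h1
    have h2 : 0 < ‖deriv F z‖ := norm_pos_iff.mpr hz.2
    have h3 : ((‖deriv F z‖₊ / 2 : ℝ≥0) : ℝ) = ‖deriv F z‖ / 2 := by push_cast; rfl
    rw [h3] at h1
    have h4 : ‖x - y‖ = 0 := by
      have := norm_nonneg (x - y)
      nlinarith
    exact sub_eq_zero.mp (norm_eq_zero.mp h4)
  have hEd : Pairwise (Function.onFun Disjoint E) := by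
    intro i j hij
    exact (hdis hij).mono inter_subset_right inter_subset_right
  have hEU : ⋃ n, E n = s := by
    rw [hE, ← inter_iUnion]
    exact inter_eq_left.mpr hst
  have hFd : ∀ n, ∀ x ∈ E n, HasFDerivWithinAt F (cdm (deriv F x)) (E n) x := fun n x hx =>
    (hasFDerivAt_cdm (hder x (hEs n hx).1)).hasFDerivWithinAt
  have him : ∀ n, MeasurableSet (F '' E n) := fun n =>
    measurable_image_of_fderivWithin (hEm n) (hFd n) (hinj n)
  refine ⟨fun w => ∑' n, (F '' E n).indicator (fun _ => (1:ℝ≥0∞)) w, ?_, ?_, ?_⟩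
  · exact Measurable.tsum fun n => measurable_const.indicator (him n)
  · intro w
    change ∑' n, (F '' E n).indicator (fun _ => (1:ℝ≥0∞)) w ≤ _
    rw [ENNReal.tsum_eq_iSup_sum]
    apply iSup_le
    intro S
    have h1 : ∑ n ∈ S, (F '' E n).indicator (fun _ => (1:ℝ≥0∞)) w =
        (S.filter (fun n => w ∈ F '' E n)).card := by
      rw [Finset.card_filter]
      push_cast
      apply Finset.sum_congr rfl
      intro n _
      by_cases h : w ∈ F '' E n <;> simp [h]
    rw [h1]
    have h2 : ((S.filter (fun n => w ∈ F '' E n) : Finset ℕ) : Set ℕ).encard ≤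
        Set.encard {z : ℂ | z ∈ ball (0 : ℂ) 1 ∧ F z = w} := by
      have hex : ∀ n, w ∈ F '' E n → ∃ z, z ∈ E n ∧ F z = w := fun n hn => by
        obtain ⟨z, hz⟩ := hn
        exact ⟨z, hz⟩
      set c : ℕ → ℂ := fun n => if h : w ∈ F '' E n then (hex n h).choose else 0 with hc
      have hcn : ∀ n, w ∈ F '' E n → c n ∈ E n ∧ F (c n) = w := by
        intro n hn
        simp only [hc, dif_pos hn]
        exact (hex n hn).choose_spec
      apply Set.encard_le_encard_of_injOn (f := c)
      · intro n hn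
        have hn' : w ∈ F '' E n := by
          have : n ∈ S.filter (fun n => w ∈ F '' E n) := hn
          exact (Finset.mem_filter.mp this).2
        exact ⟨(hEs n (hcn n hn').1).1, (hcn n hn').2⟩
      · intro i hi j hj hij
        have hi' : w ∈ F '' E i := by
          have : i ∈ S.filter (fun n => w ∈ F '' E n) := hi
          exact (Finset.mem_filter.mp this).2
        have hj' : w ∈ F '' E j := by
          have : j ∈ S.filter (fun n => w ∈ F '' E n) := hj
          exact (Finset.mem_filter.mp this).2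
        by_contra hne
        have h3 := hEd hne
        have h4 : c i ∈ E i := (hcn i hi').1
        have h5 : c i ∈ E j := by rw [hij]; exact (hcn j hj').1
        exact Set.disjoint_left.mp h3 h4 h5
    rw [Set.encard_coe_eq_coe_finsetCard] at h2
    calc ((S.filter (fun n => w ∈ F '' E n)).card : ℝ≥0∞)
        = ENat.toENNReal ((S.filter (fun n => w ∈ F '' E n)).card : ℕ∞) := by simp
      _ ≤ _ := by exact_mod_cast h2
  · intro g hg
    have e1 : ∫⁻ z in ball (0:ℂ) 1, ENNReal.ofReal (‖deriv F z‖ ^ 2) * g (F z) =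
        ∫⁻ z in s, ENNReal.ofReal (‖deriv F z‖ ^ 2) * g (F z) := by
      rw [← lintegral_indicator measurableSet_ball, ← lintegral_indicator hsm]
      congr 1
      ext z
      by_cases hz : z ∈ ball (0:ℂ) 1
      · by_cases hd : deriv F z = 0
        · have : z ∉ s := fun h => h.2 hd
          simp [hz, this, hd]
        · have : z ∈ s := ⟨hz, hd⟩
          simp [hz, this]
      · have : z ∉ s := fun h => hz h.1
        simp [hz, this]
    rw [e1, ← hEU, lintegral_iUnion hEm hEd]
    have e2 : ∀ n, ∫⁻ z in E n, ENNReal.ofReal (‖deriv F z‖ ^ 2) * g (F z) =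
        ∫⁻ w, g w * (F '' E n).indicator (fun _ => (1:ℝ≥0∞)) w := by
      intro n
      have := lintegral_image_eq_lintegral_abs_det_fderiv_mul volume (hEm n) (hFd n) (hinj n) g
      simp only [cdm_det] at this
      have h3 : ∀ z : ℂ, |‖deriv F z‖ ^ 2| = ‖deriv F z‖ ^ 2 := fun z => abs_of_nonneg (sq_nonneg _)
      simp only [h3] at this
      rw [← this, ← lintegral_indicator (him n)]
      congr 1
      ext w
      by_cases hw : w ∈ F '' E n <;> simp [hw]
    simp_rw [e2]
    rw [← lintegral_tsum]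
    · congr 1
      ext w
      rw [ENNReal.tsum_mul_left]
    · intro n
      exact (hg.mul (measurable_const.indicator (him n))).aemeasurable

/-- the radial weight -/
noncomputable def kw (ρ : ℝ) (w : ℂ) : ℝ := ρ / (‖w‖ * (ρ + ‖w‖) ^ 2)

lemma kw_nonneg {ρ : ℝ} (hρ : 0 < ρ) (w : ℂ) : 0 ≤ kw ρ w := by
  unfold kw; positivity

lemma measurable_kw (ρ : ℝ) : Measurable (kw ρ) := by
  unfold kw; fun_prop

/-- superlevel sets of the weight are punctured discs -/
lemma kw_superlevel {ρ t : ℝ} (hρ : 0 < ρ) (ht : 0 < t) :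
    ∃ R : ℝ, 0 < R ∧ {w : ℂ | t < kw ρ w} = ball 0 R \ {0} := by
  have hcont : ContinuousOn (fun x : ℝ => x * (ρ + x) ^ 2) (Icc 0 (1 + 1 / (ρ * t) )) := by fun_prop
  have hval : ρ / t ∈ Icc ((fun x : ℝ => x * (ρ + x) ^ 2) 0)
      ((fun x : ℝ => x * (ρ + x) ^ 2) (1 + 1 / (ρ * t))) := by
    constructor
    · simp only [zero_mul]; positivity
    · simp only
      have h1 : ρ / t = 1 / (ρ * t) * ρ ^ 2 := by field_simp
      rw [h1]
      have h2 : 0 < 1 / (ρ * t) := by positivity
      apply mul_le_mul (by linarith) _ (by positivity) (by positivity)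
      apply pow_le_pow_left₀ hρ.le
      linarith
  obtain ⟨R, hR, hRv⟩ := intermediate_value_Icc (by positivity) hcont hval
  simp only at hRv
  have hR0 : 0 < R := by
    rcases hR.1.eq_or_lt with h | h
    · rw [← h, zero_mul] at hRv
      have : 0 < ρ / t := by positivity
      linarith
    · exact h
  refine ⟨R, hR0, ?_⟩
  have hmono : StrictMonoOn (fun x : ℝ => x * (ρ + x) ^ 2) (Ici 0) := by
    intro x hx y hy hxy
    simp only
    have hx' : 0 ≤ x := hx
    have hy' : 0 ≤ y := hy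
    have : (ρ + x) ^ 2 < (ρ + y) ^ 2 := pow_lt_pow_left₀ (by linarith) (by linarith) (by norm_num)
    have h2 : 0 < (ρ + y) ^ 2 := by positivity
    nlinarith [sq_nonneg (ρ + x)]
  ext w
  simp only [mem_ofPred_eq, mem_sdiff, mem_ball, dist_zero_right, mem_singleton_iff]
  constructor
  · intro h
    have hw : w ≠ 0 := by
      rintro rfl
      simp only [kw, norm_zero, zero_mul, div_zero] at h
      linarith
    refine ⟨?_, hw⟩
    have hw0 : 0 < ‖w‖ := norm_pos_iff.mpr hw
    have h1 : ‖w‖ * (ρ + ‖w‖) ^ 2 < R * (ρ + R) ^ 2 := by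
      rw [hRv, lt_div_iff₀ ht]
      rw [kw, lt_div_iff₀ (by positivity)] at h
      linarith
    exact (hmono.lt_iff_lt (norm_nonneg w) hR0.le).mp h1
  · rintro ⟨h, hw⟩
    have hw0 : 0 < ‖w‖ := norm_pos_iff.mpr hw
    have h1 : ‖w‖ * (ρ + ‖w‖) ^ 2 < R * (ρ + R) ^ 2 := hmono (norm_nonneg w) hR0.le h
    rw [hRv, lt_div_iff₀ ht] at h1
    rw [kw, lt_div_iff₀ (by positivity)]
    linarith

lemma radial_compare {ρ : ℝ} (hρ : 0 < ρ) {m : ℂ → ℝ≥0∞} (hm : Measurable m)
    (h : ∀ R : ℝ, 0 < R → ∫⁻ w in ball (0:ℂ) R, m w ≤ ENNReal.ofReal (Real.pi * R ^ 2)) :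
    ∫⁻ w, ENNReal.ofReal (kw ρ w) * m w ≤ ∫⁻ w, ENNReal.ofReal (kw ρ w) := by
  have e1 : ∫⁻ w, ENNReal.ofReal (kw ρ w) * m w =
      ∫⁻ w, ENNReal.ofReal (kw ρ w) ∂(volume.withDensity m) := by
    rw [lintegral_withDensity_eq_lintegral_mul volume hm (measurable_kw ρ).ennreal_ofReal]
    congr 1
    ext w
    rw [Pi.mul_apply, mul_comm]
  rw [e1, lintegral_eq_lintegral_meas_lt _ (Filter.Eventually.of_forall (kw_nonneg hρ))
      (measurable_kw ρ).aemeasurable,
    lintegral_eq_lintegral_meas_lt volume (Filter.Eventually.of_forall (kw_nonneg hρ))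
      (measurable_kw ρ).aemeasurable]
  apply setLIntegral_mono' measurableSet_Ioi
  intro t ht
  obtain ⟨R, hR, hset⟩ := kw_superlevel hρ (mem_Ioi.mp ht)
  rw [hset, withDensity_apply m (measurableSet_ball.diff (measurableSet_singleton 0))]
  calc ∫⁻ w in ball (0:ℂ) R \ {0}, m w ≤ ∫⁻ w in ball (0:ℂ) R, m w :=
        lintegral_mono_set sdiff_subset
    _ ≤ ENNReal.ofReal (Real.pi * R ^ 2) := h R hR
    _ = volume (ball (0:ℂ) R) := by
        rw [Complex.volume_ball, mul_comm Real.pi, ENNReal.ofReal_mul (by positivity),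
          ENNReal.ofReal_pow hR.le, ← NNReal.coe_real_pi, ENNReal.ofReal_coe_nnreal]
    _ = volume (ball (0:ℂ) R \ {0}) := by
        rw [measure_sdiff_null]
        simp

lemma radial_total {ρ : ℝ} (hρ : 0 < ρ) :
    ∫⁻ w : ℂ, ENNReal.ofReal (kw ρ w) ≤ ENNReal.ofReal (2 * Real.pi) := by
  rw [← Complex.lintegral_comp_polarCoord_symm]
  have e1 : ∫⁻ p in polarCoord.target, ENNReal.ofReal p.1 •
      ENNReal.ofReal (kw ρ (Complex.polarCoord.symm p)) =
      ∫⁻ p in Ioi (0:ℝ) ×ˢ Ioo (-Real.pi) Real.pi, ENNReal.ofReal (ρ / (ρ + p.1) ^ 2) := by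
    rw [polarCoord_target]
    apply setLIntegral_congr_fun (measurableSet_Ioi.prod measurableSet_Ioo)
    intro p hp
    have hp1 : 0 < p.1 := hp.1
    simp only [smul_eq_mul]
    rw [← ENNReal.ofReal_mul hp1.le, kw, Complex.norm_polarCoord_symm, abs_of_pos hp1]
    congr 1
    field_simp
  rw [e1, Measure.volume_eq_prod, setLIntegral_prod]
  · simp only [lintegral_const, Measure.restrict_apply MeasurableSet.univ, univ_inter,
      Real.volume_Ioo]
    rw [lintegral_mul_const]
    · have hderiv : ∀ x ∈ Ici (0:ℝ), HasDerivAt (fun x => -(ρ / (ρ + x))) (ρ / (ρ + x) ^ 2) x := by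
        intro x hx
        have hx' : 0 ≤ x := hx
        have hne : ρ + x ≠ 0 := by positivity
        have h1 : HasDerivAt (fun x : ℝ => ρ + x) 1 x := (hasDerivAt_id x).const_add ρ
        have h2 := (hasDerivAt_const x ρ).div h1 hne
        exact h2.neg.congr_deriv (by simp only [zero_mul, mul_one]; ring)
      have hpos : ∀ x ∈ Ioi (0:ℝ), 0 ≤ ρ / (ρ + x) ^ 2 := fun x hx => by positivity
      have hlim : Filter.Tendsto (fun x : ℝ => -(ρ / (ρ + x))) Filter.atTop (nhds 0) := by
        rw [show (0:ℝ) = -0 by simp]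
        apply Filter.Tendsto.neg
        apply Filter.Tendsto.div_atTop tendsto_const_nhds
        exact Filter.tendsto_atTop_add_const_left _ _ Filter.tendsto_id
      have hint := integrableOn_Ioi_deriv_of_nonneg' hderiv hpos hlim
      have hval := integral_Ioi_of_hasDerivAt_of_nonneg' hderiv hpos hlim
      rw [← ofReal_integral_eq_lintegral_ofReal hint, hval]
      · rw [← ENNReal.ofReal_mul (by simp [hρ.ne'])]
        apply ENNReal.ofReal_le_ofReal
        apply le_of_eq
        rw [add_zero, div_self hρ.ne']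
        ring
      · rw [Filter.EventuallyLE, ae_restrict_iff' measurableSet_Ioi]
        exact Filter.Eventually.of_forall hpos
    · fun_prop
  · fun_prop

/-- The spherical area of a function satisfying the mean-univalence condition. -/
theorem area_bound {F : ℂ → ℂ} (hF : DifferentiableOn ℂ F (ball 0 1)) {ρ : ℝ} (hρ : 0 < ρ)
    (h : ∀ R : ℝ, 0 < R → (∫⁻ w in ball (0:ℂ) R,
      ENat.toENNReal (Set.encard {z : ℂ | z ∈ ball (0 : ℂ) 1 ∧ F z = w})) ≤
        ENNReal.ofReal (Real.pi * R ^ 2)) :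
    ∫⁻ z in ball (0:ℂ) 1, ENNReal.ofReal (‖deriv F z‖ ^ 2 * kw ρ (F z)) ≤
      ENNReal.ofReal (2 * Real.pi) := by
  obtain ⟨m, hm, hle, hform⟩ := area_formula hF
  have e1 : ∫⁻ z in ball (0:ℂ) 1, ENNReal.ofReal (‖deriv F z‖ ^ 2 * kw ρ (F z)) =
      ∫⁻ w, ENNReal.ofReal (kw ρ w) * m w := by
    rw [← hform (fun w => ENNReal.ofReal (kw ρ w)) (measurable_kw ρ).ennreal_ofReal]
    congr 1
    ext z
    rw [ENNReal.ofReal_mul (sq_nonneg _)]
  rw [e1]
  refine (radial_compare hρ hm ?_).trans (radial_total hρ)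
  intro R hR
  exact (lintegral_mono fun w => hle w).trans (h R hR)

end Pool.Agent.Helper88.Gr
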