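import Pool.Agent.Helper88.GrArea

set_option autoImplicit false

open Set MeasureTheory Metric intervalIntegral

namespace Pool.Agent.Helper88.Gr

/-- the area density -/
noncomputable def wd (L : ℂ → ℂ) (z : ℂ) : ℝ :=
  Real.exp (L z).re / (1 + Real.exp (L z).re) ^ 2 * ‖deriv L z‖ ^ 2

lemma wd_nonneg (L : ℂ → ℂ) (z : ℂ) : 0 ≤ wd L z := by
  unfold wd; positivity

lemma VV_nonneg (L : ℂ → ℂ) (s : ℝ) : 0 ≤ VV L s := by
  unfold VV
  apply intervalIntegral.integral_nonneg (by linarith [Real.pi_pos])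
  intro φ _
  positivity

lemma QQ_eq {L : ℂ → ℂ} (hL : DifferentiableOn ℂ L (ball 0 1)) {s : ℝ}
    (hs : s ∈ Ioo (0:ℝ) 1) : QQ L s = ∫ t in (0:ℝ)..s, t * VV L t := by
  have hc : ContinuousOn (fun t => t * VV L t) (Icc 0 s) :=
    continuousOn_id.mul ((continuousOn_VV hL).mono (fun t ht => ⟨by linarith [ht.1], by linarith [ht.2, hs.2]⟩))
  have := integral_eq_sub_of_hasDerivAt_of_le (f := QQ L) (f' := fun t => t * VV L t) hs.1.le
    ((continuousOn_QQ hL).mono (fun t ht => ⟨by linarith [ht.1], by linarith [ht.2, hs.2]⟩))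
    (fun t ht => hasDerivAt_QQ hL ⟨ht.1, ht.2.trans hs.2⟩)
    (hc.intervalIntegrable_of_Icc hs.1.le)
  rw [this, QQ_zero, sub_zero]

lemma QQ_nonneg {L : ℂ → ℂ} (hL : DifferentiableOn ℂ L (ball 0 1)) {s : ℝ}
    (hs : s ∈ Ioo (0:ℝ) 1) : 0 ≤ QQ L s := by
  rw [QQ_eq hL hs]
  apply intervalIntegral.integral_nonneg hs.1.le
  intro t ht
  exact mul_nonneg ht.1 (VV_nonneg L t)

/-- polar coordinates: the area integral controls `QQ` -/
lemma QQ_le_area {L : ℂ → ℂ} (hL : DifferentiableOn ℂ L (ball 0 1)) {s : ℝ}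
    (hs : s ∈ Ioo (0:ℝ) 1) :
    ENNReal.ofReal (QQ L s) ≤ ∫⁻ z in ball (0:ℂ) 1, ENNReal.ofReal (wd L z) := by
  have hpi : -Real.pi ≤ Real.pi := by linarith [Real.pi_pos]
  rw [QQ_eq hL hs]
  have hsub : Ioc 0 s ×ˢ Ioo (-Real.pi) Real.pi ⊆ polarCoord.target := by
    rw [polarCoord_target]
    intro p hp
    exact ⟨hp.1.1, hp.2⟩
  rw [← lintegral_indicator measurableSet_ball, ← Complex.lintegral_comp_polarCoord_symm]
  refine le_trans ?_ (lintegral_mono_set hsub)
  have hcont : ContinuousOn (fun p : ℝ × ℝ => p.1 * wd L (p.1 * ee p.2)) (Ioo (-1) 1 ×ˢ univ) :=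
    continuous_fst.continuousOn.mul (continuousOn_w_polar hL)
  have hsub2 : Ioc 0 s ×ˢ Ioo (-Real.pi) Real.pi ⊆ Ioo (-1) 1 ×ˢ univ := by
    intro p hp
    exact ⟨⟨by linarith [hp.1.1], by linarith [hp.1.2, hs.2]⟩, mem_univ _⟩
  have hmeas : MeasurableSet (Ioc 0 s ×ˢ Ioo (-Real.pi) Real.pi) :=
    measurableSet_Ioc.prod measurableSet_Ioo
  have e1 : ∫⁻ p in Ioc 0 s ×ˢ Ioo (-Real.pi) Real.pi, ENNReal.ofReal p.1 •
      (ball (0:ℂ) 1).indicator (fun z => ENNReal.ofReal (wd L z)) (Complex.polarCoord.symm p)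
      = ∫⁻ p in Ioc 0 s ×ˢ Ioo (-Real.pi) Real.pi, ENNReal.ofReal (p.1 * wd L (p.1 * ee p.2)) := by
    apply setLIntegral_congr_fun hmeas
    intro p hp
    have h1 : Complex.polarCoord.symm p = p.1 * ee p.2 := by
      rw [Complex.polarCoord_symm_apply, ee, Complex.exp_mul_I]
      push_cast; rfl
    have h2 : Complex.polarCoord.symm p ∈ ball (0:ℂ) 1 := by
      rw [h1]
      exact mem_ball_ee (abs_lt.mpr ⟨(hsub2 hp).1.1, (hsub2 hp).1.2⟩) _
    simp only [indicator_of_mem h2, smul_eq_mul]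
    rw [h1, ENNReal.ofReal_mul hp.1.1.le]
  rw [e1, Measure.volume_eq_prod, setLIntegral_prod]
  · have e2 : ∀ t ∈ Ioc 0 s, ∫⁻ φ in Ioo (-Real.pi) Real.pi, ENNReal.ofReal (t * wd L (t * ee φ))
        = ENNReal.ofReal (t * VV L t) := by
      intro t ht
      have hcs : Continuous (fun φ => t * wd L (t * ee φ)) :=
        hcont.comp_continuous (f := fun φ : ℝ => (t, φ)) (by fun_prop)
          (fun φ => ⟨⟨by linarith [ht.1], by linarith [ht.2, hs.2]⟩, mem_univ _⟩)
      rw [← ofReal_integral_eq_lintegral_ofReal]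
      · rw [VV, ← intervalIntegral.integral_const_mul, integral_of_le hpi,
          integral_Ioc_eq_integral_Ioo]
        rfl
      · exact (hcs.integrableOn_Icc (a := -Real.pi) (b := Real.pi)).mono_set Ioo_subset_Icc_self
      · exact Filter.Eventually.of_forall fun φ => mul_nonneg ht.1.le (wd_nonneg _ _)
    rw [setLIntegral_congr_fun measurableSet_Ioc e2, integral_of_le hs.1.le,
      ofReal_integral_eq_lintegral_ofReal]
    · have hc : ContinuousOn (fun t => t * VV L t) (Icc 0 s) :=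
        continuousOn_id.mul ((continuousOn_VV hL).mono
          (fun t ht => ⟨by linarith [ht.1], by linarith [ht.2, hs.2]⟩))
      exact (hc.integrableOn_Icc).mono_set Ioc_subset_Icc_self
    · rw [Filter.EventuallyLE, ae_restrict_iff' measurableSet_Ioc]
      exact Filter.Eventually.of_forall fun t ht => mul_nonneg ht.1.le (VV_nonneg L t)
  · rw [← Measure.volume_eq_prod]
    exact ((hcont.mono hsub2).aemeasurable hmeas).ennreal_ofReal

/-- Cauchy-Schwarz for the length integral -/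
lemma sq_integral_le {f : ℝ → ℝ} (hf : Continuous f) {a b : ℝ} (hab : a < b) :
    (∫ t in a..b, f t) ^ 2 ≤ (b - a) * ∫ t in a..b, f t ^ 2 := by
  set I := ∫ t in a..b, f t with hI
  set c := I / (b - a) with hc
  have hba : 0 < b - a := by linarith
  have h0 : 0 ≤ ∫ t in a..b, (f t - c) ^ 2 :=
    intervalIntegral.integral_nonneg hab.le (fun t _ => sq_nonneg _)
  have h1 : ∫ t in a..b, (f t - c) ^ 2 = (∫ t in a..b, f t ^ 2) - 2 * c * I + c ^ 2 * (b - a) := by
    have c1 : Continuous (fun t => f t ^ 2) := hf.pow 2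
    have c2 : Continuous (fun t => 2 * c * f t) := continuous_const.mul hf
    have c3 : Continuous (fun t => f t ^ 2 - 2 * c * f t) := c1.sub c2
    have : ∀ t, (f t - c) ^ 2 = (f t ^ 2 - 2 * c * f t) + c ^ 2 := fun t => by ring
    simp_rw [this]
    rw [intervalIntegral.integral_add (c3.intervalIntegrable _ _) (intervalIntegrable_const),
      intervalIntegral.integral_sub (c1.intervalIntegrable _ _) (c2.intervalIntegrable _ _),
      intervalIntegral.integral_const_mul, intervalIntegral.integral_const, smul_eq_mul]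
    ring
  rw [h1] at h0
  have h2 : c * (b - a) = I := by rw [hc]; field_simp
  have h3 : (∫ t in a..b, f t ^ 2) - 2 * c * I + c ^ 2 * (b - a) = (∫ t in a..b, f t ^ 2) - c * I := by
    have : c ^ 2 * (b - a) = c * I := by rw [← h2]; ring
    rw [this]; ring
  rw [h3] at h0
  have h4 : (b - a) * (c * I) = I ^ 2 := by
    calc (b - a) * (c * I) = (c * (b - a)) * I := by ring
      _ = I ^ 2 := by rw [h2]; ring
  nlinarith

/-- the differential inequality -/
lemma QQ_iso {L : ℂ → ℂ} (hL : DifferentiableOn ℂ L (ball 0 1)) {s : ℝ}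
    (hs : s ∈ Ioo (0:ℝ) 1) : QQ L s * (4 * Real.pi - QQ L s) ≤ 2 * Real.pi * (s ^ 2 * VV L s) := by
  have hd := (hL.deriv isOpen_ball)
  have hz : ∀ φ, (s:ℂ) * ee φ ∈ ball (0:ℂ) 1 := fun φ =>
    mem_ball_ee (by rw [abs_of_pos hs.1]; exact hs.2) φ
  have dL : ∀ z ∈ ball (0:ℂ) 1, HasDerivAt L (deriv L z) z := fun z hz =>
    (hL.differentiableAt (isOpen_ball.mem_nhds hz)).hasDerivAt
  have k4 : Continuous (fun φ => deriv L (s * ee φ)) :=
    hd.continuousOn.comp_continuous (continuous_const.mul continuous_ee) hz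
  have k3 : Continuous (fun φ => L (s * ee φ)) :=
    hL.continuousOn.comp_continuous (continuous_const.mul continuous_ee) hz
  have k7 : Continuous (fun φ => (s:ℂ) * ee φ * Complex.I) :=
    (continuous_const.mul continuous_ee).mul continuous_const
  have pe := periodic_ee
  have h := iso (X := fun φ => (L (s * ee φ)).re) (Y := fun φ => (L (s * ee φ)).im)
    (X' := fun φ => (deriv L (s * ee φ) * (s * ee φ * Complex.I)).re)
    (Y' := fun φ => (deriv L (s * ee φ) * (s * ee φ * Complex.I)).im)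
    (fun φ => hasDerivAt_re (hasDerivAt_phi (dL _ (hz φ))))
    (fun φ => hasDerivAt_im (hasDerivAt_phi (dL _ (hz φ))))
    (Complex.continuous_re.comp (k4.mul k7)) (Complex.continuous_im.comp (k4.mul k7))
    (fun φ => by simp only [pe φ]) (fun φ => by simp only [pe φ])
    (fun φ => by simp only [pe φ]) (fun φ => by simp only [pe φ]) (-Real.pi)
  rw [show -Real.pi + 2 * Real.pi = Real.pi by ring] at h
  have hA : (- ∫ φ in (-Real.pi)..Real.pi, (deriv L (s * ee φ) * (s * ee φ * Complex.I)).im /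
      (1 + Real.exp (L (s * ee φ)).re)) = QQ L s := by
    rw [QQ, ← intervalIntegral.integral_neg]
    apply intervalIntegral.integral_congr
    intro φ _
    have : deriv L (s * ee φ) * (s * ee φ * Complex.I) = (s * ee φ * deriv L (s * ee φ)) * Complex.I := by ring
    simp only [this, Complex.mul_I_im]
  rw [hA] at h
  refine h.trans ?_
  have hcl : Continuous (fun φ => √(Real.exp (L (s * ee φ)).re / (1 + Real.exp (L (s * ee φ)).re) ^ 2 *
      ((deriv L (s * ee φ) * (s * ee φ * Complex.I)).re ^ 2 +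
        (deriv L (s * ee φ) * (s * ee φ * Complex.I)).im ^ 2))) := by
    have k6 : Continuous (fun φ => Real.exp (L (s * ee φ)).re) :=
      Real.continuous_exp.comp (Complex.continuous_re.comp k3)
    apply Real.continuous_sqrt.comp
    apply Continuous.mul
    · apply k6.div ((continuous_const.add k6).pow 2)
      intro φ
      exact (by positivity : (1 + Real.exp (L (s * ee φ)).re) ^ 2 ≠ 0)
    · exact ((Complex.continuous_re.comp (k4.mul k7)).pow 2).add
        ((Complex.continuous_im.comp (k4.mul k7)).pow 2)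
  refine (sq_integral_le hcl (by linarith [Real.pi_pos])).trans (le_of_eq ?_)
  rw [show Real.pi - -Real.pi = 2 * Real.pi by ring, VV, ← intervalIntegral.integral_const_mul (s ^ 2)]
  congr 1
  apply intervalIntegral.integral_congr
  intro φ _
  simp only
  rw [Real.sq_sqrt (by positivity)]
  have : (deriv L (s * ee φ) * (s * ee φ * Complex.I)).re ^ 2 +
        (deriv L (s * ee φ) * (s * ee φ * Complex.I)).im ^ 2 = s ^ 2 * ‖deriv L (s * ee φ)‖ ^ 2 := by
    have h1 : (deriv L (s * ee φ) * (s * ee φ * Complex.I)).re ^ 2 +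
        (deriv L (s * ee φ) * (s * ee φ * Complex.I)).im ^ 2 =
        ‖deriv L (s * ee φ) * (s * ee φ * Complex.I)‖ ^ 2 := by
      rw [← Complex.normSq_eq_norm_sq, Complex.normSq_apply]; ring
    rw [h1, norm_mul, norm_mul, norm_mul, norm_ee, Complex.norm_I, Complex.norm_real, mul_one, mul_one,
      mul_pow, Real.norm_eq_abs, sq_abs]
    ring
  rw [this]
  ring

lemma QQ_le_sq {L : ℂ → ℂ} (hL : DifferentiableOn ℂ L (ball 0 1))
    (hA : ∀ s ∈ Ioo (0:ℝ) 1, QQ L s ≤ 2 * Real.pi) {s : ℝ} (hs : s ∈ Ioo (0:ℝ) 1) :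
    QQ L s ≤ (4 * Real.pi - QQ L s) * s ^ 2 := by
  have hpi := Real.pi_pos
  -- monotonicity
  set h : ℝ → ℝ := fun s => QQ L s / ((4 * Real.pi - QQ L s) * s ^ 2) with hh
  have hden : ∀ s ∈ Ioo (0:ℝ) 1, 0 < (4 * Real.pi - QQ L s) * s ^ 2 := fun s hs =>
    mul_pos (by linarith [hA s hs]) (pow_pos hs.1 2)
  have hder : ∀ s ∈ Ioo (0:ℝ) 1, HasDerivAt h (((s * VV L s) * ((4 * Real.pi - QQ L s) * s ^ 2) -
      QQ L s * ((-(s * VV L s)) * s ^ 2 + (4 * Real.pi - QQ L s) * (2 * s))) /
      ((4 * Real.pi - QQ L s) * s ^ 2) ^ 2) s := by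
    intro s hs
    have h1 := hasDerivAt_QQ hL hs
    have h2 : HasDerivAt (fun s => (4 * Real.pi - QQ L s) * s ^ 2)
        ((-(s * VV L s)) * s ^ 2 + (4 * Real.pi - QQ L s) * (2 * s)) s := by
      have h3 := (h1.const_sub (4 * Real.pi)).mul (hasDerivAt_pow 2 s)
      exact h3.congr_deriv (by norm_num)
    exact h1.div h2 (hden s hs).ne'
  have hmono : MonotoneOn h (Ioo 0 1) := by
    apply monotoneOn_of_deriv_nonneg (convex_Ioo 0 1)
    · exact fun x hx => (hder x hx).continuousAt.continuousWithinAt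
    · rw [interior_Ioo]
      exact fun x hx => (hder x hx).differentiableAt.differentiableWithinAt
    · rw [interior_Ioo]
      intro x hx
      rw [(hder x hx).deriv]
      apply div_nonneg _ (sq_nonneg _)
      have h4 := QQ_iso hL hx
      have h5 : (x * VV L x) * ((4 * Real.pi - QQ L x) * x ^ 2) -
        QQ L x * ((-(x * VV L x)) * x ^ 2 + (4 * Real.pi - QQ L x) * (2 * x)) =
        2 * x * (2 * Real.pi * (x ^ 2 * VV L x) - QQ L x * (4 * Real.pi - QQ L x)) := by ring
      rw [h5]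
      exact mul_nonneg (by linarith [hx.1]) (by linarith)
  have hle : ∀ s' ∈ Ioo s 1, QQ L s * s' ^ 2 ≤ (4 * Real.pi - QQ L s) * s ^ 2 := by
    intro s' hs'
    have hs'' : s' ∈ Ioo (0:ℝ) 1 := ⟨hs.1.trans hs'.1, hs'.2⟩
    have h1 := hmono hs hs'' hs'.1.le
    simp only [hh] at h1
    have h2 : QQ L s' / ((4 * Real.pi - QQ L s') * s' ^ 2) ≤ 1 / s' ^ 2 := by
      rw [div_le_div_iff₀ (hden s' hs'') (pow_pos hs''.1 2), one_mul]
      apply mul_le_mul_of_nonneg_right _ (sq_nonneg _)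
      linarith [hA s' hs'']
    have h3 := h1.trans h2
    rwa [div_le_div_iff₀ (hden s hs) (pow_pos hs''.1 2), one_mul] at h3
  have hlim : Filter.Tendsto (fun s' : ℝ => QQ L s * s' ^ 2) (nhdsWithin 1 (Iio 1))
      (nhds (QQ L s * 1 ^ 2)) := by
    apply Filter.Tendsto.mono_left _ nhdsWithin_le_nhds
    exact (continuous_const.mul (continuous_id.pow 2)).tendsto 1
  have := le_of_tendsto hlim (b := (4 * Real.pi - QQ L s) * s ^ 2)
    (by
      filter_upwards [Ioo_mem_nhdsLT hs.2] with s' hs'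
      exact hle s' hs')
  simpa using this

/-- Dufresnoy's theorem: a map of the disc covering the sphere with total area at most `2π`
(half of the sphere) has spherical derivative at most that of the hemisphere. -/
theorem dufresnoy {L : ℂ → ℂ} (hL : DifferentiableOn ℂ L (ball 0 1)) (h0 : (L 0).re = 0)
    (hA : ∫⁻ z in ball (0:ℂ) 1, ENNReal.ofReal (wd L z) ≤ ENNReal.ofReal (2 * Real.pi)) :
    ‖deriv L 0‖ ≤ 4 := by
  have hpi := Real.pi_pos
  have hA' : ∀ s ∈ Ioo (0:ℝ) 1, QQ L s ≤ 2 * Real.pi := fun s hs =>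
    (ENNReal.ofReal_le_ofReal_iff (by positivity)).mp ((QQ_le_area hL hs).trans hA)
  have hV0 : VV L 0 = Real.pi / 2 * ‖deriv L 0‖ ^ 2 := by
    unfold VV
    simp only [Complex.ofReal_zero, zero_mul, h0, Real.exp_zero, intervalIntegral.integral_const,
      smul_eq_mul]
    ring
  by_contra hcon
  push Not at hcon
  have hV : 8 * Real.pi < VV L 0 := by
    rw [hV0]
    have : 16 < ‖deriv L 0‖ ^ 2 := by nlinarith
    nlinarith
  have hcont : ContinuousAt (VV L) 0 :=
    (continuousOn_VV hL).continuousAt (Ioo_mem_nhds (by norm_num) (by norm_num))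
  have hev : ∀ᶠ t in nhds (0:ℝ), 8 * Real.pi < VV L t := hcont.eventually_const_lt hV
  obtain ⟨ε, hε, hball⟩ := Metric.eventually_nhds_iff.mp hev
  set δ := min (ε / 2) (1 / 2) with hδ
  have hδ0 : 0 < δ := by positivity
  have hδ1 : δ < 1 := lt_of_le_of_lt (min_le_right _ _) (by norm_num)
  have hδε : δ < ε := lt_of_le_of_lt (min_le_left _ _) (by linarith)
  have hs : δ ∈ Ioo (0:ℝ) 1 := ⟨hδ0, hδ1⟩
  have h1 : 4 * Real.pi * δ ^ 2 ≤ QQ L δ := by
    rw [QQ_eq hL hs]
    have : ∫ t in (0:ℝ)..δ, t * (8 * Real.pi) = 4 * Real.pi * δ ^ 2 := by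
      rw [intervalIntegral.integral_mul_const, integral_id]; ring
    rw [← this]
    have hc : ContinuousOn (fun t => t * VV L t) (Icc 0 δ) :=
      continuousOn_id.mul ((continuousOn_VV hL).mono
        (fun t ht => ⟨by linarith [ht.1], by linarith [ht.2, hs.2]⟩))
    apply intervalIntegral.integral_mono_on hδ0.le
    · exact (continuous_id.mul continuous_const).intervalIntegrable _ _
    · exact hc.intervalIntegrable_of_Icc hδ0.le
    · intro t ht
      apply mul_le_mul_of_nonneg_left _ ht.1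
      apply le_of_lt
      apply hball
      rw [Real.dist_eq, sub_zero, abs_of_nonneg ht.1]
      exact lt_of_le_of_lt ht.2 hδε
  have h2 := QQ_le_sq hL hA' hs
  have h3 : 0 < QQ L δ := lt_of_lt_of_le (by positivity) h1
  nlinarith [pow_pos hδ0 2]

end Pool.Agent.Helper88.Gr
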