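import Mathlib

set_option autoImplicit false

open Real Set intervalIntegral MeasureTheory

namespace Pool.Agent.Helper88.Gr

/-- auxiliary: derivative of an arcsine when the cosine is known -/
lemma hasDerivAt_arcsin_of {t : ℝ → ℝ} {t' u c : ℝ} (ht : HasDerivAt t t' u) (hc : 0 < c)
    (h : 1 - t u ^ 2 = c ^ 2) : HasDerivAt (fun u => arcsin (t u)) (t' / c) u := by
  have h1 : t u ≠ -1 := by
    intro h1
    rw [h1] at h
    nlinarith
  have h2 : t u ≠ 1 := by
    intro h1
    rw [h1] at h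
    nlinarith
  have := (Real.hasDerivAt_arcsin h1 h2).comp u ht
  rw [h, Real.sqrt_sq hc.le] at this
  exact this.congr_deriv (by ring)

lemma hasDerivAt_H {p r u S : ℝ} (hp : 0 < p) (hpr : p < r) (hu1 : p ^ 2 < u) (hu2 : u < r ^ 2)
    (hS : 0 < S) (hS2 : S ^ 2 = (1 + p ^ 2) * (1 + r ^ 2)) :
    HasDerivAt (fun u : ℝ =>
      - arcsin ((u - (p ^ 2 + r ^ 2) / 2) / ((r ^ 2 - p ^ 2) / 2))
      - (p * r) * arcsin (((p ^ 2 + r ^ 2) / 2 * u - (p * r) ^ 2) / ((r ^ 2 - p ^ 2) / 2 * u))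
      + S * arcsin ((((p ^ 2 + r ^ 2) / 2 + 1) * (1 + u) - S ^ 2) / ((r ^ 2 - p ^ 2) / 2 * (1 + u))))
      (√((r ^ 2 - u) * (u - p ^ 2)) / (u * (1 + u))) u := by
  have hr : 0 < r := hp.trans hpr
  have hu : 0 < u := lt_trans (by positivity) hu1
  have hk : 0 < (r ^ 2 - p ^ 2) / 2 := by nlinarith
  set R := √((r ^ 2 - u) * (u - p ^ 2)) with hR
  have hRpos : 0 < R := Real.sqrt_pos.mpr (mul_pos (by linarith) (by linarith))
  have hR2 : R ^ 2 = (r ^ 2 - u) * (u - p ^ 2) := Real.sq_sqrt (mul_nonneg (by linarith) (by linarith))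
  set k := (r ^ 2 - p ^ 2) / 2 with hkdef
  have hb : p ^ 2 = r ^ 2 - 2 * k := by rw [hkdef]; ring
  have e1 : HasDerivAt (fun u : ℝ => arcsin ((u - (p ^ 2 + r ^ 2) / 2) / k)) ((1 / k) / (R / k)) u := by
    apply hasDerivAt_arcsin_of
    · exact (((hasDerivAt_id u).sub_const _).div_const _)
    · positivity
    · field_simp
      rw [hR2, hkdef]; ring
  have e2 : HasDerivAt (fun u : ℝ => arcsin (((p ^ 2 + r ^ 2) / 2 * u - (p * r) ^ 2) / (k * u)))
      (((p * r) ^ 2 / (k * u ^ 2)) / (p * r * R / (k * u))) u := by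
    apply hasDerivAt_arcsin_of
    · have h1 : HasDerivAt (fun u : ℝ => (p ^ 2 + r ^ 2) / 2 * u - (p * r) ^ 2) ((p ^ 2 + r ^ 2) / 2) u := by
        simpa using ((hasDerivAt_id u).const_mul ((p ^ 2 + r ^ 2) / 2)).sub_const ((p * r) ^ 2)
      have h2 : HasDerivAt (fun u : ℝ => k * u) k u := by
        simpa using ((hasDerivAt_id u).const_mul k)
      exact (h1.div h2 (by positivity)).congr_deriv (by field_simp; ring)
    · positivity
    · field_simp
      rw [hR2, hkdef]; ring
  have e3 : HasDerivAt (fun u : ℝ => arcsin ((((p ^ 2 + r ^ 2) / 2 + 1) * (1 + u) - S ^ 2) / (k * (1 + u))))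
      ((S ^ 2 / (k * (1 + u) ^ 2)) / (S * R / (k * (1 + u)))) u := by
    apply hasDerivAt_arcsin_of
    · have h1 : HasDerivAt (fun u : ℝ => ((p ^ 2 + r ^ 2) / 2 + 1) * (1 + u) - S ^ 2)
          ((p ^ 2 + r ^ 2) / 2 + 1) u := by
        simpa using (((hasDerivAt_id u).const_add 1).const_mul ((p ^ 2 + r ^ 2) / 2 + 1)).sub_const (S ^ 2)
      have h2 : HasDerivAt (fun u : ℝ => k * (1 + u)) k u := by
        simpa using (((hasDerivAt_id u).const_add 1).const_mul k)
      exact (h1.div h2 (by positivity)).congr_deriv (by field_simp; ring)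
    · positivity
    · have hne : (k * (1 + u)) ≠ 0 := by positivity
      rw [div_pow, div_pow, eq_div_iff (by positivity), sub_mul, div_mul_cancel₀ _ (by positivity),
        mul_pow S R, hR2]
      rw [show S ^ 2 = (1 + p ^ 2) * (1 + r ^ 2) from hS2, hkdef]; ring
  have := (e1.neg.sub (e2.const_mul (p * r))).add (e3.const_mul S)
  refine this.congr_deriv ?_
  have h3 : R / (u * (1 + u)) = R ^ 2 / (R * (u * (1 + u))) := by
    field_simp
  rw [h3]
  field_simp
  rw [hR2, hS2]
  ring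

/-- The integral computed at the end points. -/
theorem integral_J0 {x₁ x₂ : ℝ} (h : x₁ < x₂) :
    ∫ x in x₁..x₂, √((exp x₂ - exp x) * (exp x - exp x₁)) / (1 + exp x) =
      π * (√((1 + exp x₁) * (1 + exp x₂)) - 1 - exp (x₁ / 2) * exp (x₂ / 2)) := by
  set p := exp (x₁ / 2) with hp
  set r := exp (x₂ / 2) with hr
  have hp2 : exp x₁ = p ^ 2 := by rw [hp, ← Real.exp_nat_mul]; congr 1; push_cast; ring
  have hr2 : exp x₂ = r ^ 2 := by rw [hr, ← Real.exp_nat_mul]; congr 1; push_cast; ring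
  have hp0 : 0 < p := exp_pos _
  have hr0 : 0 < r := exp_pos _
  have hpr : p < r := by rw [hp, hr]; exact Real.exp_lt_exp.mpr (by linarith)
  rw [hp2, hr2]
  set S := √((1 + p ^ 2) * (1 + r ^ 2)) with hS
  have hS0 : 0 < S := Real.sqrt_pos.mpr (by positivity)
  have hS2 : S ^ 2 = (1 + p ^ 2) * (1 + r ^ 2) := Real.sq_sqrt (by positivity)
  have hk : 0 < (r ^ 2 - p ^ 2) / 2 := by nlinarith
  set H : ℝ → ℝ := fun u : ℝ =>
      - arcsin ((u - (p ^ 2 + r ^ 2) / 2) / ((r ^ 2 - p ^ 2) / 2))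
      - (p * r) * arcsin (((p ^ 2 + r ^ 2) / 2 * u - (p * r) ^ 2) / ((r ^ 2 - p ^ 2) / 2 * u))
      + S * arcsin ((((p ^ 2 + r ^ 2) / 2 + 1) * (1 + u) - S ^ 2) / ((r ^ 2 - p ^ 2) / 2 * (1 + u)))
    with hH
  have key : ∫ x in x₁..x₂, √((r ^ 2 - exp x) * (exp x - p ^ 2)) / (1 + exp x)
      = (fun x => H (exp x)) x₂ - (fun x => H (exp x)) x₁ := by
    apply integral_eq_sub_of_hasDerivAt_of_le h.le
    · simp only [hH]
      apply Continuous.continuousOn
      have h1 : ∀ x, (r ^ 2 - p ^ 2) / 2 * exp x ≠ 0 := fun x => by positivity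
      have h2 : ∀ x, (r ^ 2 - p ^ 2) / 2 * (1 + exp x) ≠ 0 := fun x => by positivity
      have c1 : Continuous (fun x => ((p ^ 2 + r ^ 2) / 2 * exp x - (p * r) ^ 2) / ((r ^ 2 - p ^ 2) / 2 * exp x)) :=
        Continuous.div (by fun_prop) (by fun_prop) h1
      have c2 : Continuous (fun x => (((p ^ 2 + r ^ 2) / 2 + 1) * (1 + exp x) - S ^ 2) / ((r ^ 2 - p ^ 2) / 2 * (1 + exp x))) :=
        Continuous.div (by fun_prop) (by fun_prop) h2
      have c3 : Continuous (fun x => (exp x - (p ^ 2 + r ^ 2) / 2) / ((r ^ 2 - p ^ 2) / 2)) := by fun_prop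
      exact (((Real.continuous_arcsin.comp c3).neg).sub
        (continuous_const.mul (Real.continuous_arcsin.comp c1))).add
        (continuous_const.mul (Real.continuous_arcsin.comp c2))
    · intro x hx
      have hx1 : p ^ 2 < exp x := by rw [← hp2]; exact Real.exp_lt_exp.mpr hx.1
      have hx2 : exp x < r ^ 2 := by rw [← hr2]; exact Real.exp_lt_exp.mpr hx.2
      have hd := (hasDerivAt_H hp0 hpr hx1 hx2 hS0 hS2).comp x (Real.hasDerivAt_exp x)
      exact hd.congr_deriv (by have := exp_pos x; field_simp)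
    · apply Continuous.intervalIntegrable
      apply Continuous.div
      · fun_prop
      · fun_prop
      · intro x; positivity
  rw [key]
  simp only [hp2, hr2, hH]
  have a1 : (r ^ 2 - (p ^ 2 + r ^ 2) / 2) / ((r ^ 2 - p ^ 2) / 2) = 1 := by
    rw [div_eq_one_iff_eq hk.ne']; ring
  have a2 : (p ^ 2 - (p ^ 2 + r ^ 2) / 2) / ((r ^ 2 - p ^ 2) / 2) = -1 := by
    rw [div_eq_iff hk.ne']; ring
  have a3 : ((p ^ 2 + r ^ 2) / 2 * r ^ 2 - (p * r) ^ 2) / ((r ^ 2 - p ^ 2) / 2 * r ^ 2) = 1 := by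
    rw [div_eq_one_iff_eq (by positivity)]; ring
  have a4 : ((p ^ 2 + r ^ 2) / 2 * p ^ 2 - (p * r) ^ 2) / ((r ^ 2 - p ^ 2) / 2 * p ^ 2) = -1 := by
    rw [div_eq_iff (by positivity)]; ring
  have a5 : (((p ^ 2 + r ^ 2) / 2 + 1) * (1 + r ^ 2) - S ^ 2) / ((r ^ 2 - p ^ 2) / 2 * (1 + r ^ 2)) = 1 := by
    rw [div_eq_one_iff_eq (by positivity), hS2]; ring
  have a6 : (((p ^ 2 + r ^ 2) / 2 + 1) * (1 + p ^ 2) - S ^ 2) / ((r ^ 2 - p ^ 2) / 2 * (1 + p ^ 2)) = -1 := by
    rw [div_eq_iff (by positivity), hS2]; ring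
  rw [a1, a2, a3, a4, a5, a6]
  simp only [arcsin_one, arcsin_neg]
  ring

/-- pointwise calibration inequality -/
lemma calib {p r x X' Y' σ : ℝ} (_ : 0 < p) (hpr : p < r) (hσ : σ ^ 2 = 1)
    (h1 : p ^ 2 ≤ exp x) (h2 : exp x ≤ r ^ 2) :
    σ * (√((r ^ 2 - exp x) * (exp x - p ^ 2)) / (1 + exp x)) * X'
      + (exp x - p * r) / (1 + exp x) * Y' ≤
    (r - p) * √(exp x / (1 + exp x) ^ 2 * (X' ^ 2 + Y' ^ 2)) := by
  have hR2 : √((r ^ 2 - exp x) * (exp x - p ^ 2)) ^ 2 = (r ^ 2 - exp x) * (exp x - p ^ 2) :=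
    Real.sq_sqrt (mul_nonneg (by linarith) (by linarith))
  set R := √((r ^ 2 - exp x) * (exp x - p ^ 2)) with hR
  set u := exp x with hu
  have hu0 : 0 < u := exp_pos x
  have hrp : 0 < r - p := by linarith
  have e1 : (r - p) * √(u / (1 + u) ^ 2 * (X' ^ 2 + Y' ^ 2))
      = √((r - p) ^ 2 * (u / (1 + u) ^ 2 * (X' ^ 2 + Y' ^ 2))) := by
    rw [Real.sqrt_mul (sq_nonneg _), Real.sqrt_sq hrp.le]
  rw [e1]
  apply Real.le_sqrt_of_sq_le
  have e2 : (r - p) ^ 2 * (u / (1 + u) ^ 2 * (X' ^ 2 + Y' ^ 2))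
      - (σ * (R / (1 + u)) * X' + (u - p * r) / (1 + u) * Y') ^ 2
      = ((R / (1 + u)) * Y' - σ * ((u - p * r) / (1 + u)) * X') ^ 2 := by
    have e3 : (r - p) ^ 2 * (u / (1 + u) ^ 2 * (X' ^ 2 + Y' ^ 2))
      = (R ^ 2 + (u - p * r) ^ 2) / (1 + u) ^ 2 * (X' ^ 2 + Y' ^ 2) := by
      rw [hR2]; field_simp; ring
    rw [e3]
    field_simp
    have : σ ^ 2 = 1 := hσ
    ring_nf
    rw [this]
    ring
  nlinarith [sq_nonneg ((R / (1 + u)) * Y' - σ * ((u - p * r) / (1 + u)) * X')]

/-- Spherical isoperimetric inequality for closed curves (in logarithmic coordinates). -/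
theorem iso {X Y X' Y' : ℝ → ℝ} (hX : ∀ t, HasDerivAt X (X' t) t)
    (hY : ∀ t, HasDerivAt Y (Y' t) t) (cX : Continuous X') (cY : Continuous Y')
    (pX : Function.Periodic X (2 * π)) (pY : Function.Periodic Y (2 * π))
    (pX' : Function.Periodic X' (2 * π)) (pY' : Function.Periodic Y' (2 * π)) (s : ℝ) :
    (- ∫ t in s..(s + 2 * π), Y' t / (1 + exp (X t))) *
      (4 * π - (- ∫ t in s..(s + 2 * π), Y' t / (1 + exp (X t)))) ≤
    (∫ t in s..(s + 2 * π), √(exp (X t) / (1 + exp (X t)) ^ 2 * (X' t ^ 2 + Y' t ^ 2))) ^ 2 := by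
  have h2pi : 0 < 2 * π := by positivity
  have cXX : Continuous X := continuous_iff_continuousAt.mpr fun t => (hX t).continuousAt
  have cYY : Continuous Y := continuous_iff_continuousAt.mpr fun t => (hY t).continuousAt
  obtain ⟨α, -, hα⟩ := (isCompact_Icc (a := (0:ℝ)) (b := 2 * π)).exists_isMinOn
    ⟨0, by constructor <;> linarith⟩ cXX.continuousOn
  have hmin : ∀ t, X α ≤ X t := by
    intro t
    obtain ⟨y, hy, hy2⟩ := pX.exists_mem_Ico₀ h2pi t
    rw [hy2]
    exact hα (Ico_subset_Icc_self hy)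
  obtain ⟨τ, hτ, hmax'⟩ := (isCompact_Icc (a := α) (b := α + 2 * π)).exists_isMaxOn
    ⟨α, by constructor <;> linarith⟩ cXX.continuousOn
  have hmax : ∀ t ∈ Icc α (α + 2 * π), X t ≤ X τ := fun t ht => hmax' ht
  have hden : ∀ t, (1 + exp (X t)) ≠ 0 := fun t => by positivity
  have cG : Continuous (fun t => Y' t / (1 + exp (X t))) :=
    cY.div (by fun_prop) hden
  have cL : Continuous (fun t => √(exp (X t) / (1 + exp (X t)) ^ 2 * (X' t ^ 2 + Y' t ^ 2))) := by
    apply Real.continuous_sqrt.comp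
    apply Continuous.mul _ (by fun_prop)
    exact Continuous.div (by fun_prop) (by fun_prop) (fun t => by positivity)
  have pG : Function.Periodic (fun t => Y' t / (1 + exp (X t))) (2 * π) := by
    intro t
    simp only [pX t, pY' t]
  have pL : Function.Periodic
      (fun t => √(exp (X t) / (1 + exp (X t)) ^ 2 * (X' t ^ 2 + Y' t ^ 2))) (2 * π) := by
    intro t
    simp only [pX t, pX' t, pY' t]
  rw [pG.intervalIntegral_add_eq s α, pL.intervalIntegral_add_eq s α]
  set A := - ∫ t in α..(α + 2 * π), Y' t / (1 + exp (X t)) with hA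
  set Len := ∫ t in α..(α + 2 * π),
    √(exp (X t) / (1 + exp (X t)) ^ 2 * (X' t ^ 2 + Y' t ^ 2)) with hLen
  have hYint : ∫ t in α..(α + 2 * π), Y' t = 0 := by
    rw [integral_eq_sub_of_hasDerivAt (fun t _ => hY t) (cY.intervalIntegrable _ _), pY α, sub_self]
  have hLen0 : 0 ≤ Len := integral_nonneg (by linarith) (fun t _ => Real.sqrt_nonneg _)
  rcases (hmin τ).eq_or_lt with heq | hlt
  · -- constant case
    have hc : ∀ t ∈ Icc α (α + 2 * π), X t = X α := fun t ht =>
      le_antisymm (by rw [heq]; exact hmax t ht) (hmin t)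
    have : A = 0 := by
      have h1 : ∫ t in α..(α + 2 * π), Y' t / (1 + exp (X t)) =
          ∫ t in α..(α + 2 * π), Y' t / (1 + exp (X α)) := by
        apply intervalIntegral.integral_congr
        intro t ht
        rw [uIcc_of_le (by linarith)] at ht
        simp only [hc t ht]
      rw [hA, h1, intervalIntegral.integral_div, hYint]
      simp
    rw [this]
    nlinarith
  · -- main case
    set p := exp (X α / 2) with hp
    set r := exp (X τ / 2) with hr
    have hp2 : exp (X α) = p ^ 2 := by rw [hp, ← Real.exp_nat_mul]; congr 1; push_cast; ring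
    have hr2 : exp (X τ) = r ^ 2 := by rw [hr, ← Real.exp_nat_mul]; congr 1; push_cast; ring
    have hp0 : 0 < p := exp_pos _
    have hr0 : 0 < r := exp_pos _
    have hpr : p < r := by rw [hp, hr]; exact Real.exp_lt_exp.mpr (by linarith)
    have hb1 : ∀ t, p ^ 2 ≤ exp (X t) := fun t => by
      rw [← hp2]; exact Real.exp_le_exp.mpr (hmin t)
    have hb2 : ∀ t ∈ Icc α (α + 2 * π), exp (X t) ≤ r ^ 2 := fun t ht => by
      rw [← hr2]; exact Real.exp_le_exp.mpr (hmax t ht)
    set c : ℝ → ℝ := fun x => √((r ^ 2 - exp x) * (exp x - p ^ 2)) / (1 + exp x) with hc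
    have cc : Continuous c := by
      rw [hc]
      exact Continuous.div (by fun_prop) (by fun_prop) (fun x => by positivity)
    have cd : Continuous (fun t => (exp (X t) - p * r) / (1 + exp (X t)) * Y' t) := by
      apply Continuous.mul _ cY
      exact Continuous.div (by fun_prop) (by fun_prop) hden
    have ccX : Continuous (fun t => c (X t) * X' t) := (cc.comp cXX).mul cX
    have ccXn : Continuous (fun t => -(c (X t) * X' t)) := ccX.neg
    -- the two halves
    have hJ1 : ∫ t in α..τ, c (X t) * X' t = ∫ x in X α..X τ, c x :=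
      intervalIntegral.integral_comp_mul_deriv (fun t _ => hX t) cX.continuousOn cc
    have hJ2 : ∫ t in τ..(α + 2 * π), c (X t) * X' t = ∫ x in X τ..X (α + 2 * π), c x :=
      intervalIntegral.integral_comp_mul_deriv (fun t _ => hX t) cX.continuousOn cc
    have hJ0 : ∫ x in X α..X τ, c x = π * (√((1 + p ^ 2) * (1 + r ^ 2)) - 1 - p * r) := by
      have := integral_J0 hlt
      rw [hp2, hr2] at this
      exact this
    rw [pX α] at hJ2
    have m1 : ∫ t in α..τ, (c (X t) * X' t + (exp (X t) - p * r) / (1 + exp (X t)) * Y' t) ≤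
        ∫ t in α..τ, (r - p) * √(exp (X t) / (1 + exp (X t)) ^ 2 * (X' t ^ 2 + Y' t ^ 2)) := by
      apply intervalIntegral.integral_mono_on hτ.1 ((ccX.add cd).intervalIntegrable _ _)
        ((continuous_const.mul cL).intervalIntegrable _ _)
      intro t ht
      have := calib (x := X t) (X' := X' t) (Y' := Y' t) (σ := 1) hp0 hpr (by norm_num) (hb1 t)
        (hb2 t ⟨ht.1, ht.2.trans hτ.2⟩)
      rw [one_mul] at this
      exact this
    have m2 : ∫ t in τ..(α + 2 * π),
          (-(c (X t) * X' t) + (exp (X t) - p * r) / (1 + exp (X t)) * Y' t) ≤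
        ∫ t in τ..(α + 2 * π),
          (r - p) * √(exp (X t) / (1 + exp (X t)) ^ 2 * (X' t ^ 2 + Y' t ^ 2)) := by
      apply intervalIntegral.integral_mono_on hτ.2 ((ccXn.add cd).intervalIntegrable _ _)
        ((continuous_const.mul cL).intervalIntegrable _ _)
      intro t ht
      have := calib (x := X t) (X' := X' t) (Y' := Y' t) (σ := -1) hp0 hpr (by norm_num) (hb1 t)
        (hb2 t ⟨hτ.1.trans ht.1, ht.2⟩)
      rw [neg_one_mul, neg_mul] at this
      exact this
    rw [intervalIntegral.integral_add (ccX.intervalIntegrable _ _) (cd.intervalIntegrable _ _),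
      intervalIntegral.integral_const_mul, hJ1] at m1
    rw [intervalIntegral.integral_add (ccXn.intervalIntegrable _ _) (cd.intervalIntegrable _ _),
      intervalIntegral.integral_const_mul, intervalIntegral.integral_neg, hJ2,
      intervalIntegral.integral_symm (X α) (X τ), neg_neg] at m2
    have s1 : Len = (∫ t in α..τ, √(exp (X t) / (1 + exp (X t)) ^ 2 * (X' t ^ 2 + Y' t ^ 2))) +
        ∫ t in τ..(α + 2 * π), √(exp (X t) / (1 + exp (X t)) ^ 2 * (X' t ^ 2 + Y' t ^ 2)) :=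
      (intervalIntegral.integral_add_adjacent_intervals (cL.intervalIntegrable _ _)
        (cL.intervalIntegrable _ _)).symm
    have s2 : (∫ t in α..τ, (exp (X t) - p * r) / (1 + exp (X t)) * Y' t) +
        (∫ t in τ..(α + 2 * π), (exp (X t) - p * r) / (1 + exp (X t)) * Y' t) =
        (1 + p * r) * A := by
      rw [intervalIntegral.integral_add_adjacent_intervals (cd.intervalIntegrable _ _)
        (cd.intervalIntegrable _ _)]
      have cG2 : Continuous (fun t => (1 + p * r) * (Y' t / (1 + exp (X t)))) :=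
        continuous_const.mul cG
      have : ∫ t in α..(α + 2 * π), (exp (X t) - p * r) / (1 + exp (X t)) * Y' t =
          ∫ t in α..(α + 2 * π), (Y' t - (1 + p * r) * (Y' t / (1 + exp (X t)))) := by
        apply intervalIntegral.integral_congr
        intro t _
        have := hden t
        simp only
        field_simp
        ring
      rw [this, intervalIntegral.integral_sub (cY.intervalIntegrable _ _)
        (cG2.intervalIntegrable _ _), hYint,
        intervalIntegral.integral_const_mul, hA]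
      ring
    set S := √((1 + p ^ 2) * (1 + r ^ 2)) with hS
    have hS0 : 0 < S := Real.sqrt_pos.mpr (by positivity)
    have hS2 : S ^ 2 = (1 + p ^ 2) * (1 + r ^ 2) := Real.sq_sqrt (by positivity)
    have main : 2 * π * S ≤ (r - p) * Len + (1 + p * r) * (2 * π - A) := by
      rw [s1]
      rw [hJ0] at m1 m2
      nlinarith [m1, m2, s2]
    have hSS : S ^ 2 = (r - p) ^ 2 + (1 + p * r) ^ 2 := by rw [hS2]; ring
    -- Cauchy-Schwarz
    have cs : (2 * π * S) ^ 2 ≤ S ^ 2 * (Len ^ 2 + (2 * π - A) ^ 2) := by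
      calc (2 * π * S) ^ 2 ≤ ((r - p) * Len + (1 + p * r) * (2 * π - A)) ^ 2 :=
            pow_le_pow_left₀ (by positivity) main 2
        _ ≤ ((r - p) ^ 2 + (1 + p * r) ^ 2) * (Len ^ 2 + (2 * π - A) ^ 2) := by
            nlinarith [sq_nonneg ((r - p) * (2 * π - A) - (1 + p * r) * Len)]
        _ = _ := by rw [hSS]
    have : (2 * π) ^ 2 ≤ Len ^ 2 + (2 * π - A) ^ 2 := by
      have h5 : S ^ 2 * (2 * π) ^ 2 ≤ S ^ 2 * (Len ^ 2 + (2 * π - A) ^ 2) := by
        calc S ^ 2 * (2 * π) ^ 2 = (2 * π * S) ^ 2 := by ring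
          _ ≤ _ := cs
      exact le_of_mul_le_mul_left h5 (by positivity)
    nlinarith

end Pool.Agent.Helper88.Gr
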