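import Mathlib

set_option autoImplicit false

open Set Metric

namespace Pool.Agent.Helper88.Gr

/-- the half-plane variable -/
noncomputable def pp (z : ℂ) : ℂ := (1 + z) / (1 - z)

lemma one_sub_ne {z : ℂ} (hz : ‖z‖ < 1) : 1 - z ≠ 0 := by
  intro h
  have : z = 1 := (sub_eq_zero.mp h).symm
  rw [this, norm_one] at hz
  exact lt_irrefl _ hz

lemma pp_re_pos {z : ℂ} (hz : ‖z‖ < 1) : 0 < (pp z).re := by
  have h1 := one_sub_ne hz
  have h2 : 0 < Complex.normSq (1 - z) := Complex.normSq_pos.mpr h1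
  have h3 : Complex.normSq z < 1 := by
    rw [Complex.normSq_eq_norm_sq]
    have := norm_nonneg z
    nlinarith
  rw [Complex.normSq_apply] at h3
  rw [pp, Complex.div_re, ← add_div]
  apply div_pos _ h2
  simp only [Complex.add_re, Complex.one_re, Complex.sub_re, Complex.add_im, Complex.one_im,
    Complex.sub_im]
  nlinarith

lemma pp_hasDerivAt {z : ℂ} (hz : ‖z‖ < 1) : HasDerivAt pp (2 / (1 - z) ^ 2) z := by
  have h1 := one_sub_ne hz
  have h2 : HasDerivAt (fun z : ℂ => 1 + z) 1 z := (hasDerivAt_id z).const_add 1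
  have h3 : HasDerivAt (fun z : ℂ => 1 - z) (-1) z := (hasDerivAt_id z).const_sub 1
  exact (h2.div h3 h1).congr_deriv (by congr 1; ring)

lemma pp_inj {z w : ℂ} (hz : ‖z‖ < 1) (hw : ‖w‖ < 1) (h : pp z = pp w) : z = w := by
  have h1 := one_sub_ne hz
  have h2 := one_sub_ne hw
  rw [pp, pp, div_eq_div_iff h1 h2] at h
  linear_combination h / 2

/-- the argument of the square root -/
noncomputable def qq (κ : ℝ) (z : ℂ) : ℂ := 1 + 4 * κ * pp z ^ 2

lemma qq_mem {κ : ℝ} (hκ : 0 < κ) {z : ℂ} (hz : ‖z‖ < 1) : qq κ z ∈ Complex.slitPlane := by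
  have hp := pp_re_pos hz
  rw [Complex.mem_slitPlane_iff]
  by_cases hb : (pp z).im = 0
  · left
    have : (qq κ z).re = 1 + 4 * κ * (pp z).re ^ 2 := by
      simp [qq, pow_two, hb]
    rw [this]; positivity
  · right
    have : (qq κ z).im = 8 * κ * (pp z).re * (pp z).im := by
      simp [qq, pow_two]; ring
    rw [this]
    have := hκ.ne'
    have := hp.ne'
    positivity

/-- the square root -/
noncomputable def vv (κ : ℝ) (z : ℂ) : ℂ := Complex.exp (Complex.log (qq κ z) / 2)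

lemma vv_sq {κ : ℝ} (hκ : 0 < κ) {z : ℂ} (hz : ‖z‖ < 1) : vv κ z ^ 2 = qq κ z := by
  have h := Complex.slitPlane_ne_zero (qq_mem hκ hz)
  rw [vv, ← Complex.exp_nat_mul]
  push_cast
  rw [mul_div_cancel₀ _ (two_ne_zero), Complex.exp_log h]

lemma vv_re_pos {κ : ℝ} (hκ : 0 < κ) {z : ℂ} (hz : ‖z‖ < 1) : 0 < (vv κ z).re := by
  have h := qq_mem hκ hz
  rw [Complex.mem_slitPlane_iff_arg] at h
  rw [vv, Complex.exp_re]
  apply mul_pos (Real.exp_pos _)
  have h1 : (Complex.log (qq κ z) / 2).im = (qq κ z).arg / 2 := by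
    have : Complex.log (qq κ z) / 2 = ((1/2 : ℝ) : ℂ) * Complex.log (qq κ z) := by push_cast; ring
    rw [this, Complex.im_ofReal_mul, Complex.log_im]
    ring
  rw [h1]
  have h2 := Complex.neg_pi_lt_arg (qq κ z)
  have h3 := Complex.arg_le_pi (qq κ z)
  have h4 : (qq κ z).arg < Real.pi := lt_of_le_of_ne h3 h.1
  exact Real.cos_pos_of_mem_Ioo ⟨by linarith, by linarith⟩

lemma vv_hasDerivAt {κ : ℝ} (hκ : 0 < κ) {z : ℂ} (hz : ‖z‖ < 1) :
    HasDerivAt (vv κ) (4 * κ * (2 * pp z * (2 / (1 - z) ^ 2)) / (2 * vv κ z)) z := by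
  have hq := qq_mem hκ hz
  have h1 : HasDerivAt (qq κ) (4 * κ * (2 * pp z * (2 / (1 - z) ^ 2))) z := by
    have h2 := (((pp_hasDerivAt hz).pow 2).const_mul (4 * (κ:ℂ))).const_add 1
    exact h2.congr_deriv (by norm_num)
  have h3 := ((h1.clog hq).div_const 2).cexp
  have hv := vv_sq hκ hz
  have hv0 : vv κ z ≠ 0 := Complex.exp_ne_zero _
  refine h3.congr_deriv ?_
  change vv κ z * _ = _
  rw [← hv]
  field_simp

/-- the slit map -/
noncomputable def psi (κ : ℝ) (z : ℂ) : ℂ := (vv κ z - 1) / (vv κ z + 1)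

lemma vv_add_ne {κ : ℝ} (hκ : 0 < κ) {z : ℂ} (hz : ‖z‖ < 1) : vv κ z + 1 ≠ 0 := by
  intro h
  have h1 := vv_re_pos hκ hz
  have h2 : (vv κ z + 1).re = 0 := by rw [h]; simp
  simp at h2
  linarith

lemma psi_hasDerivAt {κ : ℝ} (hκ : 0 < κ) {z : ℂ} (hz : ‖z‖ < 1) :
    HasDerivAt (psi κ) (2 * (4 * κ * (2 * pp z * (2 / (1 - z) ^ 2)) / (2 * vv κ z)) /
      (vv κ z + 1) ^ 2) z := by
  have h1 := vv_hasDerivAt hκ hz
  have h2 := (h1.sub_const 1).div (h1.add_const 1) (vv_add_ne hκ hz)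
  exact h2.congr_deriv (by congr 1; ring)

lemma psi_norm_lt {κ : ℝ} (hκ : 0 < κ) {z : ℂ} (hz : ‖z‖ < 1) : ‖psi κ z‖ < 1 := by
  have h1 := vv_re_pos hκ hz
  have h2 := vv_add_ne hκ hz
  rw [psi, norm_div, div_lt_one (norm_pos_iff.mpr h2)]
  have h3 : ‖vv κ z - 1‖ ^ 2 < ‖vv κ z + 1‖ ^ 2 := by
    rw [← Complex.normSq_eq_norm_sq, ← Complex.normSq_eq_norm_sq, Complex.normSq_apply,
      Complex.normSq_apply]
    simp only [Complex.sub_re, Complex.add_re, Complex.one_re, Complex.sub_im, Complex.add_im,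
      Complex.one_im]
    nlinarith
  exact lt_of_pow_lt_pow_left₀ 2 (norm_nonneg _) h3

lemma psi_ne_zero {κ : ℝ} (hκ : 0 < κ) {z : ℂ} (hz : ‖z‖ < 1) : psi κ z ≠ 0 := by
  intro h
  have h2 := vv_add_ne hκ hz
  rw [psi, div_eq_zero_iff] at h
  rcases h with h | h
  · have h3 : vv κ z = 1 := sub_eq_zero.mp h
    have h4 := vv_sq hκ hz
    rw [h3, qq] at h4
    have h5 : 4 * (κ:ℂ) * pp z ^ 2 = 0 := by linear_combination -h4
    have h6 : (κ:ℂ) ≠ 0 := by exact_mod_cast hκ.ne'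
    have h7 : pp z = 0 := by
      have := mul_eq_zero.mp h5
      rcases this with h8 | h8
      · exact absurd h8 (mul_ne_zero (by norm_num) h6)
      · exact pow_eq_zero_iff (two_ne_zero) |>.mp h8
    have h8 := pp_re_pos hz
    rw [h7] at h8
    simp at h8
  · exact h2 h

lemma psi_inj {κ : ℝ} (hκ : 0 < κ) {z w : ℂ} (hz : ‖z‖ < 1) (hw : ‖w‖ < 1)
    (h : psi κ z = psi κ w) : z = w := by
  have h1 := vv_add_ne hκ hz
  have h2 := vv_add_ne hκ hw
  rw [psi, psi, div_eq_div_iff h1 h2] at h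
  have h3 : vv κ z = vv κ w := by linear_combination h / 2
  have h4 : qq κ z = qq κ w := by rw [← vv_sq hκ hz, ← vv_sq hκ hw, h3]
  have h6 : (κ:ℂ) ≠ 0 := by exact_mod_cast hκ.ne'
  have h5 : pp z ^ 2 = pp w ^ 2 := by
    rw [qq, qq] at h4
    have h7 : 4 * (κ:ℂ) * pp z ^ 2 = 4 * κ * pp w ^ 2 := by linear_combination h4
    exact mul_left_cancel₀ (mul_ne_zero (by norm_num) h6) h7
  rcases sq_eq_sq_iff_eq_or_eq_neg.mp h5 with h7 | h7
  · exact pp_inj hz hw h7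
  · have h8 := pp_re_pos hz
    have h9 := pp_re_pos hw
    rw [h7, Complex.neg_re] at h8
    linarith

lemma vv_zero {r : ℝ} (hr0 : 0 < r) (hr1 : r < 1) :
    vv (r / (1 - r) ^ 2) 0 = ((1 + r) / (1 - r) : ℝ) := by
  have h1r : 0 < 1 - r := by linarith
  have hκ : 0 < r / (1 - r) ^ 2 := by positivity
  have h0 : ‖(0:ℂ)‖ < 1 := by simp
  have h1 := vv_sq hκ h0
  have h2 : qq (r / (1 - r) ^ 2) 0 = (((1 + r) / (1 - r) : ℝ) : ℂ) ^ 2 := by
    have : pp 0 = 1 := by simp [pp]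
    rw [qq, this]
    have h3 : (1 - (r:ℂ)) ≠ 0 := by exact_mod_cast h1r.ne'
    push_cast
    field_simp
    ring
  rw [h2] at h1
  rcases sq_eq_sq_iff_eq_or_eq_neg.mp h1 with h | h
  · exact h
  · have h4 := vv_re_pos hκ h0
    rw [h, Complex.neg_re, Complex.ofReal_re] at h4
    have : 0 < (1 + r) / (1 - r) := by positivity
    linarith

/-- The slit map: an injective holomorphic map of the disc into the punctured disc with
prescribed value and large derivative at the origin. -/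
theorem exists_slit {r : ℝ} (hr0 : 0 < r) (hr1 : r < 1) :
    ∃ ψ : ℂ → ℂ, DifferentiableOn ℂ ψ (ball 0 1) ∧ MapsTo ψ (ball 0 1) (ball 0 1) ∧
      (∀ z ∈ ball (0:ℂ) 1, ψ z ≠ 0) ∧ InjOn ψ (ball 0 1) ∧ ψ 0 = r ∧
      HasDerivAt ψ ((4 * r * (1 - r) / (1 + r) : ℝ) : ℂ) 0 := by
  have h1r : 0 < 1 - r := by linarith
  have hκ : 0 < r / (1 - r) ^ 2 := by positivity
  have hb : ∀ z ∈ ball (0:ℂ) 1, ‖z‖ < 1 := fun z hz => by simpa using hz
  have h0 : ‖(0:ℂ)‖ < 1 := by simp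
  have hv := vv_zero hr0 hr1
  have hc1 : (1 - (r:ℂ)) ≠ 0 := by exact_mod_cast h1r.ne'
  have hc2 : (1 + (r:ℂ)) ≠ 0 := by
    have : (1 + r) ≠ 0 := by positivity
    exact_mod_cast this
  refine ⟨psi (r / (1 - r) ^ 2), ?_, ?_, ?_, ?_, ?_, ?_⟩
  · exact fun z hz => (psi_hasDerivAt hκ (hb z hz)).differentiableAt.differentiableWithinAt
  · intro z hz
    simpa using psi_norm_lt hκ (hb z hz)
  · exact fun z hz => psi_ne_zero hκ (hb z hz)
  · exact fun z hz w hw h => psi_inj hκ (hb z hz) (hb w hw) h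
  · rw [psi, hv]
    push_cast
    have h3 : (1 + (r:ℂ)) / (1 - r) + 1 = 2 / (1 - r) := by field_simp; ring
    have h4 : (1 + (r:ℂ)) / (1 - r) - 1 = 2 * r / (1 - r) := by field_simp; ring
    rw [h3, h4]
    field_simp
  · refine (psi_hasDerivAt hκ h0).congr_deriv ?_
    have : pp 0 = 1 := by simp [pp]
    rw [hv, this]
    push_cast
    have h3 : (1 + (r:ℂ)) / (1 - r) + 1 = 2 / (1 - r) := by field_simp; ring
    rw [h3]
    field_simp
    ring

end Pool.Agent.Helper88.Gr
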