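import Pool.Agent.Helper88.GrDuf
import Pool.Agent.Helper88.GrCount
import Pool.Agent.Helper88.GrSlit

set_option autoImplicit false

open Set MeasureTheory Metric
open scoped ENNReal NNReal

namespace Pool.Agent.Helper88.Gr

/-- the counting condition -/
def MeanUniv (F : ℂ → ℂ) : Prop :=
  ∀ R : ℝ, 0 < R → (∫⁻ w in ball (0:ℂ) R,
      ENat.toENNReal (Set.encard {z : ℂ | z ∈ ball (0 : ℂ) 1 ∧ F z = w})) ≤
        ENNReal.ofReal (Real.pi * R ^ 2)

/-- A nonvanishing mean univalent function satisfies `|F'(0)| ≤ 4 |F(0)|`. -/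
theorem deriv_bound {F : ℂ → ℂ} (hF : DifferentiableOn ℂ F (ball 0 1))
    (hne : ∀ z ∈ ball (0:ℂ) 1, F z ≠ 0) (h : MeanUniv F) : ‖deriv F 0‖ ≤ 4 * ‖F 0‖ := by
  have h0 : (0:ℂ) ∈ ball (0:ℂ) 1 := by simp
  have hF0 : F 0 ≠ 0 := hne 0 h0
  have hρ : 0 < ‖F 0‖ := norm_pos_iff.mpr hF0
  have hdF := hF.deriv isOpen_ball
  have hder : ∀ z ∈ ball (0:ℂ) 1, HasDerivAt F (deriv F z) z := fun z hz =>
    (hF.differentiableAt (isOpen_ball.mem_nhds hz)).hasDerivAt
  have hq : DifferentiableOn ℂ (fun z => deriv F z / F z) (ball 0 1) := hdF.div hF hne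
  obtain ⟨L, hL0, hL⟩ := hq.isExactOn_ball.with_val_at 0 0
  have hLd : DifferentiableOn ℂ L (ball 0 1) := fun z hz =>
    (hL z hz).differentiableAt.differentiableWithinAt
  have hFL : ∀ z ∈ ball (0:ℂ) 1, F z = F 0 * Complex.exp (L z) := by
    intro z hz
    have hd : ∀ z ∈ ball (0:ℂ) 1, HasDerivAt (fun z => F z * Complex.exp (-L z)) 0 z := by
      intro z hz
      have h1 := (hder z hz).mul (hL z hz).neg.cexp
      refine h1.congr_deriv ?_
      have := hne z hz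
      field_simp
      ring
    have hc := isOpen_ball.is_const_of_deriv_eq_zero (𝕜 := ℂ) (convex_ball (0:ℂ) 1).isPreconnected
      (fun z hz => (hd z hz).differentiableAt.differentiableWithinAt)
      (fun z hz => (hd z hz).deriv) hz h0
    simp only [hL0, neg_zero, Complex.exp_zero, mul_one] at hc
    rw [← hc, mul_assoc, ← Complex.exp_add, neg_add_cancel, Complex.exp_zero, mul_one]
  have hwd : ∀ z ∈ ball (0:ℂ) 1, wd L z = ‖deriv F z‖ ^ 2 * kw ‖F 0‖ (F z) := by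
    intro z hz
    have hFz : 0 < ‖F z‖ := norm_pos_iff.mpr (hne z hz)
    have h1 : Real.exp (L z).re = ‖F z‖ / ‖F 0‖ := by
      rw [hFL z hz, norm_mul, Complex.norm_exp]
      field_simp
    rw [wd, h1, (hL z hz).deriv, norm_div, kw]
    field_simp
  have harea := area_bound hF hρ h
  have h4 : ∫⁻ z in ball (0:ℂ) 1, ENNReal.ofReal (wd L z) ≤ ENNReal.ofReal (2 * Real.pi) := by
    refine le_trans (le_of_eq ?_) harea
    apply setLIntegral_congr_fun measurableSet_ball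
    intro z hz
    simp only [hwd z hz]
  have h5 := dufresnoy hLd (by rw [hL0]; simp) h4
  rw [(hL 0 h0).deriv, norm_div, div_le_iff₀ hρ] at h5
  exact h5

/-- The counting condition passes to compositions with injective self-maps of the disc. -/
lemma MeanUniv.comp {f ψ : ℂ → ℂ} (h : MeanUniv f) (hm : MapsTo ψ (ball 0 1) (ball 0 1))
    (hi : InjOn ψ (ball 0 1)) : MeanUniv (fun z => f (ψ z)) := by
  intro R hR
  refine le_trans (lintegral_mono fun w => ?_) (h R hR)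
  have : Set.encard {z : ℂ | z ∈ ball (0 : ℂ) 1 ∧ f (ψ z) = w} ≤
      Set.encard {z : ℂ | z ∈ ball (0 : ℂ) 1 ∧ f z = w} := by
    apply Set.encard_le_encard_of_injOn (f := ψ)
    · intro z hz
      exact ⟨hm hz.1, hz.2⟩
    · exact hi.mono (fun z hz => hz.1)
  exact ENat.toENNReal_le.mpr this

/-- The only zero is the origin. -/
lemma no_zero {f : ℂ → ℂ} (hf : DifferentiableOn ℂ f (ball 0 1)) (f0 : f 0 = 0)
    (f1 : deriv f 0 = 1) (h : MeanUniv f) {a : ℂ} (ha : a ∈ ball (0:ℂ) 1) (ha0 : a ≠ 0) :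
    f a ≠ 0 := by
  intro hfa
  have h0 : (0:ℂ) ∈ ball (0:ℂ) 1 := by simp
  have han : AnalyticOnNhd ℂ f (ball 0 1) := hf.analyticOnNhd isOpen_ball
  -- openness at both points
  have hopen : ∀ b ∈ ball (0:ℂ) 1, nhds (f b) ≤ Filter.map f (nhds b) := by
    intro b hb
    rcases (han b hb).eventually_constant_or_nhds_le_map_nhds with hc | hc
    · exfalso
      have hE : EqOn f (fun _ => f b) (ball 0 1) :=
        han.eqOn_of_preconnected_of_eventuallyEq (analyticOnNhd_const)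
          (convex_ball (0:ℂ) 1).isPreconnected hb hc
      have : deriv f 0 = 0 := by
        have h2 : f =ᶠ[nhds 0] fun _ => f b := by
          filter_upwards [isOpen_ball.mem_nhds h0] with z hz
          exact hE hz
        rw [h2.deriv_eq, deriv_const]
      rw [f1] at this
      exact one_ne_zero this
    · exact hc
  have hnorm : 0 < ‖a‖ := norm_pos_iff.mpr ha0
  have hU0 : ball (0:ℂ) (‖a‖ / 2) ∩ ball 0 1 ∈ nhds (0:ℂ) :=
    Filter.inter_mem (ball_mem_nhds _ (by positivity)) (isOpen_ball.mem_nhds h0)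
  have hUa : ball a (‖a‖ / 2) ∩ ball 0 1 ∈ nhds a :=
    Filter.inter_mem (ball_mem_nhds _ (by positivity)) (isOpen_ball.mem_nhds ha)
  have h1 : f '' (ball (0:ℂ) (‖a‖ / 2) ∩ ball 0 1) ∈ nhds (0:ℂ) := by
    have := hopen 0 h0 (Filter.image_mem_map hU0)
    rwa [f0] at this
  have h2 : f '' (ball a (‖a‖ / 2) ∩ ball 0 1) ∈ nhds (0:ℂ) := by
    have := hopen a ha (Filter.image_mem_map hUa)
    rwa [hfa] at this
  obtain ⟨δ, hδ, hsub⟩ := Metric.mem_nhds_iff.mp (Filter.inter_mem h1 h2)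
  have hcount : ∀ w ∈ ball (0:ℂ) δ, (2:ℝ≥0∞) ≤
      ENat.toENNReal (Set.encard {z : ℂ | z ∈ ball (0 : ℂ) 1 ∧ f z = w}) := by
    intro w hw
    obtain ⟨⟨z1, hz1, e1⟩, ⟨z2, hz2, e2⟩⟩ := hsub hw
    have hne : z1 ≠ z2 := by
      rintro rfl
      have d1 := hz1.1
      have d2 := hz2.1
      rw [mem_ball] at d1 d2
      rw [dist_zero_right] at d1
      rw [dist_eq_norm, norm_sub_rev] at d2
      have := norm_sub_norm_le a z1
      linarith
    have h3 : ({z1, z2} : Set ℂ).encard ≤ Set.encard {z : ℂ | z ∈ ball (0 : ℂ) 1 ∧ f z = w} := by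
      apply Set.encard_le_encard
      intro z hz
      rcases hz with rfl | hz
      · exact ⟨hz1.2, e1⟩
      · rw [mem_singleton_iff] at hz
        rw [hz]
        exact ⟨hz2.2, e2⟩
    rw [Set.encard_pair hne] at h3
    exact_mod_cast h3
  have h4 := h δ hδ
  have h5 : 2 * ENNReal.ofReal (Real.pi * δ ^ 2) ≤ ENNReal.ofReal (Real.pi * δ ^ 2) := by
    calc 2 * ENNReal.ofReal (Real.pi * δ ^ 2) = ∫⁻ w in ball (0:ℂ) δ, 2 := by
          rw [setLIntegral_const, Complex.volume_ball, mul_comm Real.pi, ENNReal.ofReal_mul (by positivity),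
          ENNReal.ofReal_pow hδ.le, ← NNReal.coe_real_pi, ENNReal.ofReal_coe_nnreal]
      _ ≤ ∫⁻ w in ball (0:ℂ) δ, ENat.toENNReal (Set.encard {z : ℂ | z ∈ ball (0 : ℂ) 1 ∧ f z = w}) :=
          setLIntegral_mono' measurableSet_ball hcount
      _ ≤ _ := h4
  have h6 : (2:ℝ≥0∞) = ENNReal.ofReal 2 := by simp
  rw [h6, ← ENNReal.ofReal_mul (by norm_num), ENNReal.ofReal_le_ofReal_iff (by positivity)] at h5
  have : 0 < Real.pi * δ ^ 2 := by positivity
  linarith

/-- The sharp bound of the logarithmic derivative. -/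
lemma logderiv_bound {f : ℂ → ℂ} (hf : DifferentiableOn ℂ f (ball 0 1)) (f0 : f 0 = 0)
    (f1 : deriv f 0 = 1) (h : MeanUniv f) {ζ : ℂ} (hζ : ‖ζ‖ = 1) {r : ℝ} (hr : r ∈ Ioo (0:ℝ) 1) :
    ‖deriv f (ζ * r)‖ * (r * (1 - r) / (1 + r)) ≤ ‖f (ζ * r)‖ := by
  obtain ⟨ψ, hd, hm, hne, hi, hψ0, hψ1⟩ := exists_slit hr.1 hr.2
  have hζ0 : ζ ≠ 0 := by
    intro h0; rw [h0, norm_zero] at hζ; exact zero_ne_one hζ
  have h0 : (0:ℂ) ∈ ball (0:ℂ) 1 := by simp
  set Φ : ℂ → ℂ := fun z => ζ * ψ z with hΦ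
  have hΦm : MapsTo Φ (ball 0 1) (ball 0 1) := by
    intro z hz
    have := hm hz
    simp only [mem_ball, dist_zero_right] at this ⊢
    simpa [hΦ, norm_mul, hζ] using this
  have hΦi : InjOn Φ (ball 0 1) := by
    intro z hz w hw hzw
    exact hi hz hw (mul_left_cancel₀ hζ0 hzw)
  have hΦd : DifferentiableOn ℂ Φ (ball 0 1) := hd.const_mul ζ
  have hFd : DifferentiableOn ℂ (fun z => f (Φ z)) (ball 0 1) := hf.comp hΦd hΦm
  have hFne : ∀ z ∈ ball (0:ℂ) 1, f (Φ z) ≠ 0 := by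
    intro z hz
    exact no_zero hf f0 f1 h (hΦm hz) (mul_ne_zero hζ0 (hne z hz))
  have hb := deriv_bound hFd hFne (h.comp hΦm hΦi)
  have hΦ0 : Φ 0 = ζ * r := by simp only [hΦ, hψ0]
  have hfz : HasDerivAt f (deriv f (ζ * r)) (ζ * r) := by
    rw [← hΦ0]
    exact (hf.differentiableAt (isOpen_ball.mem_nhds (hΦm h0))).hasDerivAt
  have hΦ' : HasDerivAt Φ (ζ * ((4 * r * (1 - r) / (1 + r) : ℝ) : ℂ)) 0 := hψ1.const_mul ζ
  have hcomp : HasDerivAt (fun z => f (Φ z))
      (deriv f (ζ * r) * (ζ * ((4 * r * (1 - r) / (1 + r) : ℝ) : ℂ))) 0 := by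
    have h5 : HasDerivAt f (deriv f (ζ * r)) (Φ 0) := by rw [hΦ0]; exact hfz
    exact HasDerivAt.comp 0 h5 hΦ'
  have hr1 : 0 < 1 - r := by linarith [hr.2]
  have hr0 := hr.1
  rw [hcomp.deriv, norm_mul, norm_mul, hζ, one_mul, Complex.norm_real, Real.norm_eq_abs,
    abs_of_pos (by positivity)] at hb
  simp only [hΦ0] at hb
  have h6 : ‖deriv f (ζ * r)‖ * (4 * r * (1 - r) / (1 + r)) =
      4 * (‖deriv f (ζ * r)‖ * (r * (1 - r) / (1 + r))) := by ring
  rw [h6] at hb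
  linarith

/-- The growth theorem for mean univalent functions. -/
theorem growth {f : ℂ → ℂ} (hf : DifferentiableOn ℂ f (ball 0 1)) (f0 : f 0 = 0)
    (f1 : deriv f 0 = 1) (h : MeanUniv f) {z : ℂ} (hz : z ∈ ball (0:ℂ) 1) :
    ‖f z‖ ≤ ‖z‖ / (1 - ‖z‖) ^ 2 := by
  rcases eq_or_ne z 0 with rfl | hz0
  · simp [f0]
  have hr0 : 0 < ‖z‖ := norm_pos_iff.mpr hz0
  have hr1 : ‖z‖ < 1 := by simpa using hz
  set r := ‖z‖ with hr
  set ζ : ℂ := z / r with hζdef
  have hrc : (r:ℂ) ≠ 0 := by exact_mod_cast hr0.ne'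
  have hζ : ‖ζ‖ = 1 := by
    rw [hζdef, norm_div, Complex.norm_real, Real.norm_eq_abs, abs_of_pos hr0, ← hr, div_self hr0.ne']
  have hζ0 : ζ ≠ 0 := by
    intro h0; rw [h0, norm_zero] at hζ; exact zero_ne_one hζ
  have hζr : ζ * r = z := by rw [hζdef]; field_simp
  set g : ℝ → ℂ := fun t => f (ζ * t) with hg
  have hmem : ∀ t ∈ Ico (0:ℝ) 1, ζ * (t:ℂ) ∈ ball (0:ℂ) 1 := by
    intro t ht
    simp only [mem_ball, dist_zero_right, norm_mul, hζ, one_mul, Complex.norm_real, Real.norm_eq_abs,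
      abs_of_nonneg ht.1]
    exact ht.2
  have hgd : ∀ t ∈ Ico (0:ℝ) 1, HasDerivAt g (deriv f (ζ * t) * ζ) t := by
    intro t ht
    have h1 := (hf.differentiableAt (isOpen_ball.mem_nhds (hmem t ht))).hasDerivAt
    have h2 : HasDerivAt (fun w : ℂ => ζ * w) ζ (t:ℂ) := by
      simpa using (hasDerivAt_id (t:ℂ)).const_mul ζ
    exact (HasDerivAt.comp (t:ℂ) h1 h2).comp_ofReal
  have hgne : ∀ t ∈ Ioo (0:ℝ) 1, g t ≠ 0 := by
    intro t ht
    apply no_zero hf f0 f1 h (hmem t ⟨ht.1.le, ht.2⟩)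
    apply mul_ne_zero hζ0
    exact_mod_cast ht.1.ne'
  set H : ℝ → ℝ := fun t => Real.log (‖g t‖ ^ 2) - 2 * Real.log t + 4 * Real.log (1 - t) with hH
  have hHd : ∀ t ∈ Ioo (0:ℝ) 1, HasDerivAt H
      (2 * inner ℝ (g t) (deriv f (ζ * t) * ζ) / ‖g t‖ ^ 2 - 2 * t⁻¹ + 4 * (-1 / (1 - t))) t := by
    intro t ht
    have h1 := (hgd t ⟨ht.1.le, ht.2⟩).norm_sq
    have h2 : ‖g t‖ ^ 2 ≠ 0 := by
      have := norm_pos_iff.mpr (hgne t ht)
      positivity
    have h3 := h1.log h2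
    have h4 := (Real.hasDerivAt_log ht.1.ne').const_mul 2
    have h5 : HasDerivAt (fun t : ℝ => 1 - t) (-1) t := (hasDerivAt_id t).const_sub 1
    have h6 := (h5.log (by linarith [ht.2])).const_mul 4
    exact (h3.sub h4).add h6
  have hanti : AntitoneOn H (Ioo 0 1) := by
    apply antitoneOn_of_deriv_nonpos (convex_Ioo 0 1)
    · exact fun x hx => (hHd x hx).continuousAt.continuousWithinAt
    · rw [interior_Ioo]
      exact fun x hx => (hHd x hx).differentiableAt.differentiableWithinAt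
    · rw [interior_Ioo]
      intro t ht
      rw [(hHd t ht).deriv]
      have hgt : 0 < ‖g t‖ := norm_pos_iff.mpr (hgne t ht)
      have h1 := logderiv_bound hf f0 f1 h hζ ht
      have h2 : inner ℝ (g t) (deriv f (ζ * t) * ζ) ≤ ‖g t‖ * ‖deriv f (ζ * t)‖ := by
        refine (real_inner_le_norm _ _).trans ?_
        rw [norm_mul, hζ, mul_one]
      have ht0 := ht.1
      have ht1 : 0 < 1 - t := by linarith [ht.2]
      have h3 : ‖deriv f (ζ * t)‖ ≤ ‖g t‖ * ((1 + t) / (t * (1 - t))) := by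
        have h4 : ‖deriv f (ζ * t)‖ * (t * (1 - t) / (1 + t)) ≤ ‖g t‖ := h1
        calc ‖deriv f (ζ * t)‖ = ‖deriv f (ζ * t)‖ * (t * (1 - t) / (1 + t)) * ((1 + t) / (t * (1 - t))) := by
              field_simp
          _ ≤ _ := mul_le_mul_of_nonneg_right h4 (by positivity)
      have h5 : 2 * inner ℝ (g t) (deriv f (ζ * t) * ζ) / ‖g t‖ ^ 2 ≤ 2 * ((1 + t) / (t * (1 - t))) := by
        rw [div_le_iff₀ (by positivity)]
        have : ‖g t‖ * ‖deriv f (ζ * t)‖ ≤ ‖g t‖ * (‖g t‖ * ((1 + t) / (t * (1 - t)))) :=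
          mul_le_mul_of_nonneg_left h3 hgt.le
        nlinarith
      have h6 : 2 * ((1 + t) / (t * (1 - t))) - 2 * t⁻¹ + 4 * (-1 / (1 - t)) = 0 := by
        field_simp
        ring
      linarith
  -- the limit at the origin
  have hlim : Filter.Tendsto H (nhdsWithin 0 (Ioi 0)) (nhds 0) := by
    have h1 := (hgd 0 ⟨le_refl _, by norm_num⟩).tendsto_slope_zero_right
    have hg0 : g 0 = 0 := by simp [hg, f0]
    simp only [zero_add, hg0, sub_zero, Complex.ofReal_zero, mul_zero, f1, one_mul] at h1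
    have h2 : Filter.Tendsto (fun t : ℝ => Real.log (‖t⁻¹ • g t‖ ^ 2)) (nhdsWithin 0 (Ioi 0))
        (nhds (Real.log (‖ζ‖ ^ 2))) := by
      apply Filter.Tendsto.log (h1.norm.pow 2)
      rw [hζ]; norm_num
    rw [hζ, one_pow, Real.log_one] at h2
    have h3 : Filter.Tendsto (fun t : ℝ => 4 * Real.log (1 - t)) (nhdsWithin 0 (Ioi 0)) (nhds 0) := by
      apply Filter.Tendsto.mono_left _ nhdsWithin_le_nhds
      have : ContinuousAt (fun t : ℝ => 4 * Real.log (1 - t)) 0 := by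
        apply ContinuousAt.mul continuousAt_const
        apply ContinuousAt.log (by fun_prop)
        norm_num
      have h5 := this.tendsto
      simpa using h5
    have h4 := h2.add h3
    rw [add_zero] at h4
    apply h4.congr'
    filter_upwards [Ioo_mem_nhdsGT (show (0:ℝ) < 1 by norm_num)] with t ht
    have hgt : 0 < ‖g t‖ := norm_pos_iff.mpr (hgne t ht)
    simp only [hH]
    rw [norm_smul, norm_inv, Real.norm_eq_abs, abs_of_pos ht.1, mul_pow, Real.log_mul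
      (by have := ht.1; positivity) (by positivity), inv_pow, Real.log_inv, Real.log_pow t]
    push_cast
    ring
  have hHr : H r ≤ 0 := by
    apply ge_of_tendsto hlim
    filter_upwards [Ioo_mem_nhdsGT hr0] with t ht
    exact hanti ⟨ht.1, ht.2.trans hr1⟩ ⟨hr0, hr1⟩ ht.2.le
  have h1r : 0 < 1 - r := by linarith
  have hgr : g r = f z := by simp only [hg, hζr]
  have hgpos : 0 < ‖f z‖ := by rw [← hgr]; exact norm_pos_iff.mpr (hgne r ⟨hr0, hr1⟩)
  simp only [hH, hgr] at hHr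
  have h7 : Real.log (‖f z‖ ^ 2) ≤ Real.log ((r / (1 - r) ^ 2) ^ 2) := by
    rw [div_pow, Real.log_div (by positivity) (by positivity), ← pow_mul, Real.log_pow r,
      Real.log_pow (1 - r)]
    push_cast
    linarith
  have h8 := (Real.log_le_log_iff (by positivity) (by positivity)).mp h7
  exact (sq_le_sq₀ (norm_nonneg _) (by positivity)).mp h8

end Pool.Agent.Helper88.Gr
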