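import Mathlib

open Polynomial

namespace Iw

variable {K : Type*} [Field K]

/-- Right cancellation for composition of polynomials. -/
theorem comp_right_cancel {A B W : K[X]} (hW : W.natDegree ≠ 0) (h : A.comp W = B.comp W) :
    A = B := by
  have h0 : (A - B).comp W = 0 := by rw [sub_comp, h, sub_self]
  rcases comp_eq_zero_iff.mp h0 with h1 | ⟨_, h2⟩
  · exact sub_eq_zero.mp h1
  · exact absurd (by rw [h2]; exact natDegree_C _) hW

/-- The inverse of an affine polynomial. -/
theorem aff_inv {l : K[X]} (hl : l.natDegree = 1) :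
    ∃ m : K[X], m.natDegree = 1 ∧ l.comp m = X ∧ m.comp l = X := by
  obtain ⟨a, b, hab⟩ : ∃ a b : K, l = C a * X + C b :=
    exists_eq_X_add_C_of_natDegree_le_one (le_of_eq hl)
  have ha : a ≠ 0 := by
    intro h0
    rw [hab, h0] at hl
    simp at hl
  refine ⟨C a⁻¹ * X + C (-(a⁻¹ * b)), natDegree_linear (inv_ne_zero ha), ?_, ?_⟩
  · rw [hab]
    simp only [add_comp, mul_comp, C_comp, X_comp]
    rw [mul_add, ← mul_assoc, ← C_mul, ← C_mul, mul_inv_cancel₀ ha, C_1, one_mul, add_assoc,
      ← C_add]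
    have : a * -(a⁻¹ * b) + b = 0 := by field_simp; ring
    rw [this, C_0, add_zero]
  · rw [hab]
    simp only [add_comp, mul_comp, C_comp, X_comp]
    rw [mul_add, ← mul_assoc, ← C_mul, ← C_mul, inv_mul_cancel₀ ha, C_1, one_mul, add_assoc,
      ← C_add]
    have : a⁻¹ * b + -(a⁻¹ * b) = 0 := by ring
    rw [this, C_0, add_zero]

theorem aff_form {l : K[X]} (hl : l.natDegree = 1) : ∃ a b : K, a ≠ 0 ∧ l = C a * X + C b := by
  obtain ⟨a, b, hab⟩ : ∃ a b : K, l = C a * X + C b :=
    exists_eq_X_add_C_of_natDegree_le_one (le_of_eq hl)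
  refine ⟨a, b, ?_, hab⟩
  intro h0
  rw [hab, h0] at hl
  simp at hl

/-- Iterates of a polynomial under composition. -/
noncomputable abbrev itr (P : K[X]) (n : ℕ) : K[X] := P.comp^[n] X

theorem itr_zero (P : K[X]) : itr P 0 = X := rfl

theorem itr_succ (P : K[X]) (n : ℕ) : itr P (n + 1) = P.comp (itr P n) :=
  Function.iterate_succ_apply' _ _ _

theorem itr_one (P : K[X]) : itr P 1 = P := by rw [itr_succ, itr_zero, comp_X]

theorem itr_succ' (P : K[X]) (n : ℕ) : itr P (n + 1) = (itr P n).comp P := by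
  induction n with
  | zero => rw [itr_succ, itr_zero, comp_X, X_comp]
  | succ n ih =>
    calc itr P (n + 1 + 1) = P.comp (itr P (n + 1)) := itr_succ P (n + 1)
      _ = P.comp ((itr P n).comp P) := by rw [ih]
      _ = (itr P (n + 1)).comp P := by rw [← comp_assoc, ← itr_succ]

theorem itr_natDegree (P : K[X]) (n : ℕ) : (itr P n).natDegree = P.natDegree ^ n := by
  induction n with
  | zero => rw [itr_zero, natDegree_X, pow_zero]
  | succ n ih => rw [itr_succ, natDegree_comp, ih, pow_succ, mul_comm]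

/-- Semiconjugacy passes to iterates. -/
theorem itr_semi {p P Q : K[X]} (h : p.comp P = Q.comp p) (n : ℕ) :
    p.comp (itr P n) = (itr Q n).comp p := by
  induction n with
  | zero => rw [itr_zero, itr_zero, comp_X, X_comp]
  | succ n ih => rw [itr_succ', ← comp_assoc, ih, comp_assoc, h, ← comp_assoc, ← itr_succ']

theorem itr_comm (P : K[X]) (n : ℕ) : P.comp (itr P n) = (itr P n).comp P := itr_semi rfl n

/-- `δ f = f(Y) - f(x)` in `K[x][Y]`. -/
noncomputable def dl (f : K[X]) : K[X][X] := f.map C - C f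

theorem dl_add (f g : K[X]) : dl (f + g) = dl f + dl g := by
  unfold dl; rw [Polynomial.map_add, C_add]; ring

theorem dl_mul (f g : K[X]) : dl (f * g) = dl f * g.map C + C f * dl g := by
  unfold dl; rw [Polynomial.map_mul, C_mul]; ring

theorem dl_C (c : K) : dl (C c) = 0 := by
  unfold dl; rw [map_C, sub_self]

theorem dl_comp_dvd (A B : K[X]) : dl B ∣ dl (A.comp B) := by
  have h1 : (A.comp B).map (C : K →+* K[X]) = ((A.map C).map C).eval (B.map C) := by
    rw [map_comp, Polynomial.comp, eval_map]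
  have h2 : (C (A.comp B) : K[X][X]) = ((A.map C).map C).eval (C B) := by
    rw [eval_map, eval₂_map, Polynomial.comp, Polynomial.hom_eval₂]
  unfold dl
  rw [h1, h2]
  exact sub_dvd_eval_sub _ _ _

end Iw
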