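import Pool.Agent.Helper88.IwLift

open Polynomial

namespace Iw

variable {K : Type*} [Field K] [CharZero K]

/-- Chebyshev polynomials indexed by naturals. -/
noncomputable def Tn (K : Type*) [Field K] (n : ℕ) : K[X] := Chebyshev.T K (n : ℤ)

instance : NeZero (2 : K) := ⟨two_ne_zero⟩

theorem Tn_natDegree (n : ℕ) : (Tn K n).natDegree = n := by
  unfold Tn
  rw [Chebyshev.natDegree_T]; simp

theorem Tn_ne_zero (n : ℕ) : Tn K n ≠ 0 := Chebyshev.T_ne_zero K _

omit [CharZero K] in
theorem Tn_comp (m n : ℕ) : (Tn K m).comp (Tn K n) = Tn K (m * n) := by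
  unfold Tn
  rw [← Chebyshev.T_mul]; norm_cast

theorem Tn_comm (m n : ℕ) : (Tn K m).comp (Tn K n) = (Tn K n).comp (Tn K m) := by
  rw [Tn_comp, Tn_comp, mul_comm]

/-- The Chebyshev differential equation. -/
def Ode (D : ℕ) (F : K[X]) : Prop :=
  (X ^ 2 - 1) * derivative (derivative F) + X * derivative F = C ((D : K) ^ 2) * F

omit [CharZero K] in
theorem Tn_ode (n : ℕ) : Ode n (Tn K n) := by
  unfold Ode Tn
  have h := Chebyshev.one_sub_X_sq_mul_derivative_derivative_T_eq_poly_in_T (R := K) (n : ℤ)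
  simp only [Function.iterate_succ, Function.iterate_zero, Function.comp, id] at h
  have e : C ((n : K) ^ 2) = (((n : ℤ) : K[X]) ^ 2) := by
    rw [C_pow]; simp
  rw [e]
  linear_combination -h

omit [CharZero K] in
theorem ode_coeff {D : ℕ} {F : K[X]} (h : Ode D F) (n : ℕ) :
    ((n : K) ^ 2 - (D : K) ^ 2) * F.coeff n = ((n : K) + 2) * ((n : K) + 1) * F.coeff (n + 2) := by
  have h1 := congrArg (fun p => coeff p n) h
  have e1 : ((X ^ 2 - 1) * derivative (derivative F) + X * derivative F).coeff n =
      (X ^ 2 * derivative (derivative F)).coeff n - (derivative (derivative F)).coeff n +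
      (X * derivative F).coeff n := by
    rw [sub_mul, one_mul, coeff_add, coeff_sub]
  simp only [e1, coeff_C_mul] at h1
  rw [coeff_derivative, coeff_derivative] at h1
  rcases n with _ | _ | n
  · rw [coeff_X_pow_mul', if_neg (by omega), coeff_X_mul_zero] at h1
    push_cast at h1 ⊢
    linear_combination h1
  · rw [coeff_X_pow_mul', if_neg (by omega), coeff_X_mul, coeff_derivative] at h1
    push_cast at h1 ⊢
    linear_combination h1
  · rw [coeff_X_pow_mul', if_pos (by omega), coeff_X_mul, coeff_derivative, coeff_derivative,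
      coeff_derivative] at h1
    have e2 : n + 1 + 1 - 2 = n := by omega
    rw [e2] at h1
    push_cast at h1 ⊢
    linear_combination h1

theorem ode_zero {D : ℕ} {F : K[X]} (h : Ode D F) (hF : F.degree < D) : F = 0 := by
  by_contra hne
  have h1 := ode_coeff h F.natDegree
  have hlt : F.natDegree < D := (natDegree_lt_iff_degree_lt hne).mpr hF
  rw [coeff_eq_zero_of_natDegree_lt (show F.natDegree < F.natDegree + 2 by omega), mul_zero] at h1
  rcases mul_eq_zero.mp h1 with h2 | h2
  · have h3 : ((F.natDegree : K) - D) * ((F.natDegree : K) + D) = 0 := by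
      linear_combination h2
    rcases mul_eq_zero.mp h3 with h4 | h4
    · rw [sub_eq_zero, Nat.cast_inj] at h4
      omega
    · have h5 : ((F.natDegree + D : ℕ) : K) = 0 := by push_cast; exact h4
      rw [Nat.cast_eq_zero] at h5
      omega
  · exact hne (leadingCoeff_eq_zero.mp h2)

theorem ode_unique {D : ℕ} {F : K[X]} (h : Ode D F) (hF : F.natDegree = D) (hF0 : F ≠ 0) :
    ∃ c : K, c ≠ 0 ∧ F = C c * Tn K D := by
  set c : K := F.leadingCoeff / (Tn K D).leadingCoeff with hc
  have hT : (Tn K D).leadingCoeff ≠ 0 := leadingCoeff_ne_zero.mpr (Tn_ne_zero D)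
  have hFl : F.leadingCoeff ≠ 0 := leadingCoeff_ne_zero.mpr hF0
  have hc0 : c ≠ 0 := div_ne_zero hFl hT
  refine ⟨c, hc0, ?_⟩
  have h1 : Ode D (F - C c * Tn K D) := by
    have h2 := Tn_ode (K := K) D
    unfold Ode at h h2 ⊢
    simp only [derivative_sub, derivative_C_mul]
    linear_combination h - C c * h2
  have h3 : (F - C c * Tn K D).degree < D := by
    have e1 : (C c * Tn K D).degree = F.degree := by
      rw [degree_C_mul hc0, degree_eq_natDegree (Tn_ne_zero D), Tn_natDegree,
        degree_eq_natDegree hF0, hF]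
    have e2 : (C c * Tn K D).leadingCoeff = F.leadingCoeff := by
      rw [leadingCoeff_mul, leadingCoeff_C, hc, div_mul_cancel₀ _ hT]
    have := degree_sub_lt_left e1.symm hF0 e2.symm
    rw [degree_eq_natDegree hF0, hF] at this
    exact this
  exact sub_eq_zero.mp (ode_zero h1 h3)

theorem pell_ode {D : ℕ} {F : K[X]} (hF : F.natDegree ≠ 0)
    (h : (X ^ 2 - 1) * derivative F ^ 2 = C ((D : K) ^ 2) * (F ^ 2 - 1)) : Ode D F := by
  have h1 := congrArg derivative h
  simp only [derivative_mul, derivative_sub, derivative_pow, derivative_X, derivative_one,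
    derivative_C] at h1
  have h2 : derivative F ≠ 0 := der_ne_zero hF
  have h3 : (2 : K[X]) * derivative F ≠ 0 := mul_ne_zero two_ne_zero h2
  unfold Ode
  apply mul_left_cancel₀ h3
  simp only [Nat.cast_ofNat, Nat.add_one_sub_one, pow_one] at h1
  have e2 : (C (2 : K) : K[X]) = 2 := map_ofNat C 2
  rw [e2] at h1
  linear_combination h1

/-- Chebyshev normal form. -/
def ChebForm (F : K[X]) : Prop :=
  ∃ (l m : K[X]) (ε : K), l.natDegree = 1 ∧ m.natDegree = 1 ∧ l.comp m = X ∧ m.comp l = X ∧
    ε ^ 2 = 1 ∧ F = l.comp ((C ε * Tn K F.natDegree).comp m)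

theorem exc_cheb [IsAlgClosed K] {S : K[X]} (hS : 2 ≤ S.natDegree) {B : Finset K}
    (hB : Exc S B) : ChebForm S := by
  classical
  have hS0 : S.natDegree ≠ 0 := by omega
  have hSne : S ≠ 0 := by rintro rfl; simp at hS0
  obtain ⟨hc, hB1, hB2⟩ := hB
  obtain ⟨b1, b2, hb, rfl⟩ := Finset.card_eq_two.mp hc
  have hmem : ∀ t : K, t ∈ ({b1, b2} : Finset K) ↔ t = b1 ∨ t = b2 := by
    intro t; rw [Finset.mem_insert, Finset.mem_singleton]
  have hrm : ∀ b t : K, (S - C b).rootMultiplicity t = if S.eval t = b then ram S t else 0 := by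
    intro b t
    split_ifs with h
    · rw [ram_eq hS0, h]
    · apply rootMultiplicity_eq_zero
      rw [IsRoot.def, eval_sub, eval_C, sub_eq_zero]
      exact h
  have hf0 : (S - C b1) * (S - C b2) ≠ 0 := mul_ne_zero (sub_C_ne_zero' hS0 _) (sub_C_ne_zero' hS0 _)
  have hx0 : ((X - C b1) * (X - C b2) : K[X]) ≠ 0 := mul_ne_zero (X_sub_C_ne_zero _) (X_sub_C_ne_zero _)
  have hd0 : derivative S ^ 2 ≠ 0 := pow_ne_zero _ (der_ne_zero hS0)
  have hg0 : (X - C b1) * (X - C b2) * derivative S ^ 2 ≠ 0 := mul_ne_zero hx0 hd0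
  have hdvd : (S - C b1) * (S - C b2) ∣ (X - C b1) * (X - C b2) * derivative S ^ 2 := by
    rw [IsAlgClosed.dvd_iff_roots_le_roots hf0 hg0, Multiset.le_iff_count]
    intro t
    rw [count_roots, count_roots, rootMultiplicity_mul hf0, rootMultiplicity_mul hg0,
      rootMultiplicity_mul hx0, rootMultiplicity_X_sub_C, rootMultiplicity_X_sub_C, hrm, hrm,
      ← count_roots (derivative S ^ 2), roots_pow, Multiset.count_nsmul, count_roots]
    have e3 : ram S t = (derivative S).rootMultiplicity t + 1 := rfl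
    by_cases ht : t ∈ ({b1, b2} : Finset K)
    · obtain ⟨h1, h2⟩ := hB1 t ht
      rw [h2]
      rw [hmem] at ht h1
      rcases ht with ht | ht <;> rcases h1 with h1 | h1
      · rw [if_pos h1, if_neg (by rw [h1]; exact hb), if_pos ht]; omega
      · rw [if_neg (by rw [h1]; exact hb.symm), if_pos h1, if_pos ht]; omega
      · rw [if_pos h1, if_neg (by rw [h1]; exact hb), if_pos ht]; omega
      · rw [if_neg (by rw [h1]; exact hb.symm), if_pos h1, if_pos ht]; omega
    · by_cases h1 : S.eval t ∈ ({b1, b2} : Finset K)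
      · have h2 := hB2 t ht h1
        rw [hmem] at h1
        rcases h1 with h1 | h1
        · rw [if_pos h1, if_neg (by rw [h1]; exact hb)]; omega
        · rw [if_neg (by rw [h1]; exact hb.symm), if_pos h1]; omega
      · rw [hmem, not_or] at h1
        rw [if_neg h1.1, if_neg h1.2]; omega
  obtain ⟨q, hq⟩ := hdvd
  have hq0 : q ≠ 0 := by rintro rfl; rw [mul_zero] at hq; exact hg0 hq
  have hqd : q.natDegree = 0 := by
    have h1 := congrArg natDegree hq
    rw [natDegree_mul hx0 hd0, natDegree_mul (X_sub_C_ne_zero _) (X_sub_C_ne_zero _),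
      natDegree_X_sub_C, natDegree_X_sub_C, natDegree_pow, natDegree_derivative,
      natDegree_mul hf0 hq0, natDegree_mul (sub_C_ne_zero' hS0 _) (sub_C_ne_zero' hS0 _),
      natDegree_sub_C, natDegree_sub_C] at h1
    omega
  obtain ⟨k, rfl⟩ := natDegree_eq_zero.mp hqd
  have hlcd : (derivative S).leadingCoeff = S.leadingCoeff * S.natDegree := by
    rw [leadingCoeff, natDegree_derivative, coeff_derivative]
    have : S.natDegree - 1 + 1 = S.natDegree := by omega
    rw [this]
    have h2 : ((S.natDegree - 1 : ℕ) : K) + 1 = S.natDegree := by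
      have := congrArg (fun x : ℕ => (x : K)) this
      push_cast at this ⊢
      exact this
    rw [h2]; rfl
  have hlcS : ∀ b : K, (S - C b).leadingCoeff = S.leadingCoeff := by
    intro b
    rw [leadingCoeff, natDegree_sub_C, coeff_sub, coeff_C, if_neg hS0, sub_zero]; rfl
  have hk : k = (S.natDegree : K) ^ 2 := by
    have h1 := congrArg leadingCoeff hq
    rw [leadingCoeff_mul, leadingCoeff_mul, leadingCoeff_X_sub_C, leadingCoeff_X_sub_C, one_mul,
      one_mul, leadingCoeff_pow, hlcd, leadingCoeff_mul, leadingCoeff_mul, hlcS, hlcS,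
      leadingCoeff_C] at h1
    have hl : S.leadingCoeff ≠ 0 := leadingCoeff_ne_zero.mpr hSne
    have hl2 : S.leadingCoeff * S.leadingCoeff ≠ 0 := mul_ne_zero hl hl
    exact mul_left_cancel₀ hl2 (by linear_combination -h1)
  subst hk
  -- conjugation
  set α : K := (b1 - b2) / 2 with hα
  set β : K := (b1 + b2) / 2 with hβ
  have hα0 : α ≠ 0 := div_ne_zero (sub_ne_zero.mpr hb) two_ne_zero
  have hb1 : b1 = α + β := by rw [hα, hβ]; ring
  have hb2 : b2 = β - α := by rw [hα, hβ]; ring
  set l : K[X] := C α * X + C β with hl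
  set m : K[X] := C α⁻¹ * X + C (-(α⁻¹ * β)) with hm
  have hln : l.natDegree = 1 := natDegree_linear hα0
  have hmn : m.natDegree = 1 := natDegree_linear (inv_ne_zero hα0)
  have hCα : (C α⁻¹ * C α : K[X]) = 1 := by rw [← C_mul, inv_mul_cancel₀ hα0, C_1]
  have hlm : l.comp m = X := by
    rw [hl, hm]
    simp only [add_comp, mul_comp, C_comp, X_comp, C_neg, C_mul, neg_comp]
    linear_combination (X - C β) * hCα
  have hml : m.comp l = X := by
    rw [hl, hm]
    simp only [add_comp, mul_comp, C_comp, X_comp, C_neg, C_mul, neg_comp]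
    linear_combination (X : K[X]) * hCα
  set F : K[X] := m.comp (S.comp l) with hF
  have hFn : F.natDegree = S.natDegree := by
    rw [hF, natDegree_comp, natDegree_comp, hln, hmn, mul_one, one_mul]
  have hSl : S.comp l = C α * F + C β := by
    have : l.comp F = S.comp l := by rw [hF, ← comp_assoc, hlm, X_comp]
    rw [← this, hl]
    simp only [add_comp, mul_comp, C_comp, X_comp]
  have hFd : derivative F = (derivative S).comp l := by
    have h1 := congrArg derivative hSl
    rw [derivative_comp, derivative_add, derivative_C_mul, derivative_C, add_zero, hl,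
      derivative_add, derivative_C_mul, derivative_X, derivative_C, add_zero, mul_one] at h1
    have hCα0 : (C α : K[X]) ≠ 0 := C_ne_zero.mpr hα0
    exact (mul_left_cancel₀ hCα0 h1).symm
  have hpell : (X ^ 2 - 1) * derivative F ^ 2 = C ((S.natDegree : K) ^ 2) * (F ^ 2 - 1) := by
    have h1 := congrArg (fun p => p.comp l) hq
    simp only [mul_comp, sub_comp, X_comp, C_comp, pow_comp] at h1
    rw [← hFd, hSl, hb1, hb2, C_add, C_sub, hl] at h1
    have hCα0 : (C α : K[X]) ^ 2 ≠ 0 := pow_ne_zero _ (C_ne_zero.mpr hα0)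
    apply mul_left_cancel₀ hCα0
    linear_combination h1
  have hFne : F ≠ 0 := by
    intro h0; rw [h0] at hFn; simp at hFn; omega
  obtain ⟨ε, hε0, hε⟩ := ode_unique (pell_ode (by omega) hpell) hFn hFne
  have hε2 : ε ^ 2 = 1 := by
    have h1 := congrArg (eval 1) hpell
    simp only [eval_mul, eval_sub, eval_pow, eval_X, eval_one, eval_C] at h1
    rw [hε, eval_mul, eval_C] at h1
    have h2 : (Tn K S.natDegree).eval 1 = 1 := by unfold Tn; exact Chebyshev.T_eval_one K _
    rw [h2] at h1
    have h3 : ((S.natDegree : K) ^ 2) ≠ 0 := pow_ne_zero _ (by exact_mod_cast hS0)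
    have h4 : (S.natDegree : K) ^ 2 * (ε ^ 2 - 1) = 0 := by linear_combination -h1
    rcases mul_eq_zero.mp h4 with h5 | h5
    · exact absurd h5 h3
    · exact sub_eq_zero.mp h5
  refine ⟨l, m, ε, hln, hmn, hlm, hml, hε2, ?_⟩
  rw [← hε, hF, comp_assoc, comp_assoc, hlm, comp_X, ← comp_assoc, hlm, X_comp]

end Iw
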