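import Pool.Agent.Helper88.IwBasic

open Polynomial

namespace Iw

variable {K : Type*} [Field K]

/-- The substitution `x ↦ t`, `Y ↦ Y t`. -/
noncomputable def Psi : K[X][X] →+* K[X][X] := eval₂RingHom (mapRingHom C) (C X * X)

theorem Psi_coeff (G : K[X][X]) (i j : ℕ) :
    ((Psi G).coeff i).coeff j = if j ≤ i then (G.coeff j).coeff (i - j) else 0 := by
  induction G using Polynomial.induction_on' with
  | add p q hp hq =>
    rw [map_add, coeff_add, coeff_add, hp, hq]
    split_ifs <;> simp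
  | monomial n p =>
    have h1 : Psi (monomial n p : K[X][X]) = p.map C * C (X ^ n) * X ^ n := by
      unfold Psi
      simp only [coe_eval₂RingHom, eval₂_monomial, coe_mapRingHom, mul_pow]
      rw [C_pow, mul_assoc]
    rw [h1, coeff_mul_X_pow', coeff_monomial]
    by_cases hni : n ≤ i
    · rw [if_pos hni, coeff_mul_C, coeff_map, coeff_C_mul_X_pow]
      by_cases hjn : j = n
      · subst hjn
        rw [if_pos rfl, if_pos hni, if_pos rfl]
      · rw [if_neg hjn, if_neg (Ne.symm hjn)]
        split_ifs <;> simp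
    · rw [if_neg hni, coeff_zero]
      by_cases hjn : n = j
      · subst hjn
        rw [if_neg hni]
      · rw [if_neg hjn]
        split_ifs <;> simp

theorem dl_coeff (f : K[X]) (j : ℕ) :
    (dl f).coeff j = C (f.coeff j) - if j = 0 then f else 0 := by
  unfold dl
  rw [coeff_sub, coeff_map, coeff_C]

theorem Psi_dl_coeff (f : K[X]) (i : ℕ) :
    (Psi (dl f)).coeff i = C (f.coeff i) * (X ^ i - 1) := by
  ext j
  have hX : (X ^ i - 1 : K[X]).coeff j = (if j = i then 1 else 0) - (if j = 0 then 1 else 0) := by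
    rw [coeff_sub, coeff_X_pow, coeff_one]
  rw [Psi_coeff, dl_coeff, coeff_C_mul, hX]
  rcases Nat.lt_trichotomy j i with h | h | h
  · rw [if_pos h.le, if_neg (ne_of_lt h), coeff_sub, coeff_C, if_neg (by omega)]
    by_cases h0 : j = 0
    · subst h0; simp
    · simp [h0]
  · subst h
    rw [if_pos le_rfl, Nat.sub_self, if_pos rfl, coeff_sub, coeff_C_zero]
    by_cases h0 : j = 0
    · subst h0; simp
    · simp [h0]
  · rw [if_neg (by omega), if_neg (by omega), if_neg (by omega)]; simp

theorem X_pow_sub_one_ne_zero' {i : ℕ} (hi : i ≠ 0) : (X ^ i - 1 : K[X]) ≠ 0 := by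
  have := (monic_X_pow_sub_C (1 : K) hi).ne_zero
  simpa using this

theorem Psi_dl_natDegree {f : K[X]} (hf : f.natDegree ≠ 0) :
    (Psi (dl f)).natDegree = f.natDegree := by
  have hf0 : f ≠ 0 := by rintro rfl; simp at hf
  apply le_antisymm
  · rw [natDegree_le_iff_coeff_eq_zero]
    intro N hN
    rw [Psi_dl_coeff, coeff_eq_zero_of_natDegree_lt hN]; simp
  · apply le_natDegree_of_ne_zero
    rw [Psi_dl_coeff]
    exact mul_ne_zero (C_ne_zero.mpr (leadingCoeff_ne_zero.mpr hf0)) (X_pow_sub_one_ne_zero' hf)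

theorem Psi_dl_leadingCoeff {f : K[X]} (hf : f.natDegree ≠ 0) :
    (Psi (dl f)).leadingCoeff = C f.leadingCoeff * (X ^ f.natDegree - 1) := by
  rw [leadingCoeff, Psi_dl_natDegree hf, Psi_dl_coeff]; rfl

theorem dl_monic {f : K[X]} (hf : f.Monic) (h0 : f.natDegree ≠ 0) : (dl f).Monic := by
  unfold dl
  apply (hf.map C).sub_of_left
  rw [degree_map_eq_of_injective C_injective]
  refine lt_of_le_of_lt degree_C_le ?_
  exact natDegree_pos_iff_degree_pos.mp (Nat.pos_of_ne_zero h0)

theorem dl_natDegree (f : K[X]) : (dl f).natDegree = f.natDegree := by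
  unfold dl
  rw [natDegree_sub_C, natDegree_map_eq_of_injective C_injective]

/-- Step 1: a common divisor with a Bezout relation, up to a nonzero polynomial in `x`. -/
theorem step1 (b0 d0 : K[X][X]) (hb : b0.Monic) :
    ∃ G U V α β : K[X][X], ∃ c : K[X], G.Monic ∧ b0 = G * U ∧ d0 = G * V ∧ c ≠ 0 ∧
      C c * G = α * b0 + β * d0 := by
  classical
  let L := FractionRing K[X]
  let i : K[X] →+* L := algebraMap K[X] L
  have hi : Function.Injective i := IsFractionRing.injective K[X] L
  have hI : Function.Injective (Polynomial.map i) := map_injective i hi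
  have hb0 : b0.map i ≠ 0 := (hb.map i).ne_zero
  set g0 : L[X] := EuclideanDomain.gcd (b0.map i) (d0.map i) with hg0
  have hgb : g0 ∣ b0.map i := EuclideanDomain.gcd_dvd_left _ _
  have hgd : g0 ∣ d0.map i := EuclideanDomain.gcd_dvd_right _ _
  have hg00 : g0 ≠ 0 := by
    rintro h
    rw [h, zero_dvd_iff] at hgb
    exact hb0 hgb
  obtain ⟨G, hG⟩ := IsIntegrallyClosed.eq_map_mul_C_of_dvd L hb hgb
  have hlc : g0.leadingCoeff ≠ 0 := leadingCoeff_ne_zero.mpr hg00
  have hGm : (G.map i).Monic := by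
    have h1 := congrArg leadingCoeff hG
    rw [leadingCoeff_mul, leadingCoeff_C] at h1
    exact mul_right_cancel₀ hlc (by rw [one_mul]; exact h1)
  have hGM : G.Monic := monic_of_injective hi hGm
  have hGg : G.map i ∣ g0 := ⟨_, hG.symm⟩
  obtain ⟨U, hU⟩ := (map_dvd_map i hi hGM).mp (hGg.trans hgb)
  obtain ⟨V, hV⟩ := (map_dvd_map i hi hGM).mp (hGg.trans hgd)
  have hbez : g0 = b0.map i * EuclideanDomain.gcdA (b0.map i) (d0.map i) +
      d0.map i * EuclideanDomain.gcdB (b0.map i) (d0.map i) := EuclideanDomain.gcd_eq_gcd_ab _ _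
  obtain ⟨c1, hc1, h1⟩ := IsLocalization.integerNormalization_spec (nonZeroDivisors K[X])
    (C g0.leadingCoeff⁻¹ * EuclideanDomain.gcdA (b0.map i) (d0.map i))
  obtain ⟨c2, hc2, h2⟩ := IsLocalization.integerNormalization_spec (nonZeroDivisors K[X])
    (C g0.leadingCoeff⁻¹ * EuclideanDomain.gcdB (b0.map i) (d0.map i))
  refine ⟨G, U, V, C c2 * IsLocalization.integerNormalization (nonZeroDivisors K[X])
    (C g0.leadingCoeff⁻¹ * EuclideanDomain.gcdA (b0.map i) (d0.map i)),
    C c1 * IsLocalization.integerNormalization (nonZeroDivisors K[X])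
    (C g0.leadingCoeff⁻¹ * EuclideanDomain.gcdB (b0.map i) (d0.map i)),
    c1 * c2, hGM, hU, hV,
    mul_ne_zero (nonZeroDivisors.ne_zero hc1) (nonZeroDivisors.ne_zero hc2), ?_⟩
  apply hI
  have hs : ∀ (c : K[X]) (p : L[X]), c • p = C (i c) * p := by
    intro c p
    rw [← Polynomial.smul_eq_C_mul, algebraMap_smul]
  rw [Polynomial.map_mul, Polynomial.map_add, Polynomial.map_mul, Polynomial.map_mul,
    Polynomial.map_mul, Polynomial.map_mul, map_C, map_C, map_C]
  have h1' : Polynomial.map i (IsLocalization.integerNormalization (nonZeroDivisors K[X])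
    (C g0.leadingCoeff⁻¹ * EuclideanDomain.gcdA (b0.map i) (d0.map i))) = _ := h1
  have h2' : Polynomial.map i (IsLocalization.integerNormalization (nonZeroDivisors K[X])
    (C g0.leadingCoeff⁻¹ * EuclideanDomain.gcdB (b0.map i) (d0.map i))) = _ := h2
  rw [h1', h2', hs, hs, map_mul, C_mul]
  have hG2 : G.map i = C g0.leadingCoeff⁻¹ * g0 := by
    rw [← hG, leadingCoeff_mul, leadingCoeff_C, hGm.leadingCoeff, one_mul, mul_comm, mul_assoc,
      ← C_mul, mul_inv_cancel₀ hlc, C_1, mul_one]
  rw [hG2]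
  linear_combination (C (i c1) * C (i c2) * C g0.leadingCoeff⁻¹) * hbez

theorem mon_dvd {V M : K[X][X]} (hV : V.Monic) {c : K[X]} (hc : c ≠ 0) (h : V ∣ C c * M) :
    V ∣ M := by
  rw [← modByMonic_eq_zero_iff_dvd hV] at h ⊢
  rw [← smul_eq_C_mul, smul_modByMonic] at h
  rcases smul_eq_zero.mp h with h1 | h1
  · exact absurd h1 hc
  · exact h1

theorem natDegree_le_Psi {G : K[X][X]} (hG : G ≠ 0) : G.natDegree ≤ (Psi G).natDegree := by
  have h1 : G.leadingCoeff.leadingCoeff ≠ 0 :=
    leadingCoeff_ne_zero.mpr (leadingCoeff_ne_zero.mpr hG)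
  have h2 : ((Psi G).coeff (G.natDegree + G.leadingCoeff.natDegree)).coeff G.natDegree ≠ 0 := by
    rw [Psi_coeff, if_pos (Nat.le_add_right _ _), Nat.add_sub_cancel_left]
    exact h1
  have h3 : (Psi G).coeff (G.natDegree + G.leadingCoeff.natDegree) ≠ 0 := by
    intro h
    rw [h] at h2
    simp at h2
  exact (Nat.le_add_right _ _).trans (le_natDegree_of_ne_zero h3)

theorem Psi_ne_zero {G : K[X][X]} (hG : G ≠ 0) : Psi G ≠ 0 := by
  have h1 : G.leadingCoeff.leadingCoeff ≠ 0 :=
    leadingCoeff_ne_zero.mpr (leadingCoeff_ne_zero.mpr hG)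
  have h2 : ((Psi G).coeff (G.natDegree + G.leadingCoeff.natDegree)).coeff G.natDegree ≠ 0 := by
    rw [Psi_coeff, if_pos (Nat.le_add_right _ _), Nat.add_sub_cancel_left]
    exact h1
  intro h
  rw [h] at h2
  simp at h2

/-- The top form of a common divisor. -/
theorem gcd_pow_sub_one [CharZero K] {p q r : K[X]} {b e N : ℕ} (hN : N ≠ 0) {f : K}
    (hf : f ≠ 0) (h1 : p * q = X ^ b - 1) (h2 : p * r = X ^ e - 1)
    (h3 : (X ^ b - 1) * r ∣ C f * (X ^ N - 1)) : Associated p (X ^ (Nat.gcd b e) - 1) := by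
  have hsep : (X ^ N - 1 : K[X]).Separable := by
    have := separable_X_pow_sub_C (1 : K) (n := N) (by exact_mod_cast hN) one_ne_zero
    simpa using this
  have hu : IsUnit (C f : K[X]) := isUnit_C.mpr (isUnit_iff_ne_zero.mpr hf)
  have h3' : (X ^ b - 1) * r ∣ (X ^ N - 1 : K[X]) := by
    rwa [hu.dvd_mul_left] at h3
  have hco : IsCoprime (X ^ b - 1 : K[X]) r := (hsep.of_dvd h3').isCoprime
  have hgb : (X ^ (Nat.gcd b e) - 1 : K[X]) ∣ X ^ b - 1 := by
    obtain ⟨k, hk⟩ := Nat.gcd_dvd_left b e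
    have := sub_dvd_pow_sub_pow (X ^ (Nat.gcd b e) : K[X]) 1 k
    rw [← pow_mul, ← hk, one_pow] at this
    exact this
  have hge : (X ^ (Nat.gcd b e) - 1 : K[X]) ∣ X ^ e - 1 := by
    obtain ⟨k, hk⟩ := Nat.gcd_dvd_right b e
    have := sub_dvd_pow_sub_pow (X ^ (Nat.gcd b e) : K[X]) 1 k
    rw [← pow_mul, ← hk, one_pow] at this
    exact this
  apply associated_of_dvd_dvd
  · have hpb : p ∣ X ^ b - 1 := ⟨q, h1.symm⟩
    have hpe : p ∣ X ^ e - 1 := ⟨r, h2.symm⟩
    rw [← Ideal.mem_span_singleton, ← Ideal.Quotient.eq_zero_iff_mem, map_sub, map_pow, map_one,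
      sub_eq_zero] at hpb hpe ⊢
    exact pow_gcd_eq_one.mpr ⟨hpb, hpe⟩
  · have hco2 : IsCoprime (X ^ (Nat.gcd b e) - 1 : K[X]) r := hco.of_isCoprime_of_dvd_left hgb
    rw [← h2] at hge
    exact hco2.dvd_of_dvd_mul_right hge

/-- Step 2: the shape of the common divisor. -/
theorem step2 [CharZero K] {A B E D : K[X]} (hB : B.Monic) (hD : D.Monic)
    (hb : B.natDegree ≠ 0) (he : D.natDegree ≠ 0) (h : A.comp B = E.comp D)
    (hN : (A.comp B).natDegree ≠ 0) {G U V α β : K[X][X]} {c : K[X]} (hG : G.Monic)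
    (hU : dl B = G * U) (hV : dl D = G * V) (hc : c ≠ 0)
    (hbez : C c * G = α * dl B + β * dl D) :
    G.natDegree = Nat.gcd B.natDegree D.natDegree ∧
      (∀ i j, G.natDegree < i + j → (G.coeff j).coeff i = 0) ∧
      (G.coeff 0).coeff G.natDegree = -1 := by
  have hdB := dl_monic hB hb
  have hdD := dl_monic hD he
  have hUm : U.Monic := Monic.of_mul_monic_left hG (hU ▸ hdB)
  have hVm : V.Monic := Monic.of_mul_monic_left hG (hV ▸ hdD)
  obtain ⟨M, hM⟩ := dl_comp_dvd A B
  have hV1 : G * V ∣ G * (U * M) := by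
    rw [← hV, ← mul_assoc, ← hU, ← hM, h]
    exact dl_comp_dvd E D
  have hV2 : V ∣ U * M := (mul_dvd_mul_iff_left hG.ne_zero).mp hV1
  have hbez2 : C c = α * U + β * V := by
    apply mul_right_cancel₀ hG.ne_zero
    rw [hbez, hU, hV]; ring
  have hV3 : V ∣ M := by
    apply mon_dvd hVm hc
    rw [hbez2, add_mul]
    apply dvd_add
    · rw [mul_assoc]; exact hV2.mul_left _
    · exact (dvd_mul_left V β).mul_right M
  have hlcm : dl B * V ∣ dl (A.comp B) := by
    rw [hM]; exact mul_dvd_mul_left _ hV3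
  have hP1 := congrArg leadingCoeff (congrArg Psi hU)
  have hP2 := congrArg leadingCoeff (congrArg Psi hV)
  rw [Psi_dl_leadingCoeff hb, map_mul, leadingCoeff_mul, hB.leadingCoeff, C_1, one_mul] at hP1
  rw [Psi_dl_leadingCoeff he, map_mul, leadingCoeff_mul, hD.leadingCoeff, C_1, one_mul] at hP2
  have hP3 : (Psi (dl B * V)).leadingCoeff ∣ (Psi (dl (A.comp B))).leadingCoeff := by
    obtain ⟨Z, hZ⟩ := hlcm
    rw [hZ, map_mul _ (dl B * V) Z, leadingCoeff_mul]
    exact dvd_mul_right (Psi (dl B * V)).leadingCoeff (Psi Z).leadingCoeff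
  rw [map_mul, leadingCoeff_mul, Psi_dl_leadingCoeff hb, hB.leadingCoeff, C_1, one_mul,
    Psi_dl_leadingCoeff hN] at hP3
  have hAB0 : A.comp B ≠ 0 := by
    intro h0; rw [h0] at hN; simp at hN
  have hass := gcd_pow_sub_one hN (leadingCoeff_ne_zero.mpr hAB0) hP1.symm hP2.symm hP3
  -- degrees
  have hdeg1 : (Psi G).natDegree + (Psi U).natDegree = G.natDegree + U.natDegree := by
    rw [← natDegree_mul (Psi_ne_zero hG.ne_zero) (Psi_ne_zero hUm.ne_zero), ← map_mul, ← hU,
      Psi_dl_natDegree hb, ← natDegree_mul hG.ne_zero hUm.ne_zero, ← hU, dl_natDegree]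
  have hle1 := natDegree_le_Psi hG.ne_zero
  have hle2 := natDegree_le_Psi hUm.ne_zero
  have hnG : (Psi G).natDegree = G.natDegree := by omega
  have hco : ∀ j, (Psi G).leadingCoeff.coeff j =
      if j ≤ G.natDegree then (G.coeff j).coeff (G.natDegree - j) else 0 := by
    intro j
    rw [leadingCoeff, Psi_coeff, hnG]
  have hlcn : (Psi G).leadingCoeff.coeff G.natDegree = 1 := by
    rw [hco, if_pos le_rfl, Nat.sub_self]
    have : G.coeff G.natDegree = 1 := hG
    rw [this]; simp
  have hlcd : (Psi G).leadingCoeff.natDegree = G.natDegree := by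
    apply le_antisymm
    · rw [natDegree_le_iff_coeff_eq_zero]
      intro N hN
      rw [hco, if_neg (by omega)]
    · apply le_natDegree_of_ne_zero
      rw [hlcn]; exact one_ne_zero
  have hgpos : Nat.gcd B.natDegree D.natDegree ≠ 0 := Nat.gcd_ne_zero_left hb
  have hmon1 : (X ^ (Nat.gcd B.natDegree D.natDegree) - 1 : K[X]).Monic := by
    have := monic_X_pow_sub_C (1 : K) hgpos
    simpa using this
  have hmon2 : (Psi G).leadingCoeff.Monic := by
    rw [Monic, leadingCoeff, hlcd]; exact hlcn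
  have heq : (Psi G).leadingCoeff = X ^ (Nat.gcd B.natDegree D.natDegree) - 1 :=
    eq_of_monic_of_associated hmon2 hmon1 hass
  have hgn : G.natDegree = Nat.gcd B.natDegree D.natDegree := by
    rw [← hlcd, heq]
    have := natDegree_X_pow_sub_C (n := Nat.gcd B.natDegree D.natDegree) (r := (1 : K))
    simpa using this
  refine ⟨hgn, ?_, ?_⟩
  · intro i j hij
    have h0 : (Psi G).coeff (i + j) = 0 :=
      coeff_eq_zero_of_natDegree_lt (by rw [hnG]; exact hij)
    have h1 : ((Psi G).coeff (i + j)).coeff j = 0 := by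
      rw [h0, coeff_zero]
    rw [Psi_coeff, if_pos (Nat.le_add_left _ _), Nat.add_sub_cancel] at h1
    exact h1
  · have h1 := hco 0
    rw [if_pos (Nat.zero_le _), Nat.sub_zero] at h1
    rw [← h1, heq, coeff_sub, coeff_X_pow, if_neg (by omega), coeff_one_zero, zero_sub]

theorem dl_map_eval (f : K[X]) (x : K) : (dl f).map (evalRingHom x) = f - C (f.eval x) := by
  unfold dl
  rw [Polynomial.map_sub, map_C, Polynomial.map_map]
  have : (evalRingHom x).comp (C : K →+* K[X]) = RingHom.id K := by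
    ext a; simp
  rw [this, Polynomial.map_id]
  simp

/-- Step 3: `G = δ W` for a polynomial `W`. -/
theorem step3 [CharZero K] [IsAlgClosed K] {A B E D : K[X]} (hB : B.Monic) (hD : D.Monic)
    (hb : B.natDegree ≠ 0) (he : D.natDegree ≠ 0) (h : A.comp B = E.comp D)
    (hN : (A.comp B).natDegree ≠ 0) :
    ∃ W : K[X], W.Monic ∧ W.natDegree = Nat.gcd B.natDegree D.natDegree ∧ dl W ∣ dl B ∧
      dl W ∣ dl D := by
  classical
  obtain ⟨G, U, V, α, β, c, hG, hU, hV, hc, hbez⟩ := step1 (dl B) (dl D) (dl_monic hB hb)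
  obtain ⟨hgn, htop, h0⟩ := step2 hB hD hb he h hN hG hU hV hc hbez
  have hgpos : G.natDegree ≠ 0 := by rw [hgn]; exact Nat.gcd_ne_zero_left hb
  -- a generic point
  obtain ⟨x0, hx0⟩ : ∃ x0 : K, (c * ((derivative B).roots.map
      (fun w => B - C (B.eval w))).prod).eval x0 ≠ 0 := by
    by_contra hcon
    push Not at hcon
    have h1 : c * ((derivative B).roots.map (fun w => B - C (B.eval w))).prod = 0 :=
      Polynomial.funext (fun x => by rw [hcon x, eval_zero])
    rcases mul_eq_zero.mp h1 with h2 | h2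
    · exact hc h2
    · rw [Multiset.prod_eq_zero_iff, Multiset.mem_map] at h2
      obtain ⟨w, _, hw⟩ := h2
      have : (B - C (B.eval w)).natDegree = B.natDegree := natDegree_sub_C
      rw [hw] at this
      simp at this
      exact hb this.symm
  rw [eval_mul] at hx0
  have hcx : c.eval x0 ≠ 0 := left_ne_zero_of_mul hx0
  have hpx := right_ne_zero_of_mul hx0
  have hsep : (B - C (B.eval x0)).Separable := by
    rw [separable_def, derivative_sub, derivative_C, sub_zero,
      isCoprime_iff_aeval_ne_zero_of_isAlgClosed K K]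
    intro w
    by_contra hcon
    push Not at hcon
    obtain ⟨hw1, hw2⟩ := hcon
    rw [coe_aeval_eq_eval, eval_sub, eval_C, sub_eq_zero] at hw1
    rw [coe_aeval_eq_eval] at hw2
    apply hpx
    rw [eval_multiset_prod, Multiset.map_map]
    apply Multiset.prod_eq_zero
    rw [Multiset.mem_map]
    have hB' : derivative B ≠ 0 := by
      intro h1
      exact hb (derivative_eq_zero.mp h1)
    refine ⟨w, (mem_roots hB').mpr hw2, ?_⟩
    simp [hw1]
  set W : K[X] := G.map (evalRingHom x0) with hW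
  have hWm : W.Monic := hG.map _
  have hWn : W.natDegree = G.natDegree := hG.natDegree_map _
  have hWB : W ∣ B - C (B.eval x0) := by
    rw [← dl_map_eval, hU, Polynomial.map_mul]; exact dvd_mul_right _ _
  have hWD : W ∣ D - C (D.eval x0) := by
    rw [← dl_map_eval, hV, Polynomial.map_mul]; exact dvd_mul_right _ _
  have hWsep : W.Separable := hsep.of_dvd hWB
  have hcard : W.roots.toFinset.card = G.natDegree := by
    rw [Multiset.toFinset_card_of_nodup (nodup_roots hWsep), ← hWn]
    exact (IsAlgClosed.splits W).natDegree_eq_card_roots.symm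
  have key : ∀ y ∈ W.roots.toFinset, ∀ j, (G.coeff j).eval y = (G.coeff j).eval x0 := by
    intro y hy j
    rw [Multiset.mem_toFinset, mem_roots hWm.ne_zero] at hy
    have hyB : B.eval y = B.eval x0 := by
      have := hy.dvd hWB
      rwa [IsRoot.def, eval_sub, eval_C, sub_eq_zero] at this
    have hyD : D.eval y = D.eval x0 := by
      have := hy.dvd hWD
      rwa [IsRoot.def, eval_sub, eval_C, sub_eq_zero] at this
    have h1 : G.map (evalRingHom y) ∣ B - C (B.eval x0) := by
      rw [← hyB, ← dl_map_eval, hU, Polynomial.map_mul]; exact dvd_mul_right _ _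
    have h2 : G.map (evalRingHom y) ∣ D - C (D.eval x0) := by
      rw [← hyD, ← dl_map_eval, hV, Polynomial.map_mul]; exact dvd_mul_right _ _
    have h3 := congrArg (Polynomial.map (evalRingHom x0)) hbez
    rw [Polynomial.map_mul, Polynomial.map_add, Polynomial.map_mul, Polynomial.map_mul,
      dl_map_eval, dl_map_eval, map_C, ← hW] at h3
    have h4 : G.map (evalRingHom y) ∣ C (c.eval x0) * W := by
      have : C (c.eval x0) * W = _ := h3
      rw [this]
      exact dvd_add (h1.mul_left _) (h2.mul_left _)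
    have hu : IsUnit (C (c.eval x0) : K[X]) := isUnit_C.mpr (isUnit_iff_ne_zero.mpr hcx)
    rw [hu.dvd_mul_left] at h4
    have h5 : W = G.map (evalRingHom y) := by
      refine eq_of_monic_of_dvd_of_natDegree_le (hG.map _) hWm h4 ?_
      rw [hWn, hG.natDegree_map]
    have h6 := congrArg (fun p => coeff p j) h5
    simp only [hW, coeff_map, coe_evalRingHom] at h6
    exact h6.symm
  have hGW : G = dl W := by
    ext1 j
    have hWj : W.coeff j = (G.coeff j).eval x0 := by rw [hW, coeff_map]; rfl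
    rw [dl_coeff, hWj]
    by_cases hj : j = 0
    · subst hj
      rw [if_pos rfl]
      have h1 : G.coeff 0 - C ((G.coeff 0).eval x0) + W = 0 := by
        apply eq_zero_of_degree_lt_of_eval_finset_eq_zero W.roots.toFinset
        · rw [hcard, degree_lt_iff_coeff_zero]
          intro m hm
          rw [coeff_add, coeff_sub, coeff_C, if_neg (by omega), sub_zero]
          rcases Nat.eq_or_lt_of_le hm with h2 | h2
          · have h3 : W.coeff m = 1 := by rw [← h2, ← hWn]; exact hWm
            rw [h3, ← h2, h0]; ring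
          · rw [htop m 0 (by omega), coeff_eq_zero_of_natDegree_lt (by omega)]; ring
        · intro y hy
          have hy' := hy
          rw [Multiset.mem_toFinset, mem_roots hWm.ne_zero, IsRoot.def] at hy'
          rw [eval_add, eval_sub, eval_C, key y hy 0, hy']; ring
      linear_combination h1
    · rw [if_neg hj, sub_zero]
      have h1 : G.coeff j - C ((G.coeff j).eval x0) = 0 := by
        apply eq_zero_of_degree_lt_of_eval_finset_eq_zero W.roots.toFinset
        · rw [hcard, degree_lt_iff_coeff_zero]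
          intro m hm
          rw [coeff_sub, coeff_C, if_neg (by omega), sub_zero]
          exact htop m j (by omega)
        · intro y hy
          rw [eval_sub, eval_C, key y hy j]; ring
      exact sub_eq_zero.mp h1
  refine ⟨W, hWm, by rw [hWn, hgn], ?_, ?_⟩
  · rw [← hGW, hU]; exact dvd_mul_right _ _
  · rw [← hGW, hV]; exact dvd_mul_right _ _

theorem dl_dvd_comp {W : K[X]} (hW : W.Monic) (hw : W.natDegree ≠ 0) (n : ℕ) :
    ∀ B : K[X], B.natDegree ≤ n → dl W ∣ dl B → ∃ B' : K[X], B = B'.comp W := by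
  induction n with
  | zero =>
    intro B hB _
    refine ⟨B, ?_⟩
    rw [eq_C_of_natDegree_le_zero hB, C_comp]
  | succ n ih =>
    intro B hB hdvd
    have h1 : W - C (W.eval 0) ∣ B - C (B.eval 0) := by
      obtain ⟨Z, hZ⟩ := hdvd
      rw [← dl_map_eval, ← dl_map_eval, hZ, Polynomial.map_mul]
      exact dvd_mul_right _ _
    obtain ⟨B1, hB1⟩ := h1
    have hWc : (W - C (W.eval 0)).natDegree = W.natDegree := natDegree_sub_C
    have hW0 : W - C (W.eval 0) ≠ 0 := by
      intro h0; rw [h0] at hWc; simp at hWc; exact hw hWc.symm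
    have hB2 : B = C (B.eval 0) + (W - C (W.eval 0)) * B1 := by rw [← hB1]; ring
    have hdW : dl (W - C (W.eval 0)) = dl W := by
      unfold dl
      rw [Polynomial.map_sub, map_C, C_sub]; ring
    have h2 : dl B = dl W * B1.map C + C (W - C (W.eval 0)) * dl B1 := by
      conv_lhs => rw [hB2, dl_add, dl_C, zero_add, dl_mul, hdW]
    have h3 : dl W ∣ dl B1 := by
      apply mon_dvd (dl_monic hW hw) hW0
      rw [h2] at hdvd
      exact (dvd_add_right (dvd_mul_right _ _)).mp hdvd
    by_cases hB10 : B1 = 0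
    · refine ⟨C (B.eval 0), ?_⟩
      rw [hB10, mul_zero, add_zero] at hB2
      rw [C_comp]; exact hB2
    have h4 : B1.natDegree ≤ n := by
      have h5 : (B - C (B.eval 0)).natDegree = B.natDegree := natDegree_sub_C
      rw [hB1, natDegree_mul hW0 hB10, hWc] at h5
      omega
    obtain ⟨B', hB'⟩ := ih B1 h4 h3
    refine ⟨C (B.eval 0) + (X - C (W.eval 0)) * B', ?_⟩
    rw [add_comp, mul_comp, sub_comp, X_comp, C_comp, C_comp, ← hB']
    exact hB2

/-- The greatest common right factor of two right factors of a polynomial. -/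
theorem exists_comp_gcd [CharZero K] [IsAlgClosed K] {A B E D : K[X]}
    (hb : B.natDegree ≠ 0) (he : D.natDegree ≠ 0) (h : A.comp B = E.comp D)
    (hN : (A.comp B).natDegree ≠ 0) :
    ∃ W B' D' : K[X], W.natDegree = Nat.gcd B.natDegree D.natDegree ∧ B = B'.comp W ∧
      D = D'.comp W := by
  have hB0 : B.leadingCoeff ≠ 0 := by
    rw [leadingCoeff_ne_zero]; rintro rfl; simp at hb
  have hD0 : D.leadingCoeff ≠ 0 := by
    rw [leadingCoeff_ne_zero]; rintro rfl; simp at he
  have e1 : A.comp B = (A.comp (C B.leadingCoeff * X)).comp (C B.leadingCoeff⁻¹ * B) := by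
    rw [comp_assoc, mul_comp, C_comp, X_comp, ← mul_assoc, ← C_mul, mul_inv_cancel₀ hB0, C_1,
      one_mul]
  have e2 : E.comp D = (E.comp (C D.leadingCoeff * X)).comp (C D.leadingCoeff⁻¹ * D) := by
    rw [comp_assoc, mul_comp, C_comp, X_comp, ← mul_assoc, ← C_mul, mul_inv_cancel₀ hD0, C_1,
      one_mul]
  have m1 : (C B.leadingCoeff⁻¹ * B).Monic := by
    rw [Monic, leadingCoeff_mul, leadingCoeff_C, inv_mul_cancel₀ hB0]
  have m2 : (C D.leadingCoeff⁻¹ * D).Monic := by
    rw [Monic, leadingCoeff_mul, leadingCoeff_C, inv_mul_cancel₀ hD0]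
  have n1 : (C B.leadingCoeff⁻¹ * B).natDegree = B.natDegree :=
    natDegree_C_mul (inv_ne_zero hB0)
  have n2 : (C D.leadingCoeff⁻¹ * D).natDegree = D.natDegree :=
    natDegree_C_mul (inv_ne_zero hD0)
  have h' := h
  rw [e1, e2] at h'
  rw [e1] at hN
  obtain ⟨W, hWm, hWn, hWB, hWD⟩ := step3 m1 m2 (by rwa [n1]) (by rwa [n2]) h' hN
  rw [n1, n2] at hWn
  have hWn0 : W.natDegree ≠ 0 := by rw [hWn]; exact Nat.gcd_ne_zero_left hb
  obtain ⟨B', hB'⟩ := dl_dvd_comp hWm hWn0 _ _ le_rfl hWB
  obtain ⟨D', hD'⟩ := dl_dvd_comp hWm hWn0 _ _ le_rfl hWD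
  refine ⟨W, C B.leadingCoeff * B', C D.leadingCoeff * D', hWn, ?_, ?_⟩
  · rw [mul_comp, C_comp, ← hB', ← mul_assoc, ← C_mul, mul_inv_cancel₀ hB0, C_1, one_mul]
  · rw [mul_comp, C_comp, ← hD', ← mul_assoc, ← C_mul, mul_inv_cancel₀ hD0, C_1, one_mul]

/-- Right factors of the same degree agree up to an affine polynomial. -/
theorem same_deg [CharZero K] [IsAlgClosed K] {A B E D : K[X]}
    (hb : B.natDegree ≠ 0) (hbd : B.natDegree = D.natDegree) (h : A.comp B = E.comp D)
    (hN : (A.comp B).natDegree ≠ 0) : ∃ l : K[X], l.natDegree = 1 ∧ D = l.comp B := by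
  obtain ⟨W, B', D', hW, hB', hD'⟩ := exists_comp_gcd hb (hbd ▸ hb) h hN
  rw [← hbd, Nat.gcd_self] at hW
  have h1 : B'.natDegree = 1 := by
    have := congrArg natDegree hB'
    rw [natDegree_comp, hW] at this
    exact Nat.eq_of_mul_eq_mul_right (Nat.pos_of_ne_zero hb) (by rw [one_mul]; exact this.symm)
  have h2 : D'.natDegree = 1 := by
    have := congrArg natDegree hD'
    rw [natDegree_comp, hW, ← hbd] at this
    exact Nat.eq_of_mul_eq_mul_right (Nat.pos_of_ne_zero hb) (by rw [one_mul]; exact this.symm)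
  obtain ⟨m, hm, hm1, hm2⟩ := aff_inv h1
  refine ⟨D'.comp m, by rw [natDegree_comp, h2, hm], ?_⟩
  rw [hD', hB', comp_assoc, ← comp_assoc m, hm2, X_comp]

end Iw
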