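import Pool.Agent.Helper88.IwRam

open Polynomial

namespace Iw

variable {K : Type*} [Field K]

/-- The map `K[y][x] → K[z]`, `y ↦ p(z)`, `x ↦ R(z)`. -/
noncomputable def phi (p R : K[X]) : K[X][X] →+* K[X] := eval₂RingHom (compRingHom p) R

theorem phi_C (p R f : K[X]) : phi p R (C f) = f.comp p := by
  unfold phi
  rw [coe_eval₂RingHom, eval₂_C, coe_compRingHom_apply]

theorem phi_map (p R f : K[X]) : phi p R (f.map C) = f.comp R := by
  unfold phi
  rw [coe_eval₂RingHom, eval₂_map]
  have : (compRingHom p).comp (C : K →+* K[X]) = C := by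
    ext x; simp
  rw [this]; rfl

theorem phi_low {p R : K[X]} (hp : p.natDegree ≠ 0) (hR : R.natDegree ≠ 0)
    (hcop : Nat.Coprime R.natDegree p.natDegree)
    {r : K[X][X]} (hr : r.natDegree < p.natDegree) (h : phi p R r = 0) : r = 0 := by
  classical
  by_contra hne
  have hR0 : R ≠ 0 := by rintro rfl; simp at hR
  have h1 : phi p R r = ∑ i ∈ Finset.range p.natDegree, (r.coeff i).comp p * R ^ i := by
    unfold phi
    rw [coe_eval₂RingHom, eval₂_eq_sum_range' (compRingHom p) hr R]
    rfl
  have hcomp0 : ∀ f : K[X], f ≠ 0 → f.comp p ≠ 0 := by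
    intro f hf h0
    rcases comp_eq_zero_iff.mp h0 with h1 | ⟨_, h2⟩
    · exact hf h1
    · exact hp (by rw [h2]; exact natDegree_C _)
  have hpair : Set.Pairwise {i | i ∈ Finset.range p.natDegree ∧ (r.coeff i).comp p * R ^ i ≠ 0}
      (Function.onFun Ne (degree ∘ fun i => (r.coeff i).comp p * R ^ i)) := by
    rintro i ⟨hi, hi0⟩ j ⟨hj, hj0⟩ hij
    rw [Finset.mem_range] at hi hj
    simp only [Function.onFun, Function.comp]
    intro heq
    have h2 := natDegree_eq_of_degree_eq heq
    rw [natDegree_mul (left_ne_zero_of_mul hi0) (right_ne_zero_of_mul hi0),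
      natDegree_mul (left_ne_zero_of_mul hj0) (right_ne_zero_of_mul hj0), natDegree_comp,
      natDegree_comp, natDegree_pow, natDegree_pow] at h2
    have h3 : i * R.natDegree ≡ j * R.natDegree [MOD p.natDegree] := by
      have e1 : (r.coeff i).natDegree * p.natDegree + i * R.natDegree ≡
          0 + i * R.natDegree [MOD p.natDegree] :=
        Nat.ModEq.add_right _ (Nat.modEq_zero_iff_dvd.mpr (dvd_mul_left _ _))
      have e2 : (r.coeff j).natDegree * p.natDegree + j * R.natDegree ≡
          0 + j * R.natDegree [MOD p.natDegree] :=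
        Nat.ModEq.add_right _ (Nat.modEq_zero_iff_dvd.mpr (dvd_mul_left _ _))
      rw [zero_add] at e1 e2
      rw [h2] at e1
      exact e1.symm.trans e2
    have h4 : i ≡ j [MOD p.natDegree] :=
      Nat.ModEq.cancel_right_of_coprime hcop.symm h3
    exact hij (Nat.ModEq.eq_of_lt_of_lt h4 hi hj)
  have h2 := degree_sum_eq_of_disjoint (fun i => (r.coeff i).comp p * R ^ i)
    (Finset.range p.natDegree) hpair
  rw [← h1, h, degree_zero] at h2
  have h3 : ((r.coeff r.natDegree).comp p * R ^ r.natDegree).degree ≤
      (Finset.range p.natDegree).sup fun i => degree ((r.coeff i).comp p * R ^ i) :=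
    Finset.le_sup (f := fun i => degree ((r.coeff i).comp p * R ^ i)) (Finset.mem_range.mpr hr)
  rw [← h2, le_bot_iff, degree_eq_bot] at h3
  exact mul_ne_zero (hcomp0 _ (leadingCoeff_ne_zero.mpr hne)) (pow_ne_zero _ hR0) h3

/-- Surjectivity onto the curve `p(x) = S(y)`. -/
theorem surj [IsAlgClosed K] {p R S : K[X]} (hp : p.natDegree ≠ 0) (hS : S.natDegree ≠ 0)
    (h : p.comp R = S.comp p) (hcop : Nat.Coprime S.natDegree p.natDegree) {w y : K}
    (hwy : p.eval w = S.eval y) : ∃ z : K, R.eval z = w ∧ p.eval z = y := by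
  classical
  have hRS : R.natDegree = S.natDegree := Semi.natDegree ⟨p, hp, h⟩
  have hpl : p.leadingCoeff ≠ 0 := by
    rw [leadingCoeff_ne_zero]; rintro rfl; simp at hp
  set a : K := p.leadingCoeff⁻¹ with ha
  have ha0 : a ≠ 0 := inv_ne_zero hpl
  set pm : K[X] := C a * p with hpm
  have hpmM : pm.Monic := by
    rw [Monic, hpm, leadingCoeff_mul, leadingCoeff_C, ha, inv_mul_cancel₀ hpl]
  have hpmn : pm.natDegree = p.natDegree := natDegree_C_mul ha0
  set Q : K[X][X] := pm.map C - C (C a * S) with hQ
  have hQM : Q.Monic := by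
    apply (hpmM.map C).sub_of_left
    rw [degree_map_eq_of_injective C_injective]
    refine lt_of_le_of_lt degree_C_le ?_
    rw [← natDegree_pos_iff_degree_pos, hpmn]
    exact Nat.pos_of_ne_zero hp
  have hQn : Q.natDegree = p.natDegree := by
    rw [hQ, natDegree_sub_C, natDegree_map_eq_of_injective C_injective, hpmn]
  have hphiQ : phi p R Q = 0 := by
    rw [hQ, map_sub, phi_map, phi_C, hpm, mul_comp, mul_comp, C_comp, C_comp, h, sub_self]
  -- kernel
  have hker : ∀ G : K[X][X], phi p R G = 0 → Q ∣ G := by
    intro G hG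
    rw [← modByMonic_eq_zero_iff_dvd hQM]
    apply phi_low hp (by rw [hRS]; exact hS) (by rw [hRS]; exact hcop)
    · rw [← hQn]
      exact natDegree_modByMonic_lt _ hQM (by
        intro h1
        rw [h1, natDegree_one] at hQn
        exact hp hQn.symm)
    · have := congrArg (phi p R) (modByMonic_add_div G Q)
      rw [map_add, map_mul, hphiQ, zero_mul, add_zero, hG] at this
      exact this
  -- evaluation
  set ev : K[X][X] →+* K := eval₂RingHom (evalRingHom y) w with hev
  have hevC : ∀ f : K[X], ev (C f) = f.eval y := by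
    intro f; rw [hev, coe_eval₂RingHom, eval₂_C]; rfl
  have hevmap : ∀ f : K[X], ev (f.map C) = f.eval w := by
    intro f
    rw [hev, coe_eval₂RingHom, eval₂_map]
    have : (evalRingHom y).comp (C : K →+* K[X]) = RingHom.id K := by
      ext x; simp
    rw [this]; rfl
  have hevQ : ev Q = 0 := by
    rw [hQ, map_sub, hevmap, hevC, hpm, eval_mul, eval_mul, eval_C, eval_C, hwy, sub_self]
  have hevsurj : Function.Surjective ev := by
    intro c
    exact ⟨C (C c), by rw [hevC, eval_C]⟩
  have hmax : (RingHom.ker ev).IsMaximal := RingHom.ker_isMaximal_of_surjective ev hevsurj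
  let _ : Algebra K[X][X] K[X] := (phi p R).toAlgebra
  have halg : algebraMap K[X][X] K[X] = phi p R := rfl
  have hintX : (phi p R).IsIntegralElem X := by
    refine ⟨(pm.map (C : K →+* K[X])).map (C : K[X] →+* K[X][X]) - C (C (C a * X)), ?_, ?_⟩
    · apply ((hpmM.map C).map C).sub_of_left
      rw [degree_map_eq_of_injective C_injective, degree_map_eq_of_injective C_injective]
      refine lt_of_le_of_lt degree_C_le ?_
      rw [← natDegree_pos_iff_degree_pos, hpmn]
      exact Nat.pos_of_ne_zero hp
    · rw [eval₂_sub, eval₂_C, phi_C, mul_comp, C_comp, X_comp, eval₂_map, eval₂_map]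
      have : ((phi p R).comp (C : K[X] →+* K[X][X])).comp (C : K →+* K[X]) = C := by
        ext x
        simp [phi_C]
      rw [this, ← Polynomial.comp, comp_X, hpm, sub_self]
  have hint : (phi p R).IsIntegral := by
    intro f
    induction f using Polynomial.induction_on' with
    | add f g hf hg => exact hf.add _ hg
    | monomial n c =>
      rw [← C_mul_X_pow_eq_monomial]
      apply RingHom.IsIntegralElem.mul
      · have : C c = phi p R (C (C c)) := by rw [phi_C, C_comp]
        rw [this]
        exact RingHom.isIntegralElem_map _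
      · induction n with
        | zero =>
          rw [pow_zero]
          exact RingHom.isIntegralElem_one _
        | succ n ih =>
          rw [pow_succ]
          exact ih.mul _ hintX
  have hAint : Algebra.IsIntegral K[X][X] K[X] := ⟨hint⟩
  obtain ⟨I, hI, hIc⟩ := Ideal.exists_ideal_over_maximal_of_isIntegral
    (R := K[X][X]) (S := K[X]) (RingHom.ker ev) (by
      intro G hG
      rw [halg, RingHom.mem_ker] at hG
      obtain ⟨Z, hZ⟩ := hker G hG
      rw [RingHom.mem_ker, hZ, map_mul, hevQ, zero_mul])
  have hmem : ∀ G : K[X][X], ev G = 0 → phi p R G ∈ I := by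
    intro G hG
    have h1 : G ∈ RingHom.ker ev := RingHom.mem_ker.mpr hG
    rw [← hIc, Ideal.mem_comap] at h1
    exact h1
  have hpy : p - C y ∈ I := by
    have h1 := hmem (C (X - C y)) (by rw [hevC, eval_sub, eval_X, eval_C, sub_self])
    rwa [phi_C, sub_comp, X_comp, C_comp] at h1
  have hRw : R - C w ∈ I := by
    have h1 := hmem ((X - C w : K[X]).map C) (by rw [hevmap, eval_sub, eval_X, eval_C, sub_self])
    rwa [phi_map, sub_comp, X_comp, C_comp] at h1
  -- a root
  have hsplit : (p - C y) = C (p - C y).leadingCoeff *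
      ((p - C y).roots.map fun z => X - C z).prod := (IsAlgClosed.splits (p - C y)).eq_prod_roots
  have hpy0 : p - C y ≠ 0 := sub_C_ne_zero' hp y
  have hexz : ∃ z ∈ (p - C y).roots, X - C z ∈ I := by
    rw [hsplit] at hpy
    rcases hI.isPrime.mem_or_mem hpy with h1 | h1
    · exfalso
      apply hI.ne_top
      apply Ideal.eq_top_of_isUnit_mem _ h1
      exact isUnit_C.mpr (isUnit_iff_ne_zero.mpr (leadingCoeff_ne_zero.mpr hpy0))
    · rw [hI.isPrime.multiset_prod_mem_iff_exists_mem] at h1
      obtain ⟨f, hf, hfI⟩ := h1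
      obtain ⟨z, hz, rfl⟩ := Multiset.mem_map.mp hf
      exact ⟨z, hz, hfI⟩
  obtain ⟨z, hz, hzI⟩ := hexz
  refine ⟨z, ?_, ?_⟩
  · by_contra hne
    apply hI.ne_top
    have h1 : C (R.eval z - w) ∈ I := by
      have h2 : R - C (R.eval z) ∈ I := by
        obtain ⟨Z, hZ⟩ := X_sub_C_dvd_sub_C_eval (a := z) (p := R)
        rw [hZ]
        exact I.mul_mem_right _ hzI
      have h3 := I.sub_mem hRw h2
      have h4 : R - C w - (R - C (R.eval z)) = C (R.eval z - w) := by rw [C_sub]; ring
      rwa [h4] at h3
    apply Ideal.eq_top_of_isUnit_mem _ h1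
    exact isUnit_C.mpr (isUnit_iff_ne_zero.mpr (sub_ne_zero.mpr hne))
  · rw [mem_roots hpy0, IsRoot.def, eval_sub, eval_C, sub_eq_zero] at hz
    exact hz

/-- Classification of semiconjugacies of degree prime to the degree of the maps. -/
theorem classify [CharZero K] [IsAlgClosed K] {p R S : K[X]} (hp : p.natDegree ≠ 0)
    (hS : 2 ≤ S.natDegree)
    (h : p.comp R = S.comp p) (hcop : Nat.Coprime S.natDegree p.natDegree) :
    (∃ a b c : K, a ≠ 0 ∧ p = C a * (X - C c) ^ p.natDegree + C b) ∨ ∃ B : Finset K, Exc S B := by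
  classical
  set B : Finset K := (derivative p).roots.toFinset.image (fun t => p.eval t) with hB
  have hBm : ∀ t : K, (derivative p).eval t = 0 → p.eval t ∈ B := by
    intro t ht
    rw [hB, Finset.mem_image]
    exact ⟨t, by rw [Multiset.mem_toFinset, mem_roots (der_ne_zero hp)]; exact ht, rfl⟩
  have hcond : ∀ t, t ∉ B → S.eval t ∈ B → 2 ≤ ram S t := by
    intro y hy hSy
    rw [hB, Finset.mem_image] at hSy
    obtain ⟨w, hw, hwS⟩ := hSy
    rw [Multiset.mem_toFinset, mem_roots (der_ne_zero hp)] at hw
    obtain ⟨z, hz1, hz2⟩ := surj hp (by omega) h hcop hwS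
    have h4 : ram p (R.eval z) * ram R z = ram S (p.eval z) * ram p z := by
      have hRS : R.natDegree = S.natDegree := Semi.natDegree ⟨p, hp, h⟩
      rw [← ram_comp (by rw [natDegree_comp]; exact mul_ne_zero hp (by omega)), h,
        ram_comp (by rw [natDegree_comp]; exact mul_ne_zero (by omega) hp)]
    rw [hz1, hz2] at h4
    have h5 : ram p z = 1 := by
      have h6 : ¬ (derivative p).IsRoot z := by
        intro h7
        have := hBm z h7
        rw [hz2] at this
        exact hy this
      unfold ram
      rw [rootMultiplicity_eq_zero h6]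
    rw [h5, mul_one] at h4
    have h6 : 2 ≤ ram p w := by
      have := (rootMultiplicity_pos (der_ne_zero hp)).mpr hw
      unfold ram; omega
    have h7 : 1 ≤ ram R z := Nat.le_add_left 1 _
    rw [← h4]
    calc 2 = 2 * 1 := rfl
      _ ≤ ram p w * ram R z := Nat.mul_le_mul h6 h7
  obtain ⟨hB2, hBexc⟩ := exc_lemma hS B hcond
  by_cases hc : B.card = 2
  · exact Or.inr ⟨B, hBexc hc⟩
  · left
    have hB1 : B.card ≤ 1 := by omega
    obtain ⟨b, hb⟩ : ∃ b : K, ∀ t ∈ (derivative p).roots, p.eval t = b := by
      rw [Finset.card_le_one_iff_subset_singleton] at hB1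
      obtain ⟨b, hb⟩ := hB1
      refine ⟨b, fun t ht => ?_⟩
      have : p.eval t ∈ B := hBm t ((mem_roots (der_ne_zero hp)).mp ht)
      exact Finset.mem_singleton.mp (hb this)
    have h1 := sum_ram_fib hp {b}
    have h2 : ∑ t ∈ fib p {b}, (derivative p).rootMultiplicity t = p.natDegree - 1 := by
      have h3 : ∑ t ∈ fib p {b}, (derivative p).roots.count t =
          Multiset.card (derivative p).roots := by
        apply Multiset.sum_count_eq_card
        intro a ha
        rw [mem_fib hp, hb a ha, Finset.mem_singleton]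
      rw [← (IsAlgClosed.splits (derivative p)).natDegree_eq_card_roots,
        natDegree_derivative] at h3
      rw [← h3]
      apply Finset.sum_congr rfl
      intro t _
      rw [count_roots]
    have h3 : (fib p {b}).card = 1 := by
      have h4 : ∑ t ∈ fib p {b}, ram p t =
          ∑ t ∈ fib p {b}, (derivative p).rootMultiplicity t + (fib p {b}).card := by
        unfold ram
        rw [Finset.sum_add_distrib, Finset.sum_const, smul_eq_mul, mul_one]
      rw [h1, h2, Finset.card_singleton, one_mul] at h4
      omega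
    obtain ⟨c, hcf⟩ := Finset.card_eq_one.mp h3
    have hroots : (p - C b).roots = Multiset.replicate p.natDegree c := by
      rw [Multiset.eq_replicate]
      constructor
      · rw [← (IsAlgClosed.splits (p - C b)).natDegree_eq_card_roots, natDegree_sub_C]
      · intro t ht
        have : t ∈ fib p {b} := by
          rw [mem_fib hp, Finset.mem_singleton]
          rw [mem_roots (sub_C_ne_zero' hp b), IsRoot.def, eval_sub, eval_C, sub_eq_zero] at ht
          exact ht
        rw [hcf, Finset.mem_singleton] at this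
        exact this
    have h5 : (p - C b) = C (p - C b).leadingCoeff *
      ((p - C b).roots.map fun z => X - C z).prod := (IsAlgClosed.splits (p - C b)).eq_prod_roots
    rw [hroots, Multiset.map_replicate, Multiset.prod_replicate] at h5
    refine ⟨(p - C b).leadingCoeff, b, c, leadingCoeff_ne_zero.mpr (sub_C_ne_zero' hp b), ?_⟩
    rw [← h5]; ring

end Iw
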