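import Pool.Agent.Helper88.IwCheb

open Polynomial

namespace Iw

variable {K : Type*} [Field K] [CharZero K]

theorem geom_natDegree {f g : K[X]} {m D : ℕ} (hD : D ≠ 0) (hf : f.natDegree = m)
    (hg : g.natDegree = m) (hf0 : f ≠ 0) (hl : f.leadingCoeff = g.leadingCoeff) :
    (D - 1) * m ≤ (∑ i ∈ Finset.range D, f ^ i * g ^ (D - 1 - i)).natDegree := by
  have hg0 : g ≠ 0 := by
    rw [← leadingCoeff_ne_zero, ← hl]; exact leadingCoeff_ne_zero.mpr hf0
  apply le_natDegree_of_ne_zero
  rw [finsetSum_coeff]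
  have h1 : ∀ i ∈ Finset.range D, (f ^ i * g ^ (D - 1 - i)).coeff ((D - 1) * m) =
      f.leadingCoeff ^ (D - 1) := by
    intro i hi
    rw [Finset.mem_range] at hi
    have hn : (f ^ i * g ^ (D - 1 - i)).natDegree = (D - 1) * m := by
      rw [natDegree_mul (pow_ne_zero _ hf0) (pow_ne_zero _ hg0), natDegree_pow, natDegree_pow, hf,
        hg, ← add_mul]
      congr 1; omega
    rw [← hn]
    have : (f ^ i * g ^ (D - 1 - i)).coeff (f ^ i * g ^ (D - 1 - i)).natDegree =
        (f ^ i * g ^ (D - 1 - i)).leadingCoeff := rfl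
    rw [this, leadingCoeff_mul, leadingCoeff_pow, leadingCoeff_pow, ← hl, ← pow_add]
    congr 1; omega
  rw [Finset.sum_congr rfl h1, Finset.sum_const, Finset.card_range, nsmul_eq_mul]
  exact mul_ne_zero (by exact_mod_cast hD) (pow_ne_zero _ (leadingCoeff_ne_zero.mpr hf0))

/-- Uniqueness of semiconjugacies of a given degree out of `R`. -/
theorem uniq {p p' R S S' : K[X]} (hp : p.natDegree ≠ 0) (hpp : p'.natDegree = p.natDegree)
    (hR : 2 ≤ R.natDegree) (h : p.comp R = S.comp p) (h' : p'.comp R = S'.comp p') :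
    ∃ a b : K, p' = C a * p + C b := by
  have hp0 : p ≠ 0 := by rintro rfl; simp at hp
  have hp'0 : p' ≠ 0 := by rintro rfl; rw [natDegree_zero] at hpp; exact hp hpp.symm
  have hl : p.leadingCoeff ≠ 0 := leadingCoeff_ne_zero.mpr hp0
  have hl' : p'.leadingCoeff ≠ 0 := leadingCoeff_ne_zero.mpr hp'0
  set a : K := p'.leadingCoeff / p.leadingCoeff with ha
  have ha0 : a ≠ 0 := div_ne_zero hl' hl
  set δ : K[X] := p' - C a * p with hδ
  have hSd : S.natDegree = R.natDegree := (Semi.natDegree ⟨p, hp, h⟩).symm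
  have hSd' : S'.natDegree = R.natDegree := (Semi.natDegree ⟨p', by rw [hpp]; exact hp, h'⟩).symm
  have halc : (C a * p).leadingCoeff = p'.leadingCoeff := by
    rw [leadingCoeff_mul, leadingCoeff_C, ha, div_mul_cancel₀ _ hl]
  by_cases hδ0 : δ.natDegree = 0
  · refine ⟨a, δ.coeff 0, ?_⟩
    rw [← eq_C_of_natDegree_eq_zero hδ0, hδ]; ring
  exfalso
  have hδne : δ ≠ 0 := by rintro h0; rw [h0] at hδ0; simp at hδ0
  have hap0 : C a * p ≠ 0 := mul_ne_zero (C_ne_zero.mpr ha0) hp0
  have hapd : (C a * p).natDegree = p.natDegree := natDegree_C_mul ha0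
  -- degree of δ
  have hδlt : δ.natDegree < p.natDegree := by
    have e1 : p'.degree = (C a * p).degree := by
      rw [degree_eq_natDegree hp'0, degree_eq_natDegree hap0, hapd, hpp]
    have := degree_sub_lt_left e1 hp'0 halc.symm
    rw [← hδ] at this
    have h2 := natDegree_lt_natDegree hδne this
    omega
  -- relation of leading coefficients
  have hRlc : S'.leadingCoeff * a ^ R.natDegree = a * S.leadingCoeff := by
    have h1 := congrArg leadingCoeff h
    have h2 := congrArg leadingCoeff h'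
    rw [leadingCoeff_comp (by omega), leadingCoeff_comp hp, hSd] at h1
    rw [leadingCoeff_comp (by omega), leadingCoeff_comp (by omega), hSd', hpp] at h2
    have h3 : p'.leadingCoeff = a * p.leadingCoeff := by rw [ha, div_mul_cancel₀ _ hl]
    rw [h3] at h2
    have h4 : p.leadingCoeff ^ R.natDegree ≠ 0 := pow_ne_zero _ hl
    apply mul_right_cancel₀ h4
    rw [mul_pow] at h2
    linear_combination a * h1 - h2
  obtain ⟨D, hD⟩ : ∃ D, R.natDegree = D := ⟨_, rfl⟩
  rw [hD] at hSd hSd' hRlc hR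
  set m := p.natDegree with hm
  -- decompositions
  have hS1 : S = C S.leadingCoeff * X ^ D + S.eraseLead := by
    conv_lhs => rw [← eraseLead_add_C_mul_X_pow S, hSd]
    rw [add_comm]
  have hS1' : S' = C S'.leadingCoeff * X ^ D + S'.eraseLead := by
    conv_lhs => rw [← eraseLead_add_C_mul_X_pow S', hSd']
    rw [add_comm]
  have hE : S.eraseLead.natDegree ≤ D - 1 := by rw [← hSd]; exact eraseLead_natDegree_le S
  have hE' : S'.eraseLead.natDegree ≤ D - 1 := by rw [← hSd']; exact eraseLead_natDegree_le S'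
  have hkey : C S'.leadingCoeff * (p' ^ D - (C a * p) ^ D) =
      δ.comp R - S'.eraseLead.comp p' + C a * S.eraseLead.comp p := by
    have e1 : δ.comp R = S'.comp p' - C a * S.comp p := by
      rw [hδ, sub_comp, mul_comp, C_comp, h, h']
    have e2 : S'.comp p' = C S'.leadingCoeff * p' ^ D + S'.eraseLead.comp p' := by
      conv_lhs => rw [hS1']
      rw [add_comp, mul_comp, C_comp, pow_comp, X_comp]
    have e3 : S.comp p = C S.leadingCoeff * p ^ D + S.eraseLead.comp p := by
      conv_lhs => rw [hS1]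
      rw [add_comp, mul_comp, C_comp, pow_comp, X_comp]
    have e4 : (C S'.leadingCoeff * C a ^ D : K[X]) = C a * C S.leadingCoeff := by
      rw [← C_pow, ← C_mul, ← C_mul, hRlc]
    rw [e1, e2, e3, mul_pow]
    linear_combination (-p ^ D) * e4
  have hup : (δ.comp R - S'.eraseLead.comp p' + C a * S.eraseLead.comp p).natDegree ≤
      max (δ.natDegree * D) ((D - 1) * m) := by
    refine (natDegree_add_le _ _).trans (max_le ((natDegree_sub_le _ _).trans (max_le ?_ ?_)) ?_)
    · rw [natDegree_comp, hD]; exact le_max_left _ _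
    · rw [natDegree_comp, hpp]
      exact (Nat.mul_le_mul_right _ hE').trans (le_max_right _ _)
    · refine (natDegree_C_mul_le _ _).trans ?_
      rw [natDegree_comp]
      exact (Nat.mul_le_mul_right _ hE).trans (le_max_right _ _)
  have hS'l : S'.leadingCoeff ≠ 0 := by
    rw [leadingCoeff_ne_zero]; rintro rfl; rw [natDegree_zero] at hSd'; omega
  have hlow : δ.natDegree + (D - 1) * m ≤
      (C S'.leadingCoeff * (p' ^ D - (C a * p) ^ D)).natDegree := by
    rw [natDegree_C_mul hS'l, ← Commute.geom_sum₂_mul (Commute.all p' (C a * p)) D, ← hδ]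
    have hg := geom_natDegree (f := p') (g := C a * p) (m := m) (D := D) (by omega) hpp hapd hp'0
      halc.symm
    have hgne : (∑ i ∈ Finset.range D, p' ^ i * (C a * p) ^ (D - 1 - i)) ≠ 0 := by
      intro h0
      rw [h0, natDegree_zero] at hg
      have : 1 ≤ (D - 1) * m := Nat.one_le_iff_ne_zero.mpr (mul_ne_zero (by omega) hp)
      omega
    rw [natDegree_mul hgne hδne]
    omega
  rw [hkey] at hlow
  have h5 := hlow.trans hup
  obtain ⟨D', rfl⟩ : ∃ D', D = D' + 1 := ⟨D - 1, by omega⟩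
  have h6 : δ.natDegree * (D' + 1) < δ.natDegree + D' * m := by
    have : δ.natDegree * D' < m * D' := Nat.mul_lt_mul_of_pos_right hδlt (by omega)
    nlinarith
  rw [Nat.add_sub_cancel] at h5
  rcases le_max_iff.mp h5 with h7 | h7 <;> omega

theorem Tn_comp_sign (n : ℕ) {ε : K} (hε : ε ^ 2 = 1) :
    ∃ ε' : K, ε' ^ 2 = 1 ∧ (Tn K n).comp (C ε * X) = C ε' * Tn K n := by
  rw [pow_two, mul_self_eq_one_iff] at hε
  rcases hε with rfl | rfl
  · refine ⟨1, by norm_num, ?_⟩
    rw [C_1, one_mul, one_mul, comp_X]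
  · refine ⟨(((n : ℤ).negOnePow : ℤ) : K), ?_, ?_⟩
    · rcases Int.even_or_odd (n : ℤ) with h | h
      · rw [Int.negOnePow_even _ h]; simp
      · rw [Int.negOnePow_odd _ h]; simp
    · apply Polynomial.funext
      intro x
      rw [eval_comp, eval_mul, eval_C, eval_X, eval_mul, eval_C, neg_one_mul]
      exact Chebyshev.T_eval_neg K _ _

/-- Semiconjugacies from a Chebyshev polynomial. -/
theorem cheb_push {p S : K[X]} {D : ℕ} (hD : 2 ≤ D) {ε : K} (hε : ε ^ 2 = 1)
    (hp : p.natDegree ≠ 0) (h : p.comp (C ε * Tn K D) = S.comp p) :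
    ∃ a b ε' : K, a ≠ 0 ∧ ε' ^ 2 = 1 ∧ p = C a * Tn K p.natDegree + C b ∧
      S.comp (C a * X + C b) = (C a * X + C b).comp (C ε' * Tn K D) := by
  obtain ⟨ε', hε', h1⟩ := Tn_comp_sign (K := K) p.natDegree hε
  have hε0 : ε ≠ 0 := by rintro rfl; norm_num at hε
  have h2 : (Tn K p.natDegree).comp (C ε * Tn K D) = (C ε' * Tn K D).comp (Tn K p.natDegree) := by
    have e1 : (C ε * Tn K D : K[X]) = (C ε * X).comp (Tn K D) := by
      rw [mul_comp, C_comp, X_comp]
    rw [e1, ← comp_assoc, h1, mul_comp, C_comp, mul_comp, C_comp, Tn_comm]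
  obtain ⟨a, b, hab⟩ := uniq (p := Tn K p.natDegree) (p' := p) (R := C ε * Tn K D)
    (by rw [Tn_natDegree]; exact hp) (by rw [Tn_natDegree])
    (by rw [natDegree_C_mul hε0, Tn_natDegree]; exact hD) h2 h
  have ha : a ≠ 0 := by
    rintro rfl
    rw [C_0, zero_mul, zero_add] at hab
    apply hp
    rw [hab, natDegree_C]
  refine ⟨a, b, ε', ha, hε', hab, ?_⟩
  apply comp_right_cancel (W := Tn K p.natDegree) (by rw [Tn_natDegree]; exact hp)
  have e2 : (C a * X + C b).comp (Tn K p.natDegree) = p := by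
    rw [add_comp, mul_comp, C_comp, X_comp, C_comp, ← hab]
  rw [comp_assoc, e2, ← h]
  conv_lhs => rw [← e2]
  rw [comp_assoc, h2, ← comp_assoc]

/-- The affine symmetries of Chebyshev polynomials. -/
theorem cheb_aff {D : ℕ} (hD : 2 ≤ D) {ε ε' a b : K} (hε : ε ^ 2 = 1) (ha : a ≠ 0)
    (h : (C ε * Tn K D).comp (C a * X + C b) = (C a * X + C b).comp (C ε' * Tn K D)) :
    b = 0 ∧ a ^ 2 = 1 := by
  have hε0 : ε ≠ 0 := by rintro rfl; norm_num at hε
  obtain ⟨d, rfl⟩ : ∃ d, D = d + 2 := ⟨D - 2, by omega⟩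
  set T := Tn K (d + 2) with hT
  have hTn : T.natDegree = d + 2 := Tn_natDegree _
  have hTl : T.coeff (d + 2) ≠ 0 := by
    have := leadingCoeff_ne_zero.mpr (Tn_ne_zero (K := K) (d + 2))
    rw [leadingCoeff, ← hT, hTn] at this
    exact this
  have hode := ode_coeff (Tn_ode (K := K) (d + 2))
  rw [← hT] at hode
  -- the second coefficient vanishes
  have hT1 : T.coeff (d + 1) = 0 := by
    have h1 := hode (d + 1)
    have e0 : T.coeff (d + 1 + 2) = 0 := coeff_eq_zero_of_natDegree_lt (by omega)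
    rw [e0, mul_zero] at h1
    rcases mul_eq_zero.mp h1 with h2 | h2
    · exfalso
      have h3 : ((2 * d + 3 : ℕ) : K) = 0 := by
        push_cast at h2 ⊢
        linear_combination -h2
      rw [Nat.cast_eq_zero] at h3
      omega
    · exact h2
  have hT2 : T.coeff d ≠ 0 := by
    intro h0
    have h1 := hode d
    rw [h0, mul_zero] at h1
    have h2 : ((d : K) + 2) * ((d : K) + 1) ≠ 0 := by
      have e1 : ((d + 2 : ℕ) : K) ≠ 0 := by rw [Nat.cast_ne_zero]; omega
      have e2 : ((d + 1 : ℕ) : K) ≠ 0 := by rw [Nat.cast_ne_zero]; omega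
      push_cast at e1 e2
      exact mul_ne_zero e1 e2
    exact mul_ne_zero h2 hTl h1.symm
  -- comparison of coefficients
  have hT' : T.comp (C a * X + C b) = (taylor b T).comp (C a * X) := by
    rw [taylor_apply, comp_assoc, add_comp, X_comp, C_comp]
  have hcoef : ∀ j, j ≠ 0 → ε * ((taylor b T).coeff j * a ^ j) = a * (ε' * T.coeff j) := by
    intro j hj
    have h1 := congrArg (fun p => coeff p j) h
    simp only [mul_comp, C_comp, add_comp, X_comp] at h1
    rw [hT', coeff_C_mul, comp_C_mul_X_coeff, coeff_add, coeff_C, if_neg hj, add_zero,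
      coeff_C_mul, coeff_C_mul] at h1
    exact h1
  have hb : b = 0 := by
    have h1 := hcoef (d + 1) (by omega)
    rw [hT1, mul_zero, mul_zero] at h1
    have h2 : (taylor b T).coeff (d + 1) = 0 := by
      rcases mul_eq_zero.mp h1 with h3 | h3
      · exact absurd h3 hε0
      · rcases mul_eq_zero.mp h3 with h4 | h4
        · exact h4
        · exact absurd h4 (pow_ne_zero _ ha)
    have e : T.natDegree - 1 = d + 1 := by omega
    apply center_unique (F := T) (by omega)
    · rw [e]; exact h2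
    · rw [e, taylor_zero]; exact hT1
  refine ⟨hb, ?_⟩
  have h1 := hcoef (d + 2) (by omega)
  rw [hb, taylor_zero] at h1
  have g1 : ε * a ^ (d + 2) = a * ε' := mul_left_cancel₀ hTl (by linear_combination h1)
  have g2 : ε * a ^ d = a * ε' := by
    by_cases hd : d = 0
    · -- constant coefficients
      subst hd
      have h2 := congrArg (eval 0) h
      simp only [eval_comp, eval_add, eval_mul, eval_C, eval_X, mul_zero, hb,
        add_zero] at h2
      rw [← coeff_zero_eq_eval_zero] at h2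
      exact mul_left_cancel₀ hT2 (by linear_combination h2)
    · have h2 := hcoef d hd
      rw [hb, taylor_zero] at h2
      exact mul_left_cancel₀ hT2 (by linear_combination h2)
  have h3 : ε * a ^ d ≠ 0 := mul_ne_zero hε0 (pow_ne_zero _ ha)
  apply mul_left_cancel₀ h3
  rw [mul_one]
  rw [pow_add] at g1
  linear_combination g1 - g2

/-- A polynomial with a Chebyshev iterate is linked to the Chebyshev polynomial. -/
theorem chain_of_cheb_iter {P l m : K[X]} {n : ℕ} (hn : n ≠ 0) (hP : 2 ≤ P.natDegree) {ε : K}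
    (hε : ε ^ 2 = 1) (hl : l.natDegree = 1) (hm : m.natDegree = 1) (hlm : l.comp m = X)
    (hml : m.comp l = X)
    (h : itr P n = l.comp ((C ε * Tn K (P.natDegree ^ n)).comp m)) :
    Chain P (Tn K P.natDegree) := by
  set F : K[X] := C ε * Tn K (P.natDegree ^ n) with hF
  set P' : K[X] := m.comp (P.comp l) with hP'
  have hP'n : P'.natDegree = P.natDegree := by
    rw [hP', natDegree_comp, natDegree_comp, hl, hm]; ring
  have hD : 2 ≤ P.natDegree ^ n := by
    calc 2 ≤ P.natDegree ^ 1 := by rw [pow_one]; exact hP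
      _ ≤ P.natDegree ^ n := Nat.pow_le_pow_right (by omega) (Nat.one_le_iff_ne_zero.mpr hn)
  have hsemi : m.comp P = P'.comp m := by
    rw [hP', comp_assoc, comp_assoc, hlm, comp_X]
  have hit : itr P' n = F := by
    have h1 := itr_semi hsemi n
    rw [h, ← comp_assoc, hml, X_comp] at h1
    exact (comp_right_cancel (by rw [hm]; exact one_ne_zero) h1).symm
  have hcomm : P'.comp F = F.comp P' := by rw [← hit]; exact itr_comm P' n
  obtain ⟨a, b, ε', ha, hε', hPT, hS⟩ := cheb_push hD hε (by rw [hP'n]; omega) hcomm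
  obtain ⟨hb, ha2⟩ := cheb_aff hD hε ha hS
  have hc1 : Semi P P' := ⟨m, by rw [hm]; exact one_ne_zero, hsemi⟩
  have hc2 : Semi P' (Tn K P.natDegree) := by
    refine ⟨Tn K 2, by rw [Tn_natDegree]; exact two_ne_zero, ?_⟩
    rw [hPT, hb, C_0, add_zero, hP'n]
    have e2 : (Tn K 2) = C 2 * X ^ 2 - 1 := by
      have e4 : (C 2 : K[X]) = 2 := map_ofNat C 2
      rw [e4]
      unfold Tn; exact Chebyshev.T_two K
    have e3 : (Tn K 2).comp (C a * Tn K P.natDegree) = (Tn K 2).comp (Tn K P.natDegree) := by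
      rw [e2]
      simp only [sub_comp, mul_comp, pow_comp, X_comp, C_comp, one_comp, mul_pow, ← C_pow, ha2, C_1,
        one_mul]
    rw [e3, Tn_comm]
  exact hc1.chain.trans hc2.chain

theorem chain_of_chebForm {P R : K[X]} {n : ℕ} (hn : n ≠ 0) (hP : 2 ≤ P.natDegree)
    (hR : ChebForm R) (h : Semi R (itr P n)) : Chain P (Tn K P.natDegree) := by
  have hdeg : R.natDegree = P.natDegree ^ n := by rw [h.natDegree, itr_natDegree]
  have hD : 2 ≤ P.natDegree ^ n := by
    calc 2 ≤ P.natDegree ^ 1 := by rw [pow_one]; exact hP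
      _ ≤ P.natDegree ^ n := Nat.pow_le_pow_right (by omega) (Nat.one_le_iff_ne_zero.mpr hn)
  obtain ⟨l, m, ε, hl, hm, hlm, hml, hε, hR'⟩ := hR
  obtain ⟨p, hp, h1⟩ := h
  rw [hdeg] at hR'
  set F : K[X] := C ε * Tn K (P.natDegree ^ n) with hF
  have h2 : (p.comp l).comp F = (itr P n).comp (p.comp l) := by
    have e1 : l.comp F = R.comp l := by
      rw [hR', comp_assoc, comp_assoc, hml, comp_X]
    rw [comp_assoc, e1, ← comp_assoc, h1, comp_assoc]
  obtain ⟨a, b, ε', ha, hε', _, hS⟩ := cheb_push hD hε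
    (by rw [natDegree_comp, hl, mul_one]; exact hp) h2
  have haff : (C a * X + C b : K[X]).natDegree = 1 := natDegree_linear ha
  obtain ⟨m', hm', hm1, hm2⟩ := aff_inv haff
  apply chain_of_cheb_iter hn hP hε' haff hm' hm1 hm2
  rw [← comp_assoc, ← hS, comp_assoc, hm1, comp_X]

variable [IsAlgClosed K]

omit [CharZero K] [IsAlgClosed K] in
/-- Using a power-like reduction of a semiconjugacy. -/
theorem power_side {P R1 p1 : K[X]} {n : ℕ} {a b c c1 : K}
    (ha : a ≠ 0) (hform : p1 = C a * (X - C c) ^ p1.natDegree + C b)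
    (h : p1.comp R1 = (itr P n).comp p1) (hc : p1.natDegree = 1 ∨ c1 = c) :
    ∃ P' : K[X], Chain P P' ∧ Qt p1.natDegree c1 R1 (itr P' n) := by
  obtain ⟨b', hb'⟩ : ∃ b' : K, p1 = C a * (X - C c1) ^ p1.natDegree + C b' := by
    rcases hc with hc | hc
    · refine ⟨b + a * (c1 - c), ?_⟩
      conv_lhs => rw [hform]
      rw [hc, pow_one, pow_one, C_add, C_mul, C_sub]; ring
    · exact ⟨b, by rw [hc]; exact hform⟩
  set k := p1.natDegree with hk
  have haff : (C a * X + C b' : K[X]).natDegree = 1 := natDegree_linear ha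
  obtain ⟨m, hm, hm1, hm2⟩ := aff_inv haff
  have hp1' : p1 = (C a * X + C b').comp ((X - C c1) ^ k) := by
    rw [add_comp, mul_comp, C_comp, X_comp, C_comp]; exact hb'
  have hsemi : m.comp P = (m.comp (P.comp (C a * X + C b'))).comp m := by
    rw [comp_assoc, comp_assoc, hm1, comp_X]
  refine ⟨m.comp (P.comp (C a * X + C b')),
    Semi.chain ⟨m, by rw [hm]; exact one_ne_zero, hsemi⟩, ?_⟩
  unfold Qt
  have e1 : m.comp p1 = (X - C c1) ^ k := by rw [hp1', ← comp_assoc, hm2, X_comp]
  rw [← e1, comp_assoc, h, ← comp_assoc, itr_semi hsemi n, comp_assoc]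

theorem iter_from_power {P R R1 p1 : K[X]} {n : ℕ} (hn : n ≠ 0) (hP : 2 ≤ P.natDegree)
    (hR : R.natDegree = P.natDegree ^ n)
    (hE : ElC R R1) (hp1 : p1.natDegree ≠ 0) {a b c : K}
    (ha : a ≠ 0) (hform : p1 = C a * (X - C c) ^ p1.natDegree + C b)
    (h : p1.comp R1 = (itr P n).comp p1) {k : ℕ} (hk : k ≠ 0) (hpk : p1.natDegree ∣ k)
    (hcop : Nat.Coprime k P.natDegree) {c0 : K} {Rk : K[X]} (hQ : Qt k c0 R Rk) :
    ∃ P' : K[X], Chain P P' ∧ itr P' n = Rk := by
  have hD : 2 ≤ P.natDegree ^ n := by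
    calc 2 ≤ P.natDegree ^ 1 := by rw [pow_one]; exact hP
      _ ≤ P.natDegree ^ n := Nat.pow_le_pow_right (by omega) (Nat.one_le_iff_ne_zero.mpr hn)
  obtain ⟨ξ, hξ⟩ := primRoot (K := K) k hk
  obtain ⟨c1, R1b, hQ1, hE1⟩ := quot_El hk hξ (by omega)
    (by rw [hR]; exact Nat.Coprime.pow_right _ hcop) hE hQ
  have hR1 : R1.natDegree = P.natDegree ^ n := by rw [← hE.natDegree, hR]
  have hc : p1.natDegree = 1 ∨ c1 = c := by
    by_cases h1 : p1.natDegree = 1
    · exact Or.inl h1
    · right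
      obtain ⟨P', _, hQ'⟩ := power_side ha hform h (Or.inr rfl)
      have h2 : 2 ≤ p1.natDegree := by omega
      exact quot_center (h2.trans (Nat.le_of_dvd (Nat.pos_of_ne_zero hk) hpk)) h2
        (by rw [hR1]; exact hD) hQ1 hQ'
  obtain ⟨P', hPP', hQ'⟩ := power_side ha hform h hc
  obtain ⟨k1, rfl⟩ := hpk
  have hk1 : k1 ≠ 0 := right_ne_zero_of_mul hk
  have hQ2 : Qt k1 0 (itr P' n) R1b := by
    unfold Qt
    apply comp_right_cancel (W := (X - C c1) ^ p1.natDegree) (by rw [pow_natDegree]; exact hp1)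
    unfold Qt at hQ' hQ1
    have e1 : ((X - C (0 : K)) ^ k1).comp ((X - C c1) ^ p1.natDegree) =
        (X - C c1) ^ (p1.natDegree * k1) := by
      rw [C_0, sub_zero, pow_comp, X_comp, pow_mul]
    rw [comp_assoc, ← hQ', ← comp_assoc, e1, hQ1, comp_assoc, e1]
  have hP'd : P'.natDegree = P.natDegree := hPP'.natDegree.symm
  obtain ⟨Pb, hPb, hPbn⟩ := quot_iter hk1 (by omega)
    (by rw [hP'd]; exact (Nat.Coprime.coprime_mul_left hcop)) hn hQ2
  have hc2 : Chain P Pb :=
    hPP'.trans (Semi.chain ⟨_, by rw [pow_natDegree]; exact hk1, hPb⟩)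
  exact iter_of_ElC hn (by omega) hE1.symm ⟨Pb, hc2, hPbn⟩

/-- **Main theorem**: intertwined polynomials are linked by a chain of strict intertwinings. -/
theorem main {P Q R : K[X]} (hP : 2 ≤ P.natDegree) (hPQ : P.natDegree = Q.natDegree) {n : ℕ}
    (hn : n ≠ 0) (h1 : Semi R (itr P n)) (h2 : Semi R (itr Q n)) : Chain P Q := by
  have hQ : 2 ≤ Q.natDegree := by omega
  have hD : 2 ≤ P.natDegree ^ n := by
    calc 2 ≤ P.natDegree ^ 1 := by rw [pow_one]; exact hP
      _ ≤ P.natDegree ^ n := Nat.pow_le_pow_right (by omega) (Nat.one_le_iff_ne_zero.mpr hn)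
  have hRP : R.natDegree = P.natDegree ^ n := by rw [h1.natDegree, itr_natDegree]
  have hRQ : R.natDegree = Q.natDegree ^ n := by rw [h2.natDegree, itr_natDegree]
  have hcheb : ChebForm R → Chain P Q := by
    intro hR
    have e1 := chain_of_chebForm hn hP hR h1
    have e2 := chain_of_chebForm hn hQ hR h2
    rw [hPQ] at e1
    exact e1.trans e2.symm
  obtain ⟨p, hp, hpR⟩ := h1
  obtain ⟨q, hq, hqR⟩ := h2
  have hiP : (itr P n).natDegree = P.natDegree ^ n := itr_natDegree _ _
  have hiQ : (itr Q n).natDegree = Q.natDegree ^ n := itr_natDegree _ _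
  obtain ⟨p1, R1, hE1, hp1, hpR1, hcop1⟩ := reduce_coprime (S := itr P n) (by omega) _ p R le_rfl
    hp hpR
  obtain ⟨q1, R2, hE2, hq1, hqR2, hcop2⟩ := reduce_coprime (S := itr Q n) (by omega) _ q R le_rfl
    hq hqR
  rcases classify hp1 (by omega) hpR1 hcop1 with ⟨a, b, c, ha, hform⟩ | ⟨B, hB⟩
  · rcases classify hq1 (by omega) hqR2 hcop2 with ⟨a', b', c', ha', hform'⟩ | ⟨B, hB⟩
    · -- both sides are power-like
      have hcopp : Nat.Coprime p1.natDegree P.natDegree := by
        rw [hiP] at hcop1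
        exact (Nat.Coprime.coprime_dvd_left (dvd_pow_self _ hn) hcop1).symm
      have hcopq : Nat.Coprime q1.natDegree P.natDegree := by
        rw [hiQ, ← hPQ] at hcop2
        exact (Nat.Coprime.coprime_dvd_left (dvd_pow_self _ hn) hcop2).symm
      have hR1 : R1.natDegree = P.natDegree ^ n := by rw [← hE1.natDegree, hRP]
      have hR2 : R2.natDegree = P.natDegree ^ n := by rw [← hE2.natDegree, hRP]
      obtain ⟨P', _, hQP⟩ := power_side ha hform hpR1 (Or.inr rfl)
      obtain ⟨Q', _, hQQ⟩ := power_side ha' hform' hqR2 (Or.inr rfl)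
      obtain ⟨ξp, hξp⟩ := primRoot (K := K) p1.natDegree hp1
      obtain ⟨ξq, hξq⟩ := primRoot (K := K) q1.natDegree hq1
      obtain ⟨cp, Rp, hRp, _⟩ := quot_El hp1 hξp (by omega)
        (by rw [hR1]; exact Nat.Coprime.pow_right _ hcopp) hE1.symm hQP
      obtain ⟨cq, Rq, hRq, _⟩ := quot_El hq1 hξq (by omega)
        (by rw [hR2]; exact Nat.Coprime.pow_right _ hcopq) hE2.symm hQQ
      obtain ⟨c0, Rk, hRk⟩ := quot_lcm hp1 hq1 (by omega) hRp hRq
      have hcopk : Nat.Coprime (Nat.lcm p1.natDegree q1.natDegree) P.natDegree :=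
        Nat.Coprime.coprime_dvd_left (Nat.lcm_dvd_mul _ _) (Nat.Coprime.mul_left hcopp hcopq)
      obtain ⟨P1, hP1, hP1n⟩ := iter_from_power hn hP hRP hE1 hp1 ha hform hpR1
        (Nat.lcm_ne_zero hp1 hq1) (Nat.dvd_lcm_left _ _) hcopk hRk
      obtain ⟨Q1, hQ1, hQ1n⟩ := iter_from_power hn hQ hRQ hE2 hq1 ha' hform' hqR2
        (Nat.lcm_ne_zero hp1 hq1) (Nat.dvd_lcm_right _ _) (by rw [← hPQ]; exact hcopk) hRk
      have hP1d : P1.natDegree = P.natDegree := hP1.natDegree.symm
      exact (hP1.trans (chain_of_iter_eq (by omega) hn (by rw [hP1n, hQ1n]))).trans hQ1.symm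
    · obtain ⟨O, hO⟩ := exc_up hq (by omega) hqR hB
      exact hcheb (exc_cheb (by omega) hO)
  · obtain ⟨O, hO⟩ := exc_up hp (by omega) hpR hB
    exact hcheb (exc_cheb (by omega) hO)

end Iw
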