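import Pool.Agent.Helper88.IwRot

open Polynomial

namespace Iw

variable {K : Type*} [Field K]

/-- Ramification index of `F` at `t`. -/
noncomputable def ram (F : K[X]) (t : K) : ℕ := (derivative F).rootMultiplicity t + 1

theorem rm_comp {H B : K[X]} (hH : H ≠ 0) (hB : B.natDegree ≠ 0) (t : K) :
    (H.comp B).rootMultiplicity t =
      H.rootMultiplicity (B.eval t) * (B - C (B.eval t)).rootMultiplicity t := by
  classical
  obtain ⟨U, hU, hU'⟩ := exists_eq_pow_rootMultiplicity_mul_and_not_dvd H hH (B.eval t)
  set m := H.rootMultiplicity (B.eval t) with hm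
  have hB0 : B - C (B.eval t) ≠ 0 := by
    intro h0
    have : (B - C (B.eval t)).natDegree = B.natDegree := natDegree_sub_C
    rw [h0] at this; simp at this; exact hB this.symm
  have hU0 : U.comp B ≠ 0 := by
    intro h0
    rcases comp_eq_zero_iff.mp h0 with h1 | ⟨_, h2⟩
    · rw [h1] at hU'; simp at hU'
    · exact hB (by rw [h2]; exact natDegree_C _)
  have h1 : H.comp B = (B - C (B.eval t)) ^ m * U.comp B := by
    conv_lhs => rw [hU]
    rw [mul_comp, pow_comp, sub_comp, X_comp, C_comp]
  have h2 : (U.comp B).rootMultiplicity t = 0 := by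
    apply rootMultiplicity_eq_zero
    rw [IsRoot.def, eval_comp]
    intro h3
    exact hU' (dvd_iff_isRoot.mpr h3)
  rw [h1, rootMultiplicity_mul (mul_ne_zero (pow_ne_zero _ hB0) hU0), h2, add_zero,
    ← count_roots, roots_pow, Multiset.count_nsmul, count_roots]

variable [CharZero K]

theorem ram_eq {F : K[X]} (hF : F.natDegree ≠ 0) (t : K) :
    ram F t = (F - C (F.eval t)).rootMultiplicity t := by
  have h0 : F - C (F.eval t) ≠ 0 := by
    intro h0
    have : (F - C (F.eval t)).natDegree = F.natDegree := natDegree_sub_C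
    rw [h0] at this; simp at this; exact hF this.symm
  have hr : (F - C (F.eval t)).IsRoot t := by simp [IsRoot.def]
  have h1 := derivative_rootMultiplicity_of_root hr
  have h2 : 0 < (F - C (F.eval t)).rootMultiplicity t := (rootMultiplicity_pos h0).mpr hr
  rw [derivative_sub, derivative_C, sub_zero] at h1
  unfold ram
  omega

theorem der_ne_zero {F : K[X]} (hF : F.natDegree ≠ 0) : derivative F ≠ 0 := by
  intro h
  exact hF (derivative_eq_zero.mp h)

theorem ram_comp {A B : K[X]} (h : (A.comp B).natDegree ≠ 0) (t : K) :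
    ram (A.comp B) t = ram A (B.eval t) * ram B t := by
  obtain ⟨hA, hB⟩ := natDegree_comp_ne_zero h
  have hd := der_ne_zero h
  have h1 : derivative (A.comp B) = derivative B * (derivative A).comp B := derivative_comp A B
  rw [h1] at hd
  have h2 : (derivative (A.comp B)).rootMultiplicity t = (derivative B).rootMultiplicity t +
      (derivative A).rootMultiplicity (B.eval t) * ram B t := by
    rw [h1, rootMultiplicity_mul hd, rm_comp (der_ne_zero hA) hB, ram_eq hB]
  have e1 : ram (A.comp B) t = (derivative (A.comp B)).rootMultiplicity t + 1 := rfl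
  have e2 : ram A (B.eval t) = (derivative A).rootMultiplicity (B.eval t) + 1 := rfl
  have e3 : ram B t = (derivative B).rootMultiplicity t + 1 := rfl
  rw [e1, h2, e2, add_mul, one_mul]
  omega

variable [IsAlgClosed K]

/-- The fibre of `F` over a finite set. -/
noncomputable def fib [DecidableEq K] (F : K[X]) (B : Finset K) : Finset K :=
  B.biUnion (fun b => (F - C b).roots.toFinset)

omit [CharZero K] [IsAlgClosed K] in
theorem sub_C_ne_zero' {F : K[X]} (hF : F.natDegree ≠ 0) (b : K) : F - C b ≠ 0 := by
  intro h0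
  have : (F - C b).natDegree = F.natDegree := natDegree_sub_C
  rw [h0] at this; simp at this; exact hF this.symm

omit [CharZero K] [IsAlgClosed K] in
theorem mem_fib [DecidableEq K] {F : K[X]} (hF : F.natDegree ≠ 0) {B : Finset K} {t : K} :
    t ∈ fib F B ↔ F.eval t ∈ B := by
  unfold fib
  rw [Finset.mem_biUnion]
  constructor
  · rintro ⟨b, hb, ht⟩
    rw [Multiset.mem_toFinset, mem_roots (sub_C_ne_zero' hF b), IsRoot.def, eval_sub, eval_C,
      sub_eq_zero] at ht
    rw [ht]; exact hb
  · intro h
    refine ⟨F.eval t, h, ?_⟩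
    rw [Multiset.mem_toFinset, mem_roots (sub_C_ne_zero' hF _), IsRoot.def, eval_sub, eval_C,
      sub_self]

theorem sum_ram_fib [DecidableEq K] {F : K[X]} (hF : F.natDegree ≠ 0) (B : Finset K) :
    ∑ t ∈ fib F B, ram F t = B.card * F.natDegree := by
  unfold fib
  rw [Finset.sum_biUnion]
  · rw [← smul_eq_mul, ← Finset.sum_const]
    apply Finset.sum_congr rfl
    intro b _
    have h1 : ∀ t ∈ (F - C b).roots.toFinset, ram F t = (F - C b).roots.count t := by
      intro t ht
      rw [Multiset.mem_toFinset, mem_roots (sub_C_ne_zero' hF b), IsRoot.def, eval_sub, eval_C,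
        sub_eq_zero] at ht
      rw [ram_eq hF, ht, count_roots]
    rw [Finset.sum_congr rfl h1, Multiset.toFinset_sum_count_eq,
      ← (IsAlgClosed.splits (F - C b)).natDegree_eq_card_roots, natDegree_sub_C]
  · intro b _ b' _ hbb'
    rw [Function.onFun, Finset.disjoint_left]
    intro t ht ht'
    rw [Multiset.mem_toFinset, mem_roots (sub_C_ne_zero' hF _), IsRoot.def, eval_sub, eval_C,
      sub_eq_zero] at ht ht'
    exact hbb' (by rw [← ht, ← ht'])

omit [CharZero K] [IsAlgClosed K] in
/-- Riemann–Hurwitz inequality. -/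
theorem sum_rm_le (F : K[X]) (T : Finset K) :
    ∑ t ∈ T, (derivative F).rootMultiplicity t ≤ F.natDegree - 1 := by
  classical
  calc ∑ t ∈ T, (derivative F).rootMultiplicity t
      = ∑ t ∈ T, (derivative F).roots.count t := by
        apply Finset.sum_congr rfl
        intro t _
        rw [count_roots]
    _ ≤ ∑ t ∈ T ∪ (derivative F).roots.toFinset, (derivative F).roots.count t :=
        Finset.sum_le_sum_of_subset Finset.subset_union_left
    _ = Multiset.card (derivative F).roots := by
        apply Multiset.sum_count_eq_card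
        intro a ha
        exact Finset.mem_union_right _ (Multiset.mem_toFinset.mpr ha)
    _ ≤ (derivative F).natDegree := card_roots' _
    _ ≤ F.natDegree - 1 := natDegree_derivative_le F

/-- Two exceptional values. -/
def Exc (F : K[X]) (B : Finset K) : Prop :=
  B.card = 2 ∧ (∀ t ∈ B, F.eval t ∈ B ∧ ram F t = 1) ∧ (∀ t, t ∉ B → F.eval t ∈ B → ram F t = 2)

theorem exc_lemma {F : K[X]} (hF : 2 ≤ F.natDegree) (B : Finset K)
    (h : ∀ t, t ∉ B → F.eval t ∈ B → 2 ≤ ram F t) :
    B.card ≤ 2 ∧ (B.card = 2 → Exc F B) := by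
  classical
  have hF0 : F.natDegree ≠ 0 := by omega
  have h1 := sum_ram_fib hF0 B
  have h2 := sum_rm_le F (fib F B)
  have hind : ∑ t ∈ fib F B, (if t ∈ B then 1 else 0) = (fib F B ∩ B).card := by
    rw [← Finset.sum_filter, Finset.sum_const, smul_eq_mul, mul_one, Finset.filter_mem_eq_inter]
  have hle : ∀ t ∈ fib F B, ram F t ≤ 2 * (derivative F).rootMultiplicity t +
      (if t ∈ B then 1 else 0) := by
    intro t ht
    rw [mem_fib hF0] at ht
    have e3 : ram F t = (derivative F).rootMultiplicity t + 1 := rfl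
    by_cases hB : t ∈ B
    · rw [if_pos hB]; omega
    · rw [if_neg hB]
      have := h t hB ht
      omega
  have hsum := Finset.sum_le_sum hle
  rw [Finset.sum_add_distrib, hind, ← Finset.mul_sum, h1] at hsum
  have hcard : (fib F B ∩ B).card ≤ B.card := Finset.card_le_card Finset.inter_subset_right
  have hB2 : B.card ≤ 2 := by
    by_contra hcon
    push Not at hcon
    obtain ⟨d, hd⟩ : ∃ d, F.natDegree = d + 1 := ⟨F.natDegree - 1, by omega⟩
    rw [hd] at hsum h2
    have h3 : B.card * d + B.card ≤ 2 * d + B.card := by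
      calc B.card * d + B.card = B.card * (d + 1) := by ring
        _ ≤ 2 * ∑ t ∈ fib F B, (derivative F).rootMultiplicity t + (fib F B ∩ B).card := hsum
        _ ≤ 2 * d + B.card := by omega
    have h4 : B.card * d ≤ 2 * d := by omega
    have h5 : 3 * d ≤ B.card * d := Nat.mul_le_mul_right _ hcon
    omega
  refine ⟨hB2, ?_⟩
  intro hB
  rw [hB] at hsum hcard
  have hinter : (fib F B ∩ B).card = 2 := by omega
  have hsub : fib F B ∩ B = B :=
    Finset.eq_of_subset_of_card_le Finset.inter_subset_right (by rw [hB, hinter])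
  have hsumeq : ∑ t ∈ fib F B, ram F t = ∑ t ∈ fib F B, (2 * (derivative F).rootMultiplicity t +
      (if t ∈ B then 1 else 0)) := by
    rw [Finset.sum_add_distrib, hind, ← Finset.mul_sum, h1, hB]
    omega
  have heq := (Finset.sum_eq_sum_iff_of_le hle).mp hsumeq
  refine ⟨hB, ?_, ?_⟩
  · intro t ht
    have ht' : t ∈ fib F B := by
      rw [← hsub] at ht
      exact (Finset.mem_inter.mp ht).1
    have := heq t ht'
    rw [if_pos ht] at this
    have e3 : ram F t = (derivative F).rootMultiplicity t + 1 := rfl
    exact ⟨(mem_fib hF0).mp ht', by omega⟩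
  · intro t ht ht2
    have := heq t ((mem_fib hF0).mpr ht2)
    rw [if_neg ht] at this
    have e3 : ram F t = (derivative F).rootMultiplicity t + 1 := rfl
    omega

/-- The exceptional set passes up a semiconjugacy. -/
theorem exc_up {p R S : K[X]} (hp : p.natDegree ≠ 0) (hS : 2 ≤ S.natDegree)
    (h : p.comp R = S.comp p) {B : Finset K} (hB : Exc S B) : ∃ O : Finset K, Exc R O := by
  classical
  have hRS : R.natDegree = S.natDegree := Semi.natDegree ⟨p, hp, h⟩
  set O : Finset K := (fib p B).filter (fun t => Odd (ram p t)) with hO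
  have hOm : ∀ t, t ∈ O ↔ p.eval t ∈ B ∧ Odd (ram p t) := by
    intro t
    rw [hO, Finset.mem_filter, mem_fib hp]
  have hcond : ∀ t, t ∉ O → R.eval t ∈ O → 2 ≤ ram R t := by
    intro t ht hRt
    rw [hOm] at ht hRt
    obtain ⟨h1, h2⟩ := hRt
    have h3 : p.eval (R.eval t) = S.eval (p.eval t) := by
      rw [← eval_comp, h, eval_comp]
    have h4 : ram p (R.eval t) * ram R t = ram S (p.eval t) * ram p t := by
      rw [← ram_comp (by rw [natDegree_comp]; exact mul_ne_zero hp (by omega)), h,
        ram_comp (by rw [natDegree_comp]; exact mul_ne_zero (by omega) hp)]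
    rw [h3] at h1
    have h5 : Even (ram p (R.eval t) * ram R t) := by
      rw [h4]
      by_cases hpt : p.eval t ∈ B
      · have : ¬ Odd (ram p t) := fun hodd => ht ⟨hpt, hodd⟩
        rw [Nat.not_odd_iff_even] at this
        exact this.mul_left _
      · rw [hB.2.2 _ hpt h1]
        exact even_two_mul _
    rw [Nat.even_mul] at h5
    have h6 : Even (ram R t) := by
      rcases h5 with h5 | h5
      · exact absurd h5 (Nat.not_even_iff_odd.mpr h2)
      · exact h5
    have h7 : 1 ≤ ram R t := Nat.le_add_left 1 _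
    obtain ⟨r, hr⟩ := h6
    omega
  obtain ⟨hO2, hO3⟩ := exc_lemma (F := R) (by omega) O hcond
  refine ⟨O, hO3 (le_antisymm hO2 ?_)⟩
  -- lower bound
  have h1 := sum_ram_fib hp B
  have h2 := sum_rm_le p (fib p B)
  have hle : ∀ t ∈ fib p B, ram p t ≤ 2 * (derivative p).rootMultiplicity t +
      (if Odd (ram p t) then 1 else 0) := by
    intro t ht
    have e3 : ram p t = (derivative p).rootMultiplicity t + 1 := rfl
    by_cases hodd : Odd (ram p t)
    · rw [if_pos hodd]; omega
    · rw [if_neg hodd]
      rw [Nat.not_odd_iff_even] at hodd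
      obtain ⟨r, hr⟩ := hodd
      omega
  have hsum := Finset.sum_le_sum hle
  rw [Finset.sum_add_distrib, ← Finset.mul_sum, h1, hB.1] at hsum
  have hind : ∑ t ∈ fib p B, (if Odd (ram p t) then 1 else 0) = O.card := by
    rw [← Finset.sum_filter, Finset.sum_const, smul_eq_mul, mul_one]
  rw [hind] at hsum
  omega

end Iw
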