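import Pool.Agent.Helper88.IwGcd

open Polynomial

namespace Iw

variable {K : Type*} [Field K]

/-- `P ≥ Q`: there is a non-constant `p` with `p ∘ P = Q ∘ p`. -/
def Semi (P Q : K[X]) : Prop := ∃ p : K[X], p.natDegree ≠ 0 ∧ p.comp P = Q.comp p

/-- Strict intertwining. -/
def Strict (P Q : K[X]) : Prop := ∃ R : K[X], Semi R P ∧ Semi R Q

/-- The relation generated by strict intertwining. -/
def Chain (P Q : K[X]) : Prop := Relation.ReflTransGen Strict P Q

theorem Semi.refl (P : K[X]) : Semi P P :=
  ⟨X, by rw [natDegree_X]; exact one_ne_zero, by rw [X_comp, comp_X]⟩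

theorem Strict.symm {P Q : K[X]} (h : Strict P Q) : Strict Q P := by
  obtain ⟨R, h1, h2⟩ := h
  exact ⟨R, h2, h1⟩

theorem Chain.refl (P : K[X]) : Chain P P := Relation.ReflTransGen.refl

theorem Chain.trans {P Q R : K[X]} (h1 : Chain P Q) (h2 : Chain Q R) : Chain P R :=
  Relation.ReflTransGen.trans h1 h2

theorem Chain.symm {P Q : K[X]} (h : Chain P Q) : Chain Q P := by
  unfold Chain at h ⊢
  induction h with
  | refl => exact Relation.ReflTransGen.refl
  | tail _ h2 ih => exact Relation.ReflTransGen.head h2.symm ih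

theorem Semi.chain {P Q : K[X]} (h : Semi P Q) : Chain P Q :=
  Relation.ReflTransGen.single ⟨P, Semi.refl P, h⟩

theorem Semi.natDegree {P Q : K[X]} (h : Semi P Q) : P.natDegree = Q.natDegree := by
  obtain ⟨p, hp, h1⟩ := h
  have h2 := congrArg Polynomial.natDegree h1
  rw [natDegree_comp, natDegree_comp, mul_comm] at h2
  exact Nat.eq_of_mul_eq_mul_right (Nat.pos_of_ne_zero hp) h2

theorem Strict.natDegree {P Q : K[X]} (h : Strict P Q) : P.natDegree = Q.natDegree := by
  obtain ⟨R, h1, h2⟩ := h
  rw [← h1.natDegree, h2.natDegree]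

theorem Chain.natDegree {P Q : K[X]} (h : Chain P Q) : P.natDegree = Q.natDegree := by
  unfold Chain at h
  induction h with
  | refl => rfl
  | tail _ h2 ih => rw [ih, h2.natDegree]

/-- Conjugation by an affine polynomial. -/
theorem conj_semi {P l m : K[X]} (hl : l.natDegree = 1) (h2 : m.comp l = X) :
    Semi P (l.comp (P.comp m)) := by
  refine ⟨l, by rw [hl]; exact one_ne_zero, ?_⟩
  rw [comp_assoc, comp_assoc, h2, comp_X]

variable [CharZero K] [IsAlgClosed K]

theorem gcd_ne_one {d b n : ℕ} (hb : b ∣ d ^ n) (hb1 : b ≠ 1) : Nat.gcd d b ≠ 1 := by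
  intro h
  exact hb1 (Nat.Coprime.eq_one_of_dvd (Nat.Coprime.pow_right n (Nat.Coprime.symm h)) hb)

/-- If an iterate of `P` decomposes as `A ∘ B` then `B ∘ A` is an iterate of some `P'` linked to `P`
by a chain. -/
theorem swap_iter {n : ℕ} (hn : n ≠ 0) (b : ℕ) : ∀ P A B : K[X], B.natDegree ≤ b →
    P.natDegree ≠ 0 → itr P n = A.comp B → ∃ P' : K[X], Chain P P' ∧ itr P' n = B.comp A := by
  induction b with
  | zero =>
    intro P A B hB hP h
    have h1 := congrArg Polynomial.natDegree h
    rw [itr_natDegree, natDegree_comp, Nat.le_zero.mp hB, mul_zero] at h1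
    exact absurd h1 (pow_ne_zero _ hP)
  | succ b ih =>
    intro P A B hB hP h
    have hdeg := congrArg Polynomial.natDegree h
    rw [itr_natDegree, natDegree_comp] at hdeg
    have hB0 : B.natDegree ≠ 0 := by
      intro h0; rw [h0, mul_zero] at hdeg; exact absurd hdeg (pow_ne_zero _ hP)
    by_cases hB1 : B.natDegree = 1
    · obtain ⟨m, hm, hm1, hm2⟩ := aff_inv hB1
      refine ⟨B.comp (P.comp m), (conj_semi hB1 hm2).chain, ?_⟩
      have h1 : B.comp P = (B.comp (P.comp m)).comp B := by
        rw [comp_assoc, comp_assoc, hm2, comp_X]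
      have h2 := itr_semi h1 n
      rw [h, ← comp_assoc] at h2
      exact (comp_right_cancel hB0 h2).symm
    · obtain ⟨n', rfl⟩ := Nat.exists_eq_succ_of_ne_zero hn
      have h' := h
      rw [Nat.succ_eq_add_one, itr_succ'] at h'
      have hN : ((itr P n').comp P).natDegree ≠ 0 := by
        rw [natDegree_comp, itr_natDegree]
        exact mul_ne_zero (pow_ne_zero _ hP) hP
      obtain ⟨W, P1, B1, hW, hP1, hB1'⟩ := exists_comp_gcd hP hB0 h' hN
      have hWn : W.natDegree ≠ 1 := by
        rw [hW]
        exact gcd_ne_one (n := n'.succ) ⟨A.natDegree, by rw [hdeg]; ring⟩ hB1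
      have hW0 : W.natDegree ≠ 0 := by rw [hW]; exact Nat.gcd_ne_zero_left hP
      have hWs : W.comp P = (W.comp P1).comp W := by rw [comp_assoc, ← hP1]
      have h2 := itr_semi hWs (n' + 1)
      have h3 : W.comp (itr P (n' + 1)) = ((W.comp A).comp B1).comp W := by
        rw [comp_assoc, ← hB1', comp_assoc, ← h]
      rw [h3] at h2
      have h4 := comp_right_cancel hW0 h2
      have hBd : B.natDegree = B1.natDegree * W.natDegree := by
        conv_lhs => rw [hB1']
        rw [natDegree_comp]
      have hB1le : B1.natDegree ≤ b := by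
        have hB10 : B1.natDegree ≠ 0 := by
          intro h0; rw [h0, zero_mul] at hBd; exact hB0 hBd
        have hW2 : 2 ≤ W.natDegree := by omega
        have : B1.natDegree * 2 ≤ B.natDegree := by
          rw [hBd]; exact Nat.mul_le_mul_left _ hW2
        omega
      have hWP0 : (W.comp P1).natDegree ≠ 0 := by
        have h5 : P.natDegree = P1.natDegree * W.natDegree := by
          conv_lhs => rw [hP1]
          rw [natDegree_comp]
        rw [natDegree_comp, mul_comm, ← h5]; exact hP
      obtain ⟨P', hc, hP'⟩ := ih (W.comp P1) (W.comp A) B1 hB1le hWP0 h4.symm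
      refine ⟨P', Chain.trans (Semi.chain ⟨W, hW0, hWs⟩) hc, ?_⟩
      rw [Nat.succ_eq_add_one, hP', ← comp_assoc, ← hB1']

/-- Elementary transformations `A ∘ B → B ∘ A`. -/
def El (F G : K[X]) : Prop := ∃ A B : K[X], F = A.comp B ∧ G = B.comp A

def ElC (F G : K[X]) : Prop := Relation.ReflTransGen El F G

omit [CharZero K] [IsAlgClosed K] in
theorem El.symm {F G : K[X]} (h : El F G) : El G F := by
  obtain ⟨A, B, h1, h2⟩ := h
  exact ⟨B, A, h2, h1⟩

omit [CharZero K] [IsAlgClosed K] in
theorem El.natDegree {F G : K[X]} (h : El F G) : F.natDegree = G.natDegree := by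
  obtain ⟨A, B, h1, h2⟩ := h
  rw [h1, h2, natDegree_comp, natDegree_comp, mul_comm]

omit [CharZero K] [IsAlgClosed K] in
theorem ElC.symm {F G : K[X]} (h : ElC F G) : ElC G F := by
  unfold ElC at h ⊢
  induction h with
  | refl => exact Relation.ReflTransGen.refl
  | tail _ h2 ih => exact Relation.ReflTransGen.head h2.symm ih

omit [CharZero K] [IsAlgClosed K] in
theorem ElC.natDegree {F G : K[X]} (h : ElC F G) : F.natDegree = G.natDegree := by
  unfold ElC at h
  induction h with
  | refl => rfl
  | tail _ h2 ih => rw [ih, h2.natDegree]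

/-- being an `n`-th iterate of a polynomial chain-linked to `P` is invariant under elementary
transformations. -/
theorem iter_of_ElC {n : ℕ} (hn : n ≠ 0) {P F G : K[X]} (hP : P.natDegree ≠ 0) (h : ElC F G)
    (hF : ∃ P' : K[X], Chain P P' ∧ itr P' n = F) : ∃ P' : K[X], Chain P P' ∧ itr P' n = G := by
  unfold ElC at h
  induction h with
  | refl => exact hF
  | tail _ h2 ih =>
    obtain ⟨P', hc, hP'⟩ := ih
    obtain ⟨A, B, h3, h4⟩ := h2
    obtain ⟨P'', hc', hP''⟩ := swap_iter hn _ P' A B le_rfl (by rw [← hc.natDegree]; exact hP)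
      (by rw [hP', h3])
    exact ⟨P'', hc.trans hc', by rw [hP'', h4]⟩

/-- Reduction of a semiconjugacy to one of degree prime to the degree of the maps. -/
theorem reduce_coprime {S : K[X]} (hS : S.natDegree ≠ 0) (b : ℕ) : ∀ p R : K[X],
    p.natDegree ≤ b → p.natDegree ≠ 0 → p.comp R = S.comp p →
    ∃ p1 R1 : K[X], ElC R R1 ∧ p1.natDegree ≠ 0 ∧ p1.comp R1 = S.comp p1 ∧
      Nat.Coprime S.natDegree p1.natDegree := by
  induction b with
  | zero =>
    intro p R h1 h2
    exact absurd (Nat.le_zero.mp h1) h2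
  | succ b ih =>
    intro p R hpb hp0 h
    have hRS : R.natDegree = S.natDegree := Semi.natDegree ⟨p, hp0, h⟩
    by_cases hc : Nat.Coprime S.natDegree p.natDegree
    · exact ⟨p, R, Relation.ReflTransGen.refl, hp0, h, hc⟩
    · have hR0 : R.natDegree ≠ 0 := by rw [hRS]; exact hS
      have hN : (p.comp R).natDegree ≠ 0 := by
        rw [natDegree_comp]; exact mul_ne_zero hp0 hR0
      obtain ⟨W, R', p', hW, hR', hp'⟩ := exists_comp_gcd hR0 hp0 h hN
      have hW0 : W.natDegree ≠ 0 := by rw [hW]; exact Nat.gcd_ne_zero_left hR0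
      have hW1 : W.natDegree ≠ 1 := by rw [hW, hRS]; exact hc
      have hpd : p.natDegree = p'.natDegree * W.natDegree := by
        conv_lhs => rw [hp']
        rw [natDegree_comp]
      have hp'0 : p'.natDegree ≠ 0 := by
        intro h0; rw [h0, zero_mul] at hpd; exact hp0 hpd
      have hp'le : p'.natDegree ≤ b := by
        have : p'.natDegree * 2 ≤ p.natDegree := by
          rw [hpd]; exact Nat.mul_le_mul_left _ (by omega)
        omega
      have h1 : (p'.comp (W.comp R')).comp W = (S.comp p').comp W := by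
        rw [comp_assoc, comp_assoc, ← hR', ← comp_assoc, ← hp', h, comp_assoc, ← hp']
      have h2 := comp_right_cancel hW0 h1
      obtain ⟨p1, R1, h3, h4, h5, h6⟩ := ih p' (W.comp R') hp'le hp'0 h2
      exact ⟨p1, R1, Relation.ReflTransGen.head ⟨R', W, hR', rfl⟩ h3, h4, h5, h6⟩

end Iw
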