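import Pool.Agent.Helper88.IwRel

open Polynomial

namespace Iw

variable {K : Type*} [Field K]

/-- The rotation `z ↦ c + a (z - c)`. -/
noncomputable def rot (c a : K) : K[X] := C a * (X - C c) + C c

theorem rot_one (c : K) : rot c 1 = X := by
  unfold rot; rw [C_1, one_mul]; ring

theorem rot_eq (c a : K) : rot c a = C a * X + C (c - a * c) := by
  unfold rot; rw [C_sub, C_mul]; ring

theorem rot_natDegree {c a : K} (ha : a ≠ 0) : (rot c a).natDegree = 1 := by
  rw [rot_eq]; exact natDegree_linear ha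

theorem rot_leadingCoeff {c a : K} (ha : a ≠ 0) : (rot c a).leadingCoeff = a := by
  rw [rot_eq]; exact leadingCoeff_linear ha

theorem sub_comp_rot (c a : K) : (X - C c : K[X]).comp (rot c a) = C a * (X - C c) := by
  unfold rot; rw [sub_comp, X_comp, C_comp]; ring

theorem pow_comp_rot (c a : K) {k : ℕ} (ha : a ^ k = 1) :
    ((X - C c : K[X]) ^ k).comp (rot c a) = (X - C c) ^ k := by
  rw [pow_comp, sub_comp_rot, mul_pow, ← C_pow, ha, C_1, one_mul]

theorem pow_natDegree (c : K) (k : ℕ) : ((X - C c : K[X]) ^ k).natDegree = k := by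
  rw [natDegree_pow, natDegree_X_sub_C, mul_one]

/-- `F` is the lift of `Fb` under `(z - c)^k`. -/
def Qt (k : ℕ) (c : K) (F Fb : K[X]) : Prop :=
  ((X - C c) ^ k).comp F = Fb.comp ((X - C c) ^ k)

theorem factor_of_coeff {k : ℕ} (hk : k ≠ 0) {H : K[X]} (h : ∀ j, H.coeff j ≠ 0 → k ∣ j) :
    ∃ H' : K[X], H = H'.comp (X ^ k) := by
  refine ⟨contract k H, ?_⟩
  rw [← expand_eq_comp_X_pow]
  ext j
  rw [coeff_expand (Nat.pos_of_ne_zero hk)]
  split_ifs with hd
  · rw [coeff_contract hk, Nat.div_mul_cancel hd]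
  · by_contra hne
    exact hd (h j hne)

theorem comp_add_sub (H : K[X]) (c : K) : (H.comp (X + C c)).comp (X - C c) = H := by
  rw [comp_assoc, add_comp, X_comp, C_comp, sub_add_cancel, comp_X]

theorem comp_sub_add (H : K[X]) (c : K) : (H.comp (X - C c)).comp (X + C c) = H := by
  rw [comp_assoc, sub_comp, X_comp, C_comp, add_sub_cancel_right, comp_X]

/-- A polynomial invariant under a rotation of order `k` is a polynomial in `(z - c)^k`. -/
theorem factor_of_inv {k : ℕ} (hk : k ≠ 0) {ξ : K} (hξ : IsPrimitiveRoot ξ k) {c : K} {H : K[X]}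
    (h : H.comp (rot c ξ) = H) : ∃ H' : K[X], H = H'.comp ((X - C c) ^ k) := by
  have h1 : (H.comp (X + C c)).comp (C ξ * X) = H.comp (X + C c) := by
    conv_rhs => rw [← h]
    rw [comp_assoc, comp_assoc]
    congr 1
    unfold rot
    simp only [add_comp, mul_comp, sub_comp, X_comp, C_comp]
    ring
  obtain ⟨H', hH'⟩ := factor_of_coeff hk (H := H.comp (X + C c)) (by
    intro j hj
    have h2 := congrArg (fun p => coeff p j) h1
    simp only [comp_C_mul_X_coeff] at h2
    exact (hξ.pow_eq_one_iff_dvd j).mp (mul_left_cancel₀ hj (by rw [h2, mul_one])))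
  refine ⟨H', ?_⟩
  have h3 := congrArg (fun p => p.comp (X - C c)) hH'
  simp only [comp_add_sub] at h3
  rw [h3, comp_assoc, pow_comp, X_comp]

theorem pow_eq_pow {k : ℕ} (hk : k ≠ 0) {ξ : K} (hξ : IsPrimitiveRoot ξ k) {f g : K[X]}
    (h : f ^ k = g ^ k) : ∃ η : K, η ^ k = 1 ∧ f = C η * g := by
  have hξ' : IsPrimitiveRoot (C ξ : K[X]) k := hξ.map_of_injective C_injective
  have h1 := hξ'.pow_sub_pow_eq_prod_sub_mul f g (Nat.pos_of_ne_zero hk)
  rw [h, sub_self] at h1
  obtain ⟨z, hz, hz2⟩ := Finset.prod_eq_zero_iff.mp h1.symm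
  rw [mem_nthRootsFinset (Nat.pos_of_ne_zero hk)] at hz
  have : NeZero k := ⟨hk⟩
  obtain ⟨i, _, hi⟩ := hξ'.eq_pow_of_pow_eq_one hz
  refine ⟨ξ ^ i, ?_, ?_⟩
  · rw [← pow_mul, mul_comm, pow_mul, hξ.pow_eq_one, one_pow]
  · rw [C_pow, hi]; exact sub_eq_zero.mp hz2

/-- From a quotient to a rotational symmetry. -/
theorem Qt.rot {k : ℕ} (hk : k ≠ 0) {ξ : K} (hξ : IsPrimitiveRoot ξ k) {c : K} {F Fb : K[X]}
    (h : Qt k c F Fb) : ∃ η : K, η ^ k = 1 ∧ F.comp (Iw.rot c ξ) = (Iw.rot c η).comp F := by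
  have h1 : (F.comp (Iw.rot c ξ) - C c) ^ k = (F - C c) ^ k := by
    have h2 : ((X - C c) ^ k).comp (F.comp (Iw.rot c ξ)) = ((X - C c) ^ k).comp F := by
      rw [← comp_assoc, h, comp_assoc, pow_comp_rot c ξ hξ.pow_eq_one]
    simpa only [pow_comp, sub_comp, X_comp, C_comp] using h2
  obtain ⟨η, hη, h2⟩ := pow_eq_pow hk hξ h1
  refine ⟨η, hη, ?_⟩
  unfold Iw.rot at h2 ⊢
  simp only [add_comp, mul_comp, sub_comp, X_comp, C_comp]
  linear_combination h2

/-- From a rotational symmetry to a quotient. -/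
theorem Qt.of_rot {k : ℕ} (hk : k ≠ 0) {ξ : K} (hξ : IsPrimitiveRoot ξ k) {c c' : K} {F : K[X]}
    {η : K} (hη : η ^ k = 1) (h : F.comp (Iw.rot c ξ) = (Iw.rot c' η).comp F) :
    ∃ Fb : K[X], ((X - C c') ^ k).comp F = Fb.comp ((X - C c) ^ k) := by
  apply factor_of_inv hk hξ
  rw [comp_assoc, h, ← comp_assoc, pow_comp_rot c' η hη]

variable [CharZero K] [IsAlgClosed K]

omit [CharZero K] [IsAlgClosed K] in
theorem natDegree_comp_ne_zero {A B : K[X]} (h : (A.comp B).natDegree ≠ 0) :
    A.natDegree ≠ 0 ∧ B.natDegree ≠ 0 := by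
  rw [natDegree_comp] at h
  exact ⟨left_ne_zero_of_mul h, right_ne_zero_of_mul h⟩

/-- Symmetry splits over a composition. -/
theorem quot_split {k : ℕ} (hk : k ≠ 0) {ξ : K} (hξ : IsPrimitiveRoot ξ k) {c : K}
    {A B Fb : K[X]} (hD : (A.comp B).natDegree ≠ 0)
    (hcop : Nat.Coprime k (A.comp B).natDegree) (hQ : Qt k c (A.comp B) Fb) :
    ∃ (c' : K) (Ab Bb : K[X]), ((X - C c') ^ k).comp B = Bb.comp ((X - C c) ^ k) ∧
      ((X - C c) ^ k).comp A = Ab.comp ((X - C c') ^ k) ∧ Fb = Ab.comp Bb := by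
  obtain ⟨hA0, hB0⟩ := natDegree_comp_ne_zero hD
  obtain ⟨η, hη, h1⟩ := hQ.rot hk hξ
  have hξ0 : ξ ≠ 0 := hξ.ne_zero hk
  have hη0 : η ≠ 0 := by
    rintro rfl
    rw [zero_pow hk] at hη
    exact zero_ne_one hη
  -- symmetry of `B`
  have h2 : ∃ c' a : K, IsPrimitiveRoot a k ∧ B.comp (rot c ξ) = (rot c' a).comp B := by
    by_cases hk1 : k = 1
    · subst hk1
      have : ξ = 1 := by simpa using hξ.pow_eq_one
      refine ⟨c, 1, IsPrimitiveRoot.one, ?_⟩
      rw [this, rot_one, comp_X, X_comp]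
    · have h3 : ((rot c η).comp A).comp B = A.comp (B.comp (rot c ξ)) := by
        rw [comp_assoc, ← h1, comp_assoc]
      have hd : B.natDegree = (B.comp (rot c ξ)).natDegree := by
        rw [natDegree_comp, rot_natDegree hξ0, mul_one]
      have hN : (((rot c η).comp A).comp B).natDegree ≠ 0 := by
        rw [comp_assoc, natDegree_comp, rot_natDegree hη0, one_mul]; exact hD
      obtain ⟨l, hl, hlB⟩ := same_deg hB0 hd h3 hN
      obtain ⟨a, b, ha, rfl⟩ := aff_form hl
      have h4 := congrArg leadingCoeff hlB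
      rw [leadingCoeff_comp (by rw [rot_natDegree hξ0]; exact one_ne_zero),
        leadingCoeff_comp hB0, rot_leadingCoeff hξ0, natDegree_linear ha, pow_one,
        leadingCoeff_linear ha, mul_comm a] at h4
      have hBl : B.leadingCoeff ≠ 0 := by
        rw [leadingCoeff_ne_zero]; rintro rfl; simp at hB0
      have h5 : ξ ^ B.natDegree = a := mul_left_cancel₀ hBl h4
      have hcopB : Nat.Coprime B.natDegree k := by
        rw [natDegree_comp] at hcop
        exact (Nat.Coprime.coprime_mul_left_right hcop).symm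
      have hap : IsPrimitiveRoot a k := by
        rw [← h5]; exact hξ.pow_of_coprime _ hcopB
      have ha1 : a ≠ 1 := by
        rintro rfl
        exact hk1 (hap.unique IsPrimitiveRoot.one)
      refine ⟨b / (1 - a), a, hap, ?_⟩
      rw [hlB, rot_eq]
      have : b / (1 - a) - a * (b / (1 - a)) = b := by
        have : (1 - a) ≠ 0 := sub_ne_zero.mpr (Ne.symm ha1)
        field_simp
      rw [this]
  obtain ⟨c', a, ha, h3⟩ := h2
  obtain ⟨Bb, hBb⟩ := Qt.of_rot hk hξ ha.pow_eq_one h3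
  have h4 : A.comp (rot c' a) = (rot c η).comp A := by
    apply comp_right_cancel hB0
    rw [comp_assoc, ← h3, ← comp_assoc, h1, comp_assoc]
  obtain ⟨Ab, hAb⟩ := Qt.of_rot hk ha hη h4
  refine ⟨c', Ab, Bb, hBb, hAb, ?_⟩
  apply comp_right_cancel (W := (X - C c) ^ k) (by rw [pow_natDegree]; exact hk)
  rw [← hQ, ← comp_assoc, hAb, comp_assoc, hBb, comp_assoc]

theorem quot_El {k : ℕ} (hk : k ≠ 0) {ξ : K} (hξ : IsPrimitiveRoot ξ k) {F G : K[X]}
    (hD : F.natDegree ≠ 0) (hcop : Nat.Coprime k F.natDegree) (hE : ElC F G)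
    {c : K} {Fb : K[X]} (hQ : Qt k c F Fb) :
    ∃ (c' : K) (Gb : K[X]), Qt k c' G Gb ∧ ElC Fb Gb := by
  unfold ElC at hE
  induction hE with
  | refl => exact ⟨c, Fb, hQ, Relation.ReflTransGen.refl⟩
  | @tail G1 G2 h1 h2 ih =>
    obtain ⟨c1, Gb1, hQ1, hE1⟩ := ih
    obtain ⟨A, B, hA, hB⟩ := h2
    have hG1 : G1.natDegree = F.natDegree := (ElC.natDegree h1).symm
    rw [hA] at hQ1
    obtain ⟨c', Ab, Bb, h3, h4, h5⟩ := quot_split hk hξ (by rw [← hA, hG1]; exact hD)
      (by rw [← hA, hG1]; exact hcop) hQ1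
    refine ⟨c', Bb.comp Ab, ?_, Relation.ReflTransGen.tail hE1 ⟨Ab, Bb, h5, rfl⟩⟩
    unfold Qt
    rw [hB, ← comp_assoc, h3, comp_assoc, h4, comp_assoc]

omit [IsAlgClosed K] in
/-- Uniqueness of the center. -/
theorem center_unique {F : K[X]} (hF : F.natDegree ≠ 0) {c c' : K}
    (h1 : (taylor c F).coeff (F.natDegree - 1) = 0)
    (h2 : (taylor c' F).coeff (F.natDegree - 1) = 0) : c = c' := by
  rw [taylor_coeff] at h1 h2
  set H := hasseDeriv (F.natDegree - 1) F with hH
  have hd : H.natDegree ≤ 1 := by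
    rw [natDegree_le_iff_coeff_eq_zero]
    intro N hN
    rw [hH, hasseDeriv_coeff, coeff_eq_zero_of_natDegree_lt (by omega), mul_zero]
  obtain ⟨a, b, hab⟩ := exists_eq_X_add_C_of_natDegree_le_one hd
  have ha : a ≠ 0 := by
    have h3 : H.coeff 1 = a := by rw [hab]; simp
    rw [← h3, hH, hasseDeriv_coeff]
    have h4 : 1 + (F.natDegree - 1) = F.natDegree := by omega
    rw [h4]
    have hF0 : F ≠ 0 := by rintro rfl; simp at hF
    refine mul_ne_zero ?_ (leadingCoeff_ne_zero.mpr hF0)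
    rw [Nat.cast_ne_zero]
    exact (Nat.choose_pos (by omega)).ne'
  rw [hab] at h1 h2
  simp only [eval_add, eval_mul, eval_C, eval_X] at h1 h2
  exact mul_left_cancel₀ ha (by linear_combination h1 - h2)

omit [CharZero K] [IsAlgClosed K] in
theorem center_of_rot {F : K[X]} (hF : 2 ≤ F.natDegree) {c c' ξ η : K} (hξ : ξ ≠ 1)
    (hξ0 : ξ ≠ 0)
    (h : F.comp (rot c ξ) = (rot c' η).comp F) : (taylor c F).coeff (F.natDegree - 1) = 0 := by
  have h1 : (taylor c F).comp (C ξ * X) = (rot c' η).comp (taylor c F) := by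
    rw [taylor_apply, ← comp_assoc, ← h, comp_assoc, comp_assoc]
    congr 1
    unfold rot
    simp only [add_comp, mul_comp, sub_comp, X_comp, C_comp]
    ring
  have hc : ∀ j, j ≠ 0 → (taylor c F).coeff j * ξ ^ j = η * (taylor c F).coeff j := by
    intro j hj
    have h2 := congrArg (fun p => coeff p j) h1
    simp only [comp_C_mul_X_coeff] at h2
    rw [h2, rot_eq, add_comp, mul_comp, X_comp, C_comp, C_comp, coeff_add, coeff_C_mul, coeff_C,
      if_neg hj, add_zero]
  have hD : (taylor c F).coeff F.natDegree ≠ 0 := by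
    have h3 : (taylor c F).natDegree = F.natDegree := natDegree_taylor F c
    have h4 : taylor c F ≠ 0 := by
      intro h0; rw [h0] at h3; simp at h3; omega
    rw [← h3]; exact leadingCoeff_ne_zero.mpr h4
  have h5 := hc F.natDegree (by omega)
  rw [mul_comm] at h5
  have h6 : ξ ^ F.natDegree = η := mul_right_cancel₀ hD h5
  have h7 := hc (F.natDegree - 1) (by omega)
  by_contra hne
  rw [mul_comm] at h7
  have h8 : ξ ^ (F.natDegree - 1) = η := mul_right_cancel₀ hne h7
  apply hξ
  have h9 : F.natDegree = (F.natDegree - 1) + 1 := by omega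
  rw [h9, pow_succ, h8] at h6
  have hη : η ≠ 0 := by rw [← h8]; exact pow_ne_zero _ hξ0
  exact mul_left_cancel₀ hη (by rw [h6, mul_one])

theorem primRoot (k : ℕ) (hk : k ≠ 0) : ∃ ξ : K, IsPrimitiveRoot ξ k := by
  have : NeZero (k : K) := ⟨by exact_mod_cast hk⟩
  exact HasEnoughRootsOfUnity.exists_primitiveRoot K k

omit [CharZero K] [IsAlgClosed K] in
theorem primRoot_ne_one {k : ℕ} (hk : 2 ≤ k) {ξ : K} (hξ : IsPrimitiveRoot ξ k) : ξ ≠ 1 := by
  rintro rfl
  have := hξ.unique IsPrimitiveRoot.one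
  omega

theorem quot_center {k k' : ℕ} (hk : 2 ≤ k) (hk' : 2 ≤ k') {F Fb Fb' : K[X]}
    (hF : 2 ≤ F.natDegree) {c c' : K} (h : Qt k c F Fb) (h' : Qt k' c' F Fb') : c = c' := by
  obtain ⟨ξ, hξ⟩ := primRoot (K := K) k (by omega)
  obtain ⟨ξ', hξ'⟩ := primRoot (K := K) k' (by omega)
  obtain ⟨η, _, h1⟩ := h.rot (by omega) hξ
  obtain ⟨η', _, h1'⟩ := h'.rot (by omega) hξ'
  exact center_unique (by omega)
    (center_of_rot hF (primRoot_ne_one hk hξ) (hξ.ne_zero (by omega)) h1)
    (center_of_rot hF (primRoot_ne_one hk' hξ') (hξ'.ne_zero (by omega)) h1')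

omit [CharZero K] [IsAlgClosed K] in
theorem quot_one (c : K) (F : K[X]) : ∃ Fb : K[X], Qt 1 c F Fb := by
  refine ⟨((X - C c).comp F).comp (X + C c), ?_⟩
  unfold Qt
  rw [pow_one, comp_add_sub]

/-- Quotients by coprime powers of iterates come from quotients of the map itself. -/
theorem quot_iter {k : ℕ} (hk : k ≠ 0) {P : K[X]} (hP : 2 ≤ P.natDegree)
    (hcop : Nat.Coprime k P.natDegree) {n : ℕ} (hn : n ≠ 0) {c : K} {Fb : K[X]}
    (hQ : Qt k c (itr P n) Fb) : ∃ Pb : K[X], Qt k c P Pb ∧ itr Pb n = Fb := by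
  have key : ∃ Pb : K[X], Qt k c P Pb := by
    by_cases hk1 : k = 1
    · subst hk1; exact quot_one c P
    · obtain ⟨ξ, hξ⟩ := primRoot (K := K) k hk
      obtain ⟨n', rfl⟩ := Nat.exists_eq_succ_of_ne_zero hn
      have hdeg : (itr P (n' + 1)).natDegree = P.natDegree ^ (n' + 1) := itr_natDegree _ _
      have hcop' : Nat.Coprime k (itr P (n' + 1)).natDegree := by
        rw [hdeg]; exact Nat.Coprime.pow_right _ hcop
      have h2 : 2 ≤ (itr P (n' + 1)).natDegree := by
        rw [hdeg, pow_succ]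
        have : 1 ≤ P.natDegree ^ n' := Nat.one_le_pow _ _ (by omega)
        nlinarith
      have hQ' := hQ
      rw [Nat.succ_eq_add_one, itr_succ'] at hQ'
      obtain ⟨c', Ab, Bb, h3, h4, h5⟩ := quot_split hk hξ (by rw [← itr_succ']; omega)
        (by rw [← itr_succ']; exact hcop') hQ'
      have h6 : Qt k c' (itr P (n' + 1)) (Bb.comp Ab) := by
        unfold Qt
        rw [itr_succ, ← comp_assoc, h3, comp_assoc, h4, comp_assoc]
      have h7 : c = c' := quot_center (by omega) (by omega) h2 hQ h6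
      subst h7
      exact ⟨Bb, h3⟩
  obtain ⟨Pb, hPb⟩ := key
  refine ⟨Pb, hPb, ?_⟩
  apply comp_right_cancel (W := (X - C c) ^ k) (by rw [pow_natDegree]; exact hk)
  rw [← hQ]
  exact (itr_semi hPb n).symm

omit [CharZero K] [IsAlgClosed K] in
/-- The exponents of a centered polynomial with a quotient. -/
theorem quot_coeff {k : ℕ} (hk : k ≠ 0) {F Fb : K[X]} (hF : F.natDegree ≠ 0) {c : K}
    (h : Qt k c F Fb) {ξ : K} (hξ : IsPrimitiveRoot ξ k) :
    ∀ j, ((taylor c F) - C c).coeff j ≠ 0 → ξ ^ j = ξ ^ F.natDegree := by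
  obtain ⟨η, _, h1⟩ := h.rot hk hξ
  have h2 : (taylor c F - C c).comp (C ξ * X) = C η * (taylor c F - C c) := by
    have h3 : (F.comp (rot c ξ)).comp (X + C c) = ((rot c η).comp F).comp (X + C c) := by
      rw [h1]
    rw [taylor_apply]
    unfold rot at h3
    rw [comp_assoc] at h3
    simp only [add_comp, mul_comp, sub_comp, X_comp, C_comp, comp_assoc] at h3 ⊢
    have e : C ξ * (X + C c - C c) + C c = C ξ * X + C c := by ring
    rw [e] at h3
    rw [h3]; ring
  have hc : ∀ j, (taylor c F - C c).coeff j * ξ ^ j = η * (taylor c F - C c).coeff j := by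
    intro j
    have h4 := congrArg (fun p => coeff p j) h2
    simpa only [comp_C_mul_X_coeff, coeff_C_mul] using h4
  have hD : (taylor c F - C c).coeff F.natDegree ≠ 0 := by
    have h3 : (taylor c F - C c).natDegree = F.natDegree := by
      rw [natDegree_sub_C, natDegree_taylor]
    have h4 : taylor c F - C c ≠ 0 := by
      intro h0; rw [h0] at h3; simp at h3; exact hF h3.symm
    rw [← h3]; exact leadingCoeff_ne_zero.mpr h4
  intro j hj
  have e1 : ξ ^ j = η := mul_left_cancel₀ hj (by rw [hc j, mul_comm])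
  have e2 : ξ ^ F.natDegree = η := mul_left_cancel₀ hD (by rw [hc, mul_comm])
  rw [e1, e2]

omit [CharZero K] [IsAlgClosed K] in
/-- A power residue statement. -/
theorem modEq_of_prim {k : ℕ} {ξ : K} (hξ : IsPrimitiveRoot ξ k) (hk : k ≠ 0) {i j : ℕ} :
    ξ ^ i = ξ ^ j ↔ i ≡ j [MOD k] := by
  have hu : IsPrimitiveRoot (hξ.isUnit hk).unit k := by
    rw [← IsPrimitiveRoot.coe_units_iff]; exact hξ
  have h1 := pow_eq_pow_iff_modEq (x := (hξ.isUnit hk).unit) (m := j) (n := i)
  rw [← hu.eq_orderOf] at h1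
  rw [← h1, Units.ext_iff, Units.val_pow_eq_pow_val, Units.val_pow_eq_pow_val]
  rfl

theorem quot_lcm_aux {p q : ℕ} (hp : p ≠ 0) (hq : q ≠ 0) {F Fp Fq : K[X]}
    (hF : F.natDegree ≠ 0) {c : K} (h1 : Qt p c F Fp) (h2 : Qt q c F Fq) :
    ∃ Fk : K[X], Qt (Nat.lcm p q) c F Fk := by
  have hk : Nat.lcm p q ≠ 0 := Nat.lcm_ne_zero hp hq
  obtain ⟨ξp, hξp⟩ := primRoot (K := K) p hp
  obtain ⟨ξq, hξq⟩ := primRoot (K := K) q hq
  obtain ⟨ξ, hξ⟩ := primRoot (K := K) (Nat.lcm p q) hk
  have e1 := quot_coeff hp hF h1 hξp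
  have e2 := quot_coeff hq hF h2 hξq
  have e3 : (taylor c F - C c).comp (C ξ * X) = C (ξ ^ F.natDegree) * (taylor c F - C c) := by
    ext j
    rw [comp_C_mul_X_coeff, coeff_C_mul]
    by_cases hj : (taylor c F - C c).coeff j = 0
    · rw [hj, zero_mul, mul_zero]
    · have m1 := (modEq_of_prim hξp hp).mp (e1 j hj)
      have m2 := (modEq_of_prim hξq hq).mp (e2 j hj)
      have m3 : j ≡ F.natDegree [MOD (Nat.lcm p q)] := by
        rw [Nat.modEq_iff_dvd] at m1 m2 ⊢
        have := Int.coe_lcm_dvd m1 m2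
        simpa using this
      rw [(modEq_of_prim hξ hk).mpr m3, mul_comm]
  apply Qt.of_rot (c' := c) hk hξ (η := ξ ^ F.natDegree)
    (by rw [← pow_mul, mul_comm, pow_mul, hξ.pow_eq_one, one_pow])
  have e4 := congrArg (fun p => p.comp (X - C c)) e3
  simp only [taylor_apply, sub_comp, mul_comp, comp_assoc, add_comp, X_comp, C_comp,
    sub_add_cancel, comp_X] at e4
  unfold rot
  simp only [add_comp, mul_comp, sub_comp, X_comp, C_comp]
  linear_combination e4

theorem quot_lcm {p q : ℕ} (hp : p ≠ 0) (hq : q ≠ 0) {F Fp Fq : K[X]}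
    (hF : 2 ≤ F.natDegree) {c c' : K} (h1 : Qt p c F Fp) (h2 : Qt q c' F Fq) :
    ∃ (c'' : K) (Fk : K[X]), Qt (Nat.lcm p q) c'' F Fk := by
  by_cases hp1 : p = 1
  · subst hp1
    rw [Nat.lcm_one_left]
    exact ⟨c', Fq, h2⟩
  by_cases hq1 : q = 1
  · subst hq1
    rw [Nat.lcm_one_right]
    exact ⟨c, Fp, h1⟩
  have hc : c = c' := quot_center (by omega) (by omega) hF h1 h2
  subst hc
  exact ⟨c, quot_lcm_aux hp hq (by omega) h1 h2⟩

/-- Two polynomials with a common iterate are linked by a chain. -/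
theorem chain_of_iter_eq {P Q : K[X]} (hP : 2 ≤ P.natDegree) {n : ℕ} (hn : n ≠ 0)
    (h : itr P n = itr Q n) : Chain P Q := by
  have hPQ : P.natDegree = Q.natDegree := by
    have := congrArg Polynomial.natDegree h
    rw [itr_natDegree, itr_natDegree] at this
    exact Nat.pow_left_injective hn this
  obtain ⟨n', rfl⟩ := Nat.exists_eq_succ_of_ne_zero hn
  have hn' : n'.succ = n' + 1 := rfl
  have h1 : (itr P n').comp P = (itr Q n').comp Q := by
    rw [← itr_succ', ← itr_succ', ← hn', h]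
  have hdeg : (itr P n'.succ).natDegree = P.natDegree ^ (n' + 1) := itr_natDegree _ _
  have hD2 : 2 ≤ (itr P n'.succ).natDegree := by
    rw [hdeg, pow_succ]
    have : 1 ≤ P.natDegree ^ n' := Nat.one_le_pow _ _ (by omega)
    nlinarith
  obtain ⟨l, hl, hlQ⟩ := same_deg (by omega) hPQ h1 (by rw [← itr_succ', ← hn']; omega)
  -- `l` commutes with the iterate
  have hcomm : l.comp (itr P n'.succ) = (itr P n'.succ).comp l := by
    apply comp_right_cancel (W := P) (by omega)
    calc (l.comp (itr P n'.succ)).comp P = (l.comp P).comp (itr P n'.succ) := by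
          rw [comp_assoc, ← itr_comm, ← comp_assoc]
      _ = Q.comp (itr Q n'.succ) := by rw [← hlQ, h]
      _ = (itr Q n'.succ).comp Q := itr_comm _ _
      _ = ((itr P n'.succ).comp l).comp P := by rw [← h, hlQ, comp_assoc]
  obtain ⟨a, b, ha, rfl⟩ := aff_form hl
  set F := itr P n'.succ with hFdef
  have hF0 : F.natDegree ≠ 0 := by omega
  have hFl : F.leadingCoeff ≠ 0 := by
    rw [leadingCoeff_ne_zero]; intro h0; rw [h0] at hF0; simp at hF0
  have hlc := congrArg leadingCoeff hcomm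
  rw [leadingCoeff_comp hF0, leadingCoeff_comp (by rw [natDegree_linear ha]; exact one_ne_zero),
    natDegree_linear ha, leadingCoeff_linear ha, pow_one, mul_comm] at hlc
  have haD : a = a ^ F.natDegree := mul_left_cancel₀ hFl hlc
  have haD1 : a ^ (F.natDegree - 1) = 1 := by
    have h5 : F.natDegree = (F.natDegree - 1) + 1 := by omega
    rw [h5, pow_succ] at haD
    exact mul_right_cancel₀ ha (by rw [one_mul]; exact haD.symm)
  by_cases ha1 : a = 1
  · -- translation
    subst ha1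
    have hb : b = 0 := by
      have h6 : (taylor b F).coeff (F.natDegree - 1) = (taylor 0 F).coeff (F.natDegree - 1) := by
        rw [taylor_zero, taylor_apply]
        have h7 : F.comp (X + C b) = F + C b := by
          have := hcomm
          rw [C_1, one_mul, add_comp, X_comp, C_comp] at this
          exact this.symm
        rw [h7, coeff_add, coeff_C, if_neg (by omega), add_zero]
      rw [taylor_coeff, taylor_coeff] at h6
      set H := hasseDeriv (F.natDegree - 1) F with hH
      have hd : H.natDegree ≤ 1 := by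
        rw [natDegree_le_iff_coeff_eq_zero]
        intro N hN
        rw [hH, hasseDeriv_coeff, coeff_eq_zero_of_natDegree_lt (by omega), mul_zero]
      obtain ⟨a', b', hab⟩ := exists_eq_X_add_C_of_natDegree_le_one hd
      have ha' : a' ≠ 0 := by
        have h3 : H.coeff 1 = a' := by rw [hab]; simp
        rw [← h3, hH, hasseDeriv_coeff]
        have h4 : 1 + (F.natDegree - 1) = F.natDegree := by omega
        rw [h4]
        refine mul_ne_zero ?_ hFl
        rw [Nat.cast_ne_zero]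
        exact (Nat.choose_pos (by omega)).ne'
      rw [hab] at h6
      simp only [eval_add, eval_mul, eval_C, eval_X] at h6
      exact mul_left_cancel₀ ha' (by linear_combination h6)
    subst hb
    have : Q = P := by rw [hlQ]; simp
    rw [this]
    exact Chain.refl P
  · -- rotation
    set c := b / (1 - a) with hc
    have hlrot : C a * X + C b = rot c a := by
      rw [rot_eq, hc]
      have : b / (1 - a) - a * (b / (1 - a)) = b := by
        have : (1 - a) ≠ 0 := sub_ne_zero.mpr (Ne.symm ha1)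
        field_simp
      rw [this]
    rw [hlrot] at hcomm hlQ
    have hfin : orderOf a ≠ 0 := by
      rw [ne_eq, orderOf_eq_zero_iff', not_forall]
      exact ⟨F.natDegree - 1, by
        rw [Classical.not_imp, not_not]
        exact ⟨by omega, haD1⟩⟩
    have hprim : IsPrimitiveRoot a (orderOf a) := IsPrimitiveRoot.orderOf a
    obtain ⟨Fb, hFb⟩ := Qt.of_rot (F := F) (c := c) (c' := c) hfin hprim
      (pow_orderOf_eq_one a) hcomm.symm
    have hcop : Nat.Coprime (orderOf a) P.natDegree := by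
      have hdvd : orderOf a ∣ F.natDegree - 1 := orderOf_dvd_of_pow_eq_one haD1
      have h8 : Nat.Coprime (orderOf a) F.natDegree := by
        rw [Nat.coprime_iff_gcd_eq_one]
        have h9 : Nat.gcd (orderOf a) F.natDegree ∣ 1 := by
          have g1 : Nat.gcd (orderOf a) F.natDegree ∣ F.natDegree - 1 :=
            (Nat.gcd_dvd_left _ _).trans hdvd
          have g2 := Nat.gcd_dvd_right (orderOf a) F.natDegree
          have g3 := Nat.dvd_sub g2 g1
          have g4 : F.natDegree - (F.natDegree - 1) = 1 := by omega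
          rwa [g4] at g3
        exact Nat.dvd_one.mp h9
      rw [hdeg] at h8
      exact Nat.Coprime.coprime_dvd_right (dvd_pow_self _ (by omega)) h8
    obtain ⟨Pb, hPb, _⟩ := quot_iter hfin hP hcop hn hFb
    have hQb : Qt (orderOf a) c Q Pb := by
      unfold Qt
      rw [hlQ, ← comp_assoc, pow_comp_rot c a (pow_orderOf_eq_one a)]
      exact hPb
    have hdk : ((X - C c) ^ (orderOf a)).natDegree ≠ 0 := by rw [pow_natDegree]; exact hfin
    exact (Semi.chain ⟨_, hdk, hPb⟩).trans (Semi.chain ⟨_, hdk, hQb⟩).symm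

end Iw
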