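import Mathlib

/-!
# Pick forms on three points

Helper file for `MP_cbd977_an`.
-/

open scoped InnerProductSpace ComplexConjugate ComplexOrder

namespace Pool.Agent.Helper88.PseudoPick

noncomputable section

/-- The kernel `k = 4 I - J` on three points. -/
def kk (x y : Fin 3) : ℝ := if x = y then 3 else -1

/-- The kernel `ℓ = 4 I + J` on three points. -/
def ll (x y : Fin 3) : ℝ := if x = y then 5 else 1

section Forms

variable {E : Type*} [NormedAddCommGroup E] [InnerProductSpace ℂ E]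

/-- Real part of the inner product. -/
def ri (x y : E) : ℝ := RCLike.re ⟪x, y⟫_ℂ

lemma ri_symm (x y : E) : ri x y = ri y x := inner_re_symm x y

lemma ri_add_left (x y z : E) : ri (x + y) z = ri x z + ri y z := by
  simp [ri]

lemma ri_add_right (x y z : E) : ri x (y + z) = ri x y + ri x z := by
  simp [ri]

lemma ri_sub_left (x y z : E) : ri (x - y) z = ri x z - ri y z := by
  simp [ri]

lemma ri_sub_right (x y z : E) : ri x (y - z) = ri x y - ri x z := by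
  simp [ri]

lemma ri_smul_left (c : ℝ) (x y : E) : ri ((c : ℂ) • x) y = c * ri x y := by
  simp [ri]

lemma ri_smul_right (c : ℝ) (x y : E) : ri x ((c : ℂ) • y) = c * ri x y := by
  simp [ri]

lemma ri_neg_left (x y : E) : ri (-x) y = - ri x y := by
  simp [ri]

lemma ri_neg_right (x y : E) : ri x (-y) = - ri x y := by
  simp [ri]

lemma ri_self (x : E) : ri x x = ‖x‖ ^ 2 := by
  rw [ri, inner_self_eq_norm_sq]

lemma ri_self_nonneg (x : E) : 0 ≤ ri x x := by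
  rw [ri_self]; positivity

/-- The Pick form of the adjoint values `A x` with respect to the kernel `c`. -/
def form (c : Fin 3 → Fin 3 → ℝ) (A : Fin 3 → E →ₗ[ℂ] E) (v : Fin 3 → E) : ℝ :=
  ∑ x, ∑ y, c x y * (ri (v x) (v y) - ri (A x (v x)) (A y (v y)))

/-- The three point step: `k`-contractive implies `ℓ`-contractive. -/
lemma three_point {A : Fin 3 → E →ₗ[ℂ] E} (h : ∀ v, 0 ≤ form kk A v) (v : Fin 3 → E) :
    0 ≤ form ll A v := by
  have h1 := h ![((3 : ℝ) : ℂ) • v 0, ((3 : ℝ) : ℂ) • v 1, ((-5 : ℝ) : ℂ) • v 2]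
  have h2 := h ![((3 : ℝ) : ℂ) • v 0, ((-3 : ℝ) : ℂ) • v 1, v 0 - v 1]
  have h3 := ri_self_nonneg (A 2 (v 0 - v 1) - (A 0 (v 0) - A 1 (v 1)))
  simp only [form, Fin.sum_univ_three, kk, ll, Matrix.cons_val_zero, Matrix.cons_val_one,
    Matrix.cons_val_two, Matrix.head_cons, Matrix.tail_cons, map_smul, ri_smul_left, ri_smul_right,
    ri_sub_left, ri_sub_right, map_sub] at h1 h2 h3 ⊢
  simp only [Fin.isValue, Fin.reduceEq, if_true, if_false, ri_symm (v 1) (v 0),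
    ri_symm (v 2) (v 0), ri_symm (v 2) (v 1),
    ri_symm (A 1 (v 1)) (A 0 (v 0)), ri_symm (A 2 (v 2)) (A 0 (v 0)),
    ri_symm (A 2 (v 2)) (A 1 (v 1)), ri_symm (A 2 (v 1)) (A 2 (v 0)),
    ri_symm (A 2 (v 0)) (A 0 (v 0)), ri_symm (A 2 (v 1)) (A 0 (v 0)),
    ri_symm (A 2 (v 0)) (A 1 (v 1)), ri_symm (A 2 (v 1)) (A 1 (v 1))] at h1 h2 h3 ⊢
  linarith

/-- Two linear maps with equal norms differ by an isometry. -/
lemma exists_isometry {E' F' : Type*} [NormedAddCommGroup E'] [InnerProductSpace ℂ E']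
    [NormedAddCommGroup F'] [InnerProductSpace ℂ F'] [FiniteDimensional ℂ F']
    (f g : E' →ₗ[ℂ] F') (h : ∀ x, ‖g x‖ = ‖f x‖) : ∃ V : F' →ₗᵢ[ℂ] F', ∀ x, V (f x) = g x := by
  obtain ⟨s, hs⟩ := LinearMap.exists_rightInverse_of_surjective f.rangeRestrict f.range_rangeRestrict
  have hs' : ∀ y : LinearMap.range f, f (s y) = y := by
    intro y
    have := congrArg Subtype.val (LinearMap.congr_fun hs y)
    exact this
  let L : LinearMap.range f →ₗᵢ[ℂ] F' :=
    { toLinearMap := g ∘ₗ s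
      norm_map' := by
        intro y
        change ‖g (s y)‖ = ‖y‖
        rw [h, hs']
        rfl }
  refine ⟨L.extend, fun x => ?_⟩
  have h1 := L.extend_apply ⟨f x, LinearMap.mem_range_self f x⟩
  have h2 : L ⟨f x, LinearMap.mem_range_self f x⟩ = g (s ⟨f x, LinearMap.mem_range_self f x⟩) := rfl
  rw [h2] at h1
  refine h1.trans ?_
  have h3 : f (s ⟨f x, LinearMap.mem_range_self f x⟩ - x) = 0 := by
    rw [map_sub, hs', sub_self]
  have h4 : ‖g (s ⟨f x, LinearMap.mem_range_self f x⟩ - x)‖ = 0 := by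
    rw [h, h3, norm_zero]
  rw [norm_eq_zero, map_sub, sub_eq_zero] at h4
  exact h4

/-- Factorisation of a positive form on `E ⊕ E`. -/
lemma exists_factor [FiniteDimensional ℂ E] (A B : E →ₗ[ℂ] E)
    (h : ∀ u v : E, 0 ≤ 3 * (ri u u - ri (A u) (A u)) + 3 * (ri v v - ri (B v) (B v))
      - 2 * (ri u v - ri (A u) (B v))) :
    ∃ (m : ℕ) (β γ : E →ₗ[ℂ] EuclideanSpace ℂ (Fin m)),
      (∀ u v, ⟪β u, β v⟫_ℂ = 2 * (⟪u, v⟫_ℂ - ⟪A u, A v⟫_ℂ)) ∧
      (∀ u v, ⟪γ u, γ v⟫_ℂ = 2 * (⟪u, v⟫_ℂ - ⟪B u, B v⟫_ℂ)) ∧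
      (∀ u v, ⟪β u, γ v⟫_ℂ = 2 / 3 * (⟪u, v⟫_ℂ - ⟪A u, B v⟫_ℂ)) := by
  let p : WithLp 2 (E × E) →ₗ[ℂ] E := (WithLp.fstL 2 ℂ E E).toLinearMap
  let q : WithLp 2 (E × E) →ₗ[ℂ] E := (WithLp.sndL 2 ℂ E E).toLinearMap
  let T : WithLp 2 (E × E) →ₗ[ℂ] WithLp 2 (E × E) :=
    (2 : ℂ) • (p.adjoint ∘ₗ p - (A ∘ₗ p).adjoint ∘ₗ (A ∘ₗ p))
    + (2 / 3 : ℂ) • (p.adjoint ∘ₗ q - (A ∘ₗ p).adjoint ∘ₗ (B ∘ₗ q))
    + (2 / 3 : ℂ) • (q.adjoint ∘ₗ p - (B ∘ₗ q).adjoint ∘ₗ (A ∘ₗ p))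
    + (2 : ℂ) • (q.adjoint ∘ₗ q - (B ∘ₗ q).adjoint ∘ₗ (B ∘ₗ q))
  have hT : ∀ x y : WithLp 2 (E × E), ⟪x, T y⟫_ℂ
      = 2 * (⟪p x, p y⟫_ℂ - ⟪A (p x), A (p y)⟫_ℂ)
      + 2 / 3 * (⟪p x, q y⟫_ℂ - ⟪A (p x), B (q y)⟫_ℂ)
      + 2 / 3 * (⟪q x, p y⟫_ℂ - ⟪B (q x), A (p y)⟫_ℂ)
      + 2 * (⟪q x, q y⟫_ℂ - ⟪B (q x), B (q y)⟫_ℂ) := by
    intro x y
    simp only [T, LinearMap.add_apply, LinearMap.smul_apply, LinearMap.sub_apply,
      LinearMap.comp_apply, inner_add_right, inner_smul_right, inner_sub_right,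
      LinearMap.adjoint_inner_right]
  have hpos : (LinearMap.toContinuousLinearMap T).IsPositive := by
    rw [ContinuousLinearMap.isPositive_iff_complex]
    intro x
    have h1 : ⟪(LinearMap.toContinuousLinearMap T) x, x⟫_ℂ = conj ⟪x, T x⟫_ℂ := by
      rw [inner_conj_symm]; rfl
    have h2 : ⟪x, T x⟫_ℂ = ((2 / 3 * (3 * (ri (p x) (p x) - ri (A (p x)) (A (p x)))
        + 3 * (ri (q x) (q x) - ri (B (q x)) (B (q x)))
        + 2 * (ri (p x) (q x) - ri (A (p x)) (B (q x)))) : ℝ) : ℂ) := by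
      rw [hT]
      have e1 : ∀ z : E, ⟪z, z⟫_ℂ = ((ri z z : ℝ) : ℂ) := by
        intro z
        rw [ri_self, inner_self_eq_norm_sq_to_K]
        simp
      have e2 : ∀ z w : E, ⟪w, z⟫_ℂ = 2 * ((ri z w : ℝ) : ℂ) - ⟪z, w⟫_ℂ := by
        intro z w
        have hc : ⟪w, z⟫_ℂ = conj ⟪z, w⟫_ℂ := (inner_conj_symm w z).symm
        rw [hc]
        unfold ri
        generalize ⟪z, w⟫_ℂ = c
        apply Complex.ext
        · simp; ring
        · simp
      rw [e1, e1, e1, e1, e2 (p x) (q x), e2 (A (p x)) (B (q x))]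
      push_cast
      ring
    have h3 := h (p x) (-(q x))
    simp only [ri_neg_left, ri_neg_right, map_neg] at h3
    rw [h1, h2, Complex.conj_ofReal]
    constructor
    · simp
    · change 0 ≤ (2 / 3 * (3 * (ri (p x) (p x) - ri (A (p x)) (A (p x)))
        + 3 * (ri (q x) (q x) - ri (B (q x)) (B (q x)))
        + 2 * (ri (p x) (q x) - ri (A (p x)) (B (q x)))))
      linarith
  obtain ⟨m, w, hw⟩ := ContinuousLinearMap.isPositive_iff_eq_sum_rankOne.mp hpos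
  have hTw : ∀ x, T x = ∑ i, ⟪w i, x⟫_ℂ • w i := by
    intro x
    have := congrArg (fun S : WithLp 2 (E × E) →L[ℂ] WithLp 2 (E × E) => S x) hw
    simpa using this
  let i1 : E →ₗ[ℂ] WithLp 2 (E × E) :=
    (WithLp.linearEquiv 2 ℂ (E × E)).symm.toLinearMap ∘ₗ LinearMap.inl ℂ E E
  let i2 : E →ₗ[ℂ] WithLp 2 (E × E) :=
    (WithLp.linearEquiv 2 ℂ (E × E)).symm.toLinearMap ∘ₗ LinearMap.inr ℂ E E
  have p1 : ∀ u, p (i1 u) = u := fun _ => rfl
  have p2 : ∀ u, p (i2 u) = 0 := fun _ => rfl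
  have q1 : ∀ u, q (i1 u) = 0 := fun _ => rfl
  have q2 : ∀ u, q (i2 u) = u := fun _ => rfl
  let b : WithLp 2 (E × E) →ₗ[ℂ] EuclideanSpace ℂ (Fin m) :=
    (WithLp.linearEquiv 2 ℂ (Fin m → ℂ)).symm.toLinearMap ∘ₗ
      LinearMap.pi (fun i => (innerSL ℂ (w i)).toLinearMap)
  have hb : ∀ x y, ⟪b x, b y⟫_ℂ = ⟪x, T y⟫_ℂ := by
    intro x y
    rw [hTw, inner_sum, PiLp.inner_apply]
    refine Finset.sum_congr rfl fun i _ => ?_
    rw [inner_smul_right]
    change ⟪⟪w i, x⟫_ℂ, ⟪w i, y⟫_ℂ⟫_ℂ = _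
    rw [RCLike.inner_apply, inner_conj_symm]
  refine ⟨m, b ∘ₗ i1, b ∘ₗ i2, ?_, ?_, ?_⟩
  · intro u v
    simp only [LinearMap.comp_apply, hb, hT, p1, q1]
    simp
  · intro u v
    simp only [LinearMap.comp_apply, hb, hT, p2, q2]
    simp
  · intro u v
    simp only [LinearMap.comp_apply, hb, hT, p1, p2, q1, q2]
    simp

/-- Extension from two points to three points, given a factorisation. -/
lemma two_point_ext_aux [FiniteDimensional ℂ E] (A B : E →ₗ[ℂ] E) {K : Type*}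
    [NormedAddCommGroup K] [InnerProductSpace ℂ K] [FiniteDimensional ℂ K] (β γ : E →ₗ[ℂ] K)
    (hβ : ∀ u v, ⟪β u, β v⟫_ℂ = 2 * (⟪u, v⟫_ℂ - ⟪A u, A v⟫_ℂ))
    (hγ : ∀ u v, ⟪γ u, γ v⟫_ℂ = 2 * (⟪u, v⟫_ℂ - ⟪B u, B v⟫_ℂ))
    (hβγ : ∀ u v, ⟪β u, γ v⟫_ℂ = 2 / 3 * (⟪u, v⟫_ℂ - ⟪A u, B v⟫_ℂ)) :
    ∃ C : E →ₗ[ℂ] E, ∀ u v w : E, 0 ≤ 5 * (ri u u - ri (A u) (A u))
      + 5 * (ri v v - ri (B v) (B v)) + 5 * (ri w w - ri (C w) (C w))
      + 2 * (ri u v - ri (A u) (B v)) + 2 * (ri u w - ri (A u) (C w))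
      + 2 * (ri v w - ri (B v) (C w)) := by
  let j1 : E →ₗ[ℂ] WithLp 2 (E × K) :=
    (WithLp.linearEquiv 2 ℂ (E × K)).symm.toLinearMap ∘ₗ LinearMap.inl ℂ E K
  let j2 : K →ₗ[ℂ] WithLp 2 (E × K) :=
    (WithLp.linearEquiv 2 ℂ (E × K)).symm.toLinearMap ∘ₗ LinearMap.inr ℂ E K
  let π1 : WithLp 2 (E × K) →ₗ[ℂ] E := (WithLp.fstL 2 ℂ E K).toLinearMap
  let π2 : WithLp 2 (E × K) →ₗ[ℂ] K := (WithLp.sndL 2 ℂ E K).toLinearMap
  have hj : ∀ (x x' : E) (y y' : K), ⟪j1 x + j2 y, j1 x' + j2 y'⟫_ℂ = ⟪x, x'⟫_ℂ + ⟪y, y'⟫_ℂ := by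
    intro x x' y y'
    rw [WithLp.prod_inner_apply]
    have e1 : (j1 x + j2 y).ofLp.fst = x + 0 := rfl
    have e2 : (j1 x' + j2 y').ofLp.fst = x' + 0 := rfl
    have e3 : (j1 x + j2 y).ofLp.snd = 0 + y := rfl
    have e4 : (j1 x' + j2 y').ofLp.snd = 0 + y' := rfl
    rw [e1, e2, e3, e4, add_zero, add_zero, zero_add, zero_add]
  have hdec : ∀ z : WithLp 2 (E × K), z = j1 (π1 z) + j2 (π2 z) := by
    intro z
    apply WithLp.ofLp_injective
    have e1 : (j1 (π1 z) + j2 (π2 z)).ofLp = (z.ofLp.fst + 0, 0 + z.ofLp.snd) := rfl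
    rw [e1, add_zero, zero_add]
  let s : ℂ := ((√(1 / 2) : ℝ) : ℂ)
  have hs : conj s * s = 1 / 2 := by
    rw [Complex.conj_ofReal, ← Complex.ofReal_mul, Real.mul_self_sqrt (by norm_num)]
    norm_num
  let p : WithLp 2 (E × E) →ₗ[ℂ] E := (WithLp.fstL 2 ℂ E E).toLinearMap
  let q : WithLp 2 (E × E) →ₗ[ℂ] E := (WithLp.sndL 2 ℂ E E).toLinearMap
  let f : WithLp 2 (E × E) →ₗ[ℂ] WithLp 2 (E × K) :=
    j1 ∘ₗ (p + q) + j2 ∘ₗ (s • (β ∘ₗ p - γ ∘ₗ q))
  let g : WithLp 2 (E × E) →ₗ[ℂ] WithLp 2 (E × K) :=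
    j1 ∘ₗ (A ∘ₗ p + B ∘ₗ q) + j2 ∘ₗ (β ∘ₗ p + γ ∘ₗ q)
  have hf : ∀ x, f x = j1 (p x + q x) + j2 (s • (β (p x) - γ (q x))) := fun _ => rfl
  have hg : ∀ x, g x = j1 (A (p x) + B (q x)) + j2 (β (p x) + γ (q x)) := fun _ => rfl
  have hγβ : ∀ u v, ⟪γ u, β v⟫_ℂ = 2 / 3 * (⟪u, v⟫_ℂ - ⟪B u, A v⟫_ℂ) := by
    intro u v
    rw [← inner_conj_symm, hβγ, map_mul, map_sub, inner_conj_symm, inner_conj_symm]
    congr 1
    rw [map_div₀, Complex.conj_ofNat, Complex.conj_ofNat]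
  have hfg : ∀ x, ⟪g x, g x⟫_ℂ = ⟪f x, f x⟫_ℂ := by
    intro x
    rw [hf, hg, hj, hj]
    simp only [inner_add_left, inner_add_right, inner_sub_left, inner_sub_right, inner_smul_left,
      inner_smul_right, hβ, hγ, hβγ, hγβ]
    linear_combination (-(2 * (⟪p x, p x⟫_ℂ - ⟪A (p x), A (p x)⟫_ℂ)
      - 2 / 3 * (⟪q x, p x⟫_ℂ - ⟪B (q x), A (p x)⟫_ℂ)
      - 2 / 3 * (⟪p x, q x⟫_ℂ - ⟪A (p x), B (q x)⟫_ℂ)
      + 2 * (⟪q x, q x⟫_ℂ - ⟪B (q x), B (q x)⟫_ℂ))) * hs
  have hnorm : ∀ x, ‖g x‖ = ‖f x‖ := by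
    intro x
    have h1 := hfg x
    rw [inner_self_eq_norm_sq_to_K, inner_self_eq_norm_sq_to_K] at h1
    have h2 : ‖g x‖ ^ 2 = ‖f x‖ ^ 2 := by exact_mod_cast h1
    exact (pow_left_inj₀ (norm_nonneg _) (norm_nonneg _) two_ne_zero).mp h2
  obtain ⟨V, hV⟩ := exists_isometry f g hnorm
  let C : E →ₗ[ℂ] E := π1 ∘ₗ V.toLinearMap ∘ₗ j1
  let δ : E →ₗ[ℂ] K := π2 ∘ₗ V.toLinearMap ∘ₗ j1
  have hVw : ∀ w, V (j1 w + j2 0) = j1 (C w) + j2 (δ w) := by
    intro w
    rw [map_zero, add_zero]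
    exact hdec (V (j1 w))
  -- the relations
  let i1 : E →ₗ[ℂ] WithLp 2 (E × E) :=
    (WithLp.linearEquiv 2 ℂ (E × E)).symm.toLinearMap ∘ₗ LinearMap.inl ℂ E E
  let i2 : E →ₗ[ℂ] WithLp 2 (E × E) :=
    (WithLp.linearEquiv 2 ℂ (E × E)).symm.toLinearMap ∘ₗ LinearMap.inr ℂ E E
  have p1 : ∀ u, p (i1 u) = u := fun _ => rfl
  have p2 : ∀ u, p (i2 u) = 0 := fun _ => rfl
  have q1 : ∀ u, q (i1 u) = 0 := fun _ => rfl
  have q2 : ∀ u, q (i2 u) = u := fun _ => rfl
  have r1 : ∀ u w, ⟪β u, δ w⟫_ℂ = ⟪u, w⟫_ℂ - ⟪A u, C w⟫_ℂ := by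
    intro u w
    have h1 := V.inner_map_map (f (i1 u)) (j1 w + j2 0)
    rw [hV, hVw, hf, hg, hj, hj, p1, q1] at h1
    simp only [map_zero, add_zero, inner_zero_right] at h1
    rw [← h1]; ring
  have r2 : ∀ v w, ⟪γ v, δ w⟫_ℂ = ⟪v, w⟫_ℂ - ⟪B v, C w⟫_ℂ := by
    intro u w
    have h1 := V.inner_map_map (f (i2 u)) (j1 w + j2 0)
    rw [hV, hVw, hf, hg, hj, hj, p2, q2] at h1
    simp only [map_zero, zero_add, inner_zero_right, add_zero] at h1
    rw [← h1]; ring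
  have r3 : ∀ w w', ⟪δ w, δ w'⟫_ℂ = ⟪w, w'⟫_ℂ - ⟪C w, C w'⟫_ℂ := by
    intro w w'
    have h1 := V.inner_map_map (j1 w + j2 0) (j1 w' + j2 0)
    rw [hVw, hVw, hj, hj, inner_zero_right, add_zero] at h1
    rw [← h1]; ring
  refine ⟨C, fun u v w => ?_⟩
  have t1 : ri (β u) (β u) = 2 * (ri u u - ri (A u) (A u)) := by
    have := congrArg Complex.re (hβ u u)
    simpa [ri] using this
  have t2 : ri (γ v) (γ v) = 2 * (ri v v - ri (B v) (B v)) := by
    have := congrArg Complex.re (hγ v v)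
    simpa [ri] using this
  have t3 : ri (β u) (γ v) = 2 / 3 * (ri u v - ri (A u) (B v)) := by
    have := congrArg Complex.re (hβγ u v)
    simpa [ri] using this
  have t4 : ri (β u) (δ w) = ri u w - ri (A u) (C w) := by
    have := congrArg Complex.re (r1 u w)
    simpa [ri] using this
  have t5 : ri (γ v) (δ w) = ri v w - ri (B v) (C w) := by
    have := congrArg Complex.re (r2 v w)
    simpa [ri] using this
  have t6 : ri (δ w) (δ w) = ri w w - ri (C w) (C w) := by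
    have := congrArg Complex.re (r3 w w)
    simpa [ri] using this
  have n1 := ri_self_nonneg (β u + γ v + δ w)
  have n2 := ri_self_nonneg (β u + γ v)
  have n3 := ri_self_nonneg (β u)
  have n4 := ri_self_nonneg (γ v)
  have n5 := ri_self_nonneg (δ w)
  simp only [ri_add_left, ri_add_right] at n1 n2
  rw [ri_symm (γ v) (β u), ri_symm (δ w) (β u), ri_symm (δ w) (γ v)] at n1
  rw [ri_symm (γ v) (β u)] at n2
  linarith

/-- Extension from two points to three points. -/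
lemma two_point_ext [FiniteDimensional ℂ E] (A B : E →ₗ[ℂ] E)
    (h : ∀ u v : E, 0 ≤ 3 * (ri u u - ri (A u) (A u)) + 3 * (ri v v - ri (B v) (B v))
      - 2 * (ri u v - ri (A u) (B v))) :
    ∃ C : E →ₗ[ℂ] E, ∀ u v w : E, 0 ≤ 5 * (ri u u - ri (A u) (A u))
      + 5 * (ri v v - ri (B v) (B v)) + 5 * (ri w w - ri (C w) (C w))
      + 2 * (ri u v - ri (A u) (B v)) + 2 * (ri u w - ri (A u) (C w))
      + 2 * (ri v w - ri (B v) (C w)) := by
  obtain ⟨m, β, γ, hβ, hγ, hβγ⟩ := exists_factor A B h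
  exact two_point_ext_aux A B β γ hβ hγ hβγ

/-- A two-valued kernel: `d` on the diagonal, `e` off it. -/
lemma form_eq (c : Fin 3 → Fin 3 → ℝ) (d e : ℝ) (hc : ∀ x y, c x y = if x = y then d else e)
    (A : Fin 3 → E →ₗ[ℂ] E) (v : Fin 3 → E) (x y z : Fin 3) (hxy : x ≠ y) (hxz : x ≠ z)
    (hyz : y ≠ z) :
    form c A v = d * (ri (v x) (v x) - ri (A x (v x)) (A x (v x)))
      + d * (ri (v y) (v y) - ri (A y (v y)) (A y (v y)))
      + d * (ri (v z) (v z) - ri (A z (v z)) (A z (v z)))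
      + 2 * e * (ri (v x) (v y) - ri (A x (v x)) (A y (v y)))
      + 2 * e * (ri (v x) (v z) - ri (A x (v x)) (A z (v z)))
      + 2 * e * (ri (v y) (v z) - ri (A y (v y)) (A z (v z))) := by
  have huniv : (Finset.univ : Finset (Fin 3)) = {x, y, z} := by
    revert x y z; decide
  have hsum : ∀ f : Fin 3 → ℝ, ∑ w, f w = f x + f y + f z := by
    intro f
    rw [huniv, Finset.sum_insert (by simp [hxy, hxz]), Finset.sum_insert (by simp [hyz]),
      Finset.sum_singleton, add_assoc]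
  simp only [form, hsum, hc]
  simp only [if_true, hxy, hxz, hyz, hxy.symm, hxz.symm, hyz.symm, if_false]
  rw [ri_symm (v y) (v x), ri_symm (v z) (v x), ri_symm (v z) (v y),
    ri_symm (A y (v y)) (A x (v x)), ri_symm (A z (v z)) (A x (v x)),
    ri_symm (A z (v z)) (A y (v y))]
  ring

lemma kk_eq (x y : Fin 3) : kk x y = if x = y then 3 else -1 := rfl

lemma ll_eq (x y : Fin 3) : ll x y = if x = y then 5 else 1 := rfl

/-- Extension from an arbitrary nonempty subset. -/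
lemma extension [FiniteDimensional ℂ E] (S : Set (Fin 3)) (hS : S.Nonempty)
    (A : Fin 3 → E →ₗ[ℂ] E) (h : ∀ v : Fin 3 → E, (∀ x, x ∉ S → v x = 0) → 0 ≤ form kk A v) :
    ∃ A' : Fin 3 → E →ₗ[ℂ] E, (∀ x ∈ S, A' x = A x) ∧ ∀ v, 0 ≤ form ll A' v := by
  classical
  -- the pair case
  have pair : ∀ (x y z : Fin 3) (B : Fin 3 → E →ₗ[ℂ] E), x ≠ y → x ≠ z → y ≠ z →
      (∀ u v : E, 0 ≤ 3 * (ri u u - ri (B x u) (B x u)) + 3 * (ri v v - ri (B y v) (B y v))
      - 2 * (ri u v - ri (B x u) (B y v))) →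
      ∃ A' : Fin 3 → E →ₗ[ℂ] E, A' x = B x ∧ A' y = B y ∧ ∀ v, 0 ≤ form ll A' v := by
    intro x y z B hxy hxz hyz hB
    obtain ⟨C, hC⟩ := two_point_ext (B x) (B y) hB
    refine ⟨fun w => if w = z then C else B w, by simp [hxz], by simp [hyz], fun v => ?_⟩
    rw [form_eq ll 5 1 ll_eq _ v x y z hxy hxz hyz]
    simp only [hxz, hyz, if_false, if_true]
    have := hC (v x) (v y) (v z)
    linarith
  -- contraction at each point of S
  have single : ∀ x ∈ S, ∀ u : E, 0 ≤ ri u u - ri (A x u) (A x u) := by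
    intro x hx u
    obtain ⟨y, z, hxy, hxz, hyz⟩ : ∃ y z, x ≠ y ∧ x ≠ z ∧ y ≠ z := by
      clear hx; revert x; decide
    have := h (fun w => if w = x then u else 0) (fun w hw => by
      rw [if_neg]; rintro rfl; exact hw hx)
    rw [form_eq kk 3 (-1) kk_eq _ _ x y z hxy hxz hyz] at this
    simp only [hxy.symm, hxz.symm, if_false, if_true, map_zero, ri,
      inner_zero_right, map_zero] at this ⊢
    linarith
  have two : ∀ x y z : Fin 3, x ≠ y → x ≠ z → y ≠ z → x ∈ S → y ∈ S →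
      (∀ u v : E, 0 ≤ 3 * (ri u u - ri (A x u) (A x u)) + 3 * (ri v v - ri (A y v) (A y v))
      - 2 * (ri u v - ri (A x u) (A y v))) := by
    intro x y z hxy hxz hyz hx hy u v
    have := h (fun w => if w = x then u else if w = y then v else 0) (fun w hw => by
      rw [if_neg, if_neg]
      · rintro rfl; exact hw hy
      · rintro rfl; exact hw hx)
    rw [form_eq kk 3 (-1) kk_eq _ _ x y z hxy hxz hyz] at this
    simp only [hxy.symm, hxz.symm, hyz.symm, if_false, if_true, map_zero, ri,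
      inner_zero_right, map_zero] at this ⊢
    linarith
  by_cases hall : ∀ x, x ∈ S
  · exact ⟨A, fun _ _ => rfl, three_point fun v => h v (fun x hx => absurd (hall x) hx)⟩
  · push Not at hall
    obtain ⟨z, hz⟩ := hall
    obtain ⟨x, hx⟩ := hS
    have hxz : x ≠ z := by rintro rfl; exact hz hx
    obtain ⟨y, hxy, hyz⟩ : ∃ y, x ≠ y ∧ y ≠ z := by
      clear hx hz hxz; revert x z; decide
    have hmem : ∀ w ∈ S, w = x ∨ w = y := by
      intro w hw
      have : w ≠ z := by rintro rfl; exact hz hw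
      have key : ∀ x y z w : Fin 3, x ≠ y → x ≠ z → y ≠ z → w ≠ z → w = x ∨ w = y := by decide
      exact key x y z w hxy hxz hyz this
    by_cases hy : y ∈ S
    · obtain ⟨A', h1, h2, h3⟩ := pair x y z A hxy hxz hyz (two x y z hxy hxz hyz hx hy)
      refine ⟨A', fun w hw => ?_, h3⟩
      rcases hmem w hw with rfl | rfl
      · exact h1
      · exact h2
    · obtain ⟨A', h1, h2, h3⟩ := pair x y z (fun _ => A x) hxy hxz hyz (by
        intro u v
        have e1 := single x hx u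
        have e2 := single x hx v
        have e3 := single x hx (u - v)
        simp only [map_sub, ri_sub_left, ri_sub_right] at e3
        rw [ri_symm v u, ri_symm (A x v) (A x u)] at e3
        linarith)
      refine ⟨A', fun w hw => ?_, h3⟩
      rcases hmem w hw with rfl | rfl
      · exact h1
      · exact absurd hw hy

end Forms

open Matrix in
/-- Pick matrix positivity as a form. -/
lemma pick_form {n : ℕ} (z : Fin n → Fin 3) (W : Fin n → Matrix (Fin n) (Fin n) ℂ)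
    (h : (Matrix.of fun (p q : Fin n × Fin n) =>
      (1 - W p.1 * (W q.1)ᴴ) p.2 q.2 * ((kk (z p.1) (z q.1) : ℝ) : ℂ)).PosSemidef)
    (v : Fin n → EuclideanSpace ℂ (Fin n)) :
    0 ≤ ∑ p, ∑ q, kk (z p) (z q) * (ri (v p) (v q)
      - ri (toEuclideanLin (W p)ᴴ (v p)) (toEuclideanLin (W q)ᴴ (v q))) := by
  have h1 := h.re_dotProduct_nonneg (fun p => v p.1 p.2)
  have h2 : star (fun p : Fin n × Fin n => v p.1 p.2) ⬝ᵥ
      ((Matrix.of fun (p q : Fin n × Fin n) =>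
      (1 - W p.1 * (W q.1)ᴴ) p.2 q.2 * ((kk (z p.1) (z q.1) : ℝ) : ℂ)) *ᵥ
        (fun p : Fin n × Fin n => v p.1 p.2))
      = ∑ p, ∑ q, ((kk (z p) (z q) : ℝ) : ℂ) * (⟪v p, v q⟫_ℂ
        - ⟪toEuclideanLin (W p)ᴴ (v p), toEuclideanLin (W q)ᴴ (v q)⟫_ℂ) := by
    simp only [dotProduct, mulVec, Fintype.sum_prod_type, Matrix.of_apply, Pi.star_apply,
      Finset.mul_sum]
    refine Finset.sum_congr rfl fun p _ => ?_
    rw [Finset.sum_comm]
    refine Finset.sum_congr rfl fun q _ => ?_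
    have h3 : ⟪v p, v q⟫_ℂ - ⟪toEuclideanLin (W p)ᴴ (v p), toEuclideanLin (W q)ᴴ (v q)⟫_ℂ
        = star (v p).ofLp ⬝ᵥ ((1 - W p * (W q)ᴴ) *ᵥ (v q).ofLp) := by
      rw [EuclideanSpace.inner_eq_star_dotProduct, EuclideanSpace.inner_eq_star_dotProduct]
      rw [sub_mulVec, one_mulVec, dotProduct_sub, ← mulVec_mulVec, dotProduct_mulVec]
      congr 1
      · rw [dotProduct_comm]
      · rw [dotProduct_comm]
        congr 1
        rw [ofLp_toLpLin, toLin'_apply, star_mulVec, conjTranspose_conjTranspose]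
    rw [h3]
    simp only [dotProduct, mulVec, Finset.mul_sum, Pi.star_apply]
    refine Finset.sum_congr rfl fun i _ => Finset.sum_congr rfl fun j _ => ?_
    ring
  rw [h2] at h1
  have h3 : RCLike.re (∑ p, ∑ q, ((kk (z p) (z q) : ℝ) : ℂ) * (⟪v p, v q⟫_ℂ
        - ⟪toEuclideanLin (W p)ᴴ (v p), toEuclideanLin (W q)ᴴ (v q)⟫_ℂ))
      = ∑ p, ∑ q, kk (z p) (z q) * (ri (v p) (v q)
      - ri (toEuclideanLin (W p)ᴴ (v p)) (toEuclideanLin (W q)ᴴ (v q))) := by
    rw [map_sum]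
    refine Finset.sum_congr rfl fun p _ => ?_
    rw [map_sum]
    refine Finset.sum_congr rfl fun q _ => ?_
    rw [RCLike.re_to_complex, Complex.re_ofReal_mul, Complex.sub_re]
    rfl
  rwa [h3] at h1

open Matrix in
/-- The extension statement in terms of matrices. -/
lemma main_ext {n : ℕ} (hn : 1 ≤ n) (z : Fin n → Fin 3) (W : Fin n → Matrix (Fin n) (Fin n) ℂ)
    (h : (Matrix.of fun (p q : Fin n × Fin n) =>
      (1 - W p.1 * (W q.1)ᴴ) p.2 q.2 * ((kk (z p.1) (z q.1) : ℝ) : ℂ)).PosSemidef) :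
    ∃ Φ : Fin 3 → Matrix (Fin n) (Fin n) ℂ,
      (∀ v, 0 ≤ form ll (fun x => toEuclideanLin (Φ x)ᴴ) v) ∧ ∀ i, Φ (z i) = W i := by
  classical
  have hform := pick_form z W h
  -- equal points have equal values
  have heq : ∀ p q, z p = z q → W p = W q := by
    intro p q hpq
    by_cases hne : p = q
    · rw [hne]
    have hA : ∀ u : EuclideanSpace ℂ (Fin n),
        toEuclideanLin (W p)ᴴ u = toEuclideanLin (W q)ᴴ u := by
      intro u
      have h1 := hform (fun r => if r = p then u else if r = q then -u else 0)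
      have hsum : ∀ f : Fin n → ℝ, (∀ r, r ≠ p → r ≠ q → f r = 0) → ∑ r, f r = f p + f q := by
        intro f hf
        rw [← Finset.sum_subset (Finset.subset_univ {p, q})
          (fun r _ hr => hf r (fun h => hr (by simp [h])) (fun h => hr (by simp [h])))]
        rw [Finset.sum_pair hne]
      rw [hsum _ (by
        intro r hr1 hr2
        refine Finset.sum_eq_zero fun s _ => ?_
        simp only [hr1, hr2, if_false, map_zero, ri, inner_zero_left, sub_zero, mul_zero])] at h1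
      rw [hsum _ (by
        intro r hr1 hr2
        simp only [hr1, hr2, if_false, map_zero, ri, inner_zero_right, sub_zero, mul_zero])] at h1
      rw [hsum _ (by
        intro r hr1 hr2
        simp only [hr1, hr2, if_false, map_zero, ri, inner_zero_right, sub_zero, mul_zero])] at h1
      have hne' : ¬ q = p := fun h => hne h.symm
      simp only [if_true, hne', if_false, hpq, map_neg, ri_neg_left, ri_neg_right, kk_eq] at h1
      have h2 := ri_self (toEuclideanLin (W p)ᴴ u - toEuclideanLin (W q)ᴴ u)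
      simp only [ri_sub_left, ri_sub_right] at h2
      have h3 : ‖toEuclideanLin (W p)ᴴ u - toEuclideanLin (W q)ᴴ u‖ ^ 2 ≤ 0 := by
        rw [← h2]
        linarith
      have h4 : ‖toEuclideanLin (W p)ᴴ u - toEuclideanLin (W q)ᴴ u‖ = 0 := by
        have := sq_nonneg ‖toEuclideanLin (W p)ᴴ u - toEuclideanLin (W q)ᴴ u‖
        exact pow_eq_zero_iff two_ne_zero |>.mp (le_antisymm h3 this)
      exact sub_eq_zero.mp (norm_eq_zero.mp h4)
    have h5 : toEuclideanLin (W p)ᴴ = toEuclideanLin (W q)ᴴ := LinearMap.ext hA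
    exact conjTranspose_injective (toEuclideanLin.injective h5)
  let S : Set (Fin 3) := Set.range z
  have hS : S.Nonempty := ⟨z ⟨0, hn⟩, Set.mem_range_self _⟩
  let σ : Fin 3 → Fin n := fun x => if hx : ∃ p, z p = x then hx.choose else ⟨0, hn⟩
  have hσ : ∀ x ∈ S, z (σ x) = x := by
    intro x hx
    have hx' : ∃ p, z p = x := hx
    simp only [σ, dif_pos hx']
    exact hx'.choose_spec
  have hH : ∀ v : Fin 3 → EuclideanSpace ℂ (Fin n), (∀ x, x ∉ S → v x = 0) →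
      0 ≤ form kk (fun x => toEuclideanLin (W (σ x))ᴴ) v := by
    intro v hv
    have h1 := hform (fun p => if σ (z p) = p then v (z p) else 0)
    -- both sides agree
    have key : ∀ f : Fin n → ℝ, (∀ p, σ (z p) ≠ p → f p = 0) → ∀ g : Fin 3 → ℝ,
        (∀ x ∈ S, g x = f (σ x)) → (∀ x, x ∉ S → g x = 0) → ∑ p, f p = ∑ x, g x := by
      intro f hf g hg hg0
      rw [← Finset.sum_filter_add_sum_filter_not Finset.univ (fun p => σ (z p) = p),
        ← Finset.sum_filter_add_sum_filter_not (Finset.univ : Finset (Fin 3)) (fun x => x ∈ S)]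
      rw [Finset.sum_eq_zero (s := Finset.univ.filter (fun p => ¬ σ (z p) = p))
        (fun p hp => hf p (Finset.mem_filter.mp hp).2),
        Finset.sum_eq_zero (s := Finset.univ.filter (fun x => ¬ x ∈ S))
        (fun x hx => hg0 x (Finset.mem_filter.mp hx).2), add_zero, add_zero]
      refine Finset.sum_bij' (fun p _ => z p) (fun x _ => σ x) ?_ ?_ ?_ ?_ ?_
      · intro p _
        simp [S]
      · intro x hx
        have hx' := (Finset.mem_filter.mp hx).2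
        simp [hσ x hx']
      · intro p hp
        exact (Finset.mem_filter.mp hp).2
      · intro x hx
        exact hσ x (Finset.mem_filter.mp hx).2
      · intro p hp
        rw [hg (z p) (Set.mem_range_self p), (Finset.mem_filter.mp hp).2]
    have h2 : ∑ p, ∑ q, kk (z p) (z q) *
        (ri (if σ (z p) = p then v (z p) else 0) (if σ (z q) = q then v (z q) else 0)
        - ri (toEuclideanLin (W p)ᴴ (if σ (z p) = p then v (z p) else 0))
          (toEuclideanLin (W q)ᴴ (if σ (z q) = q then v (z q) else 0)))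
        = form kk (fun x => toEuclideanLin (W (σ x))ᴴ) v := by
      unfold form
      apply key
      · intro p hp
        refine Finset.sum_eq_zero fun q _ => ?_
        simp only [hp, if_false, map_zero, ri, inner_zero_left, sub_zero, mul_zero]
      · intro x hx
        symm
        apply key
        · intro q hq
          simp only [hq, if_false, map_zero, ri, inner_zero_right, sub_zero, mul_zero]
        · intro y hy
          simp only [hσ x hx, hσ y hy, if_true]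
        · intro y hy
          simp only [hv y hy, map_zero, ri, inner_zero_right, sub_zero, mul_zero]
      · intro x hx
        refine Finset.sum_eq_zero fun q _ => ?_
        simp only [hv x hx, map_zero, ri, inner_zero_left, sub_zero, mul_zero]
    rw [← h2]
    exact h1
  obtain ⟨A', h1, h2⟩ := extension S hS _ hH
  refine ⟨fun x => (toEuclideanLin.symm (A' x))ᴴ, ?_, ?_⟩
  · simpa only [conjTranspose_conjTranspose, LinearEquiv.apply_symm_apply] using h2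
  · intro i
    have h3 := h1 (z i) (Set.mem_range_self i)
    change (toEuclideanLin.symm (A' (z i)))ᴴ = W i
    rw [h3, LinearEquiv.symm_apply_apply, conjTranspose_conjTranspose]
    exact heq _ _ (hσ (z i) (Set.mem_range_self i))

/-! ### The multiplier criterion -/

section Multiplier

variable {H : Type*} [NormedAddCommGroup H] [InnerProductSpace ℂ H] [CompleteSpace H]
  [RKHS ℂ H (Fin 3) ℂ]

open Matrix in
/-- If the Pick form is nonnegative then the function is a contractive multiplier. -/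
lemma multiplier_of_form (hker : ∀ x y : Fin 3, RKHS.kernel H x y 1 = ((ll x y : ℝ) : ℂ)) {n : ℕ}
    (Φ : Fin 3 → Matrix (Fin n) (Fin n) ℂ)
    (hΦ : ∀ v, 0 ≤ form ll (fun x => toEuclideanLin (Φ x)ᴴ) v)
    (F : PiLp 2 (fun _ : Fin n => H)) :
    ∃ G : PiLp 2 (fun _ : Fin n => H),
      (∀ (x : Fin 3) (i : Fin n), (G i) x = ∑ j, Φ x i j * (F j) x) ∧ ‖G‖ ≤ ‖F‖ := by
  classical
  let κ : Fin 3 → H := fun x => RKHS.kerFun H x 1
  have hκ : ∀ (f : H) (x : Fin 3), ⟪κ x, f⟫_ℂ = f x := by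
    intro f x
    simp only [κ, RKHS.kerFun_inner]
    simp
  have hκκ : ∀ x y, ⟪κ x, κ y⟫_ℂ = ((ll x y : ℝ) : ℂ) := by
    intro x y
    rw [hκ, RKHS.kerFun_apply, hker]
  -- the map `a ↦ ∑ κ_x ⊗ a_x`
  let M : (Fin 3 → EuclideanSpace ℂ (Fin n)) → PiLp 2 (fun _ : Fin n => H) :=
    fun a => WithLp.toLp 2 (fun i => ∑ x, (a x i) • κ x)
  have hM : ∀ a i, M a i = ∑ x, (a x i) • κ x := fun _ _ => rfl
  have hMF : ∀ a (F : PiLp 2 (fun _ : Fin n => H)), ⟪M a, F⟫_ℂ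
      = ∑ x, ∑ i, conj (a x i) * (F i) x := by
    intro a F
    rw [PiLp.inner_apply, Finset.sum_comm]
    refine Finset.sum_congr rfl fun i _ => ?_
    rw [hM, sum_inner]
    refine Finset.sum_congr rfl fun x _ => ?_
    rw [inner_smul_left, hκ]
  have hMM : ∀ a, ‖M a‖ ^ 2 = ∑ x, ∑ y, ll x y * ri (a x) (a y) := by
    intro a
    have h1 : ((‖M a‖ ^ 2 : ℝ) : ℂ) = ∑ x, ∑ y, ((ll x y : ℝ) : ℂ) * ⟪a x, a y⟫_ℂ := by
      have h0 : ⟪M a, M a⟫_ℂ = ((‖M a‖ ^ 2 : ℝ) : ℂ) := by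
        rw [inner_self_eq_norm_sq_to_K]; simp
      rw [← h0, hMF]
      refine Finset.sum_congr rfl fun x _ => ?_
      have h2 : ∀ i, (M a i) x = ∑ y, ((ll x y : ℝ) : ℂ) * a y i := by
        intro i
        rw [← hκ, hM, inner_sum]
        refine Finset.sum_congr rfl fun y _ => ?_
        rw [inner_smul_right, hκκ, mul_comm]
      simp only [h2, Finset.mul_sum]
      rw [Finset.sum_comm]
      refine Finset.sum_congr rfl fun y _ => ?_
      rw [PiLp.inner_apply, Finset.mul_sum]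
      refine Finset.sum_congr rfl fun i _ => ?_
      rw [RCLike.inner_apply]; ring
    have h2 := congrArg Complex.re h1
    rw [Complex.ofReal_re] at h2
    rw [h2, Complex.re_sum]
    refine Finset.sum_congr rfl fun x _ => ?_
    rw [Complex.re_sum]
    refine Finset.sum_congr rfl fun y _ => ?_
    rw [Complex.re_ofReal_mul]
    rfl
  -- the target function and its coefficients
  let τ : Fin 3 → EuclideanSpace ℂ (Fin n) := fun x => WithLp.toLp 2 (fun i => ∑ j, Φ x i j * (F j) x)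
  have hτ : ∀ x i, τ x i = ∑ j, Φ x i j * (F j) x := fun _ _ => rfl
  let g : Fin 3 → EuclideanSpace ℂ (Fin n) :=
    fun y => (1 / 4 : ℂ) • (τ y - (1 / 7 : ℂ) • (τ 0 + τ 1 + τ 2))
  have hg : ∀ y i, g y i = 1 / 4 * (τ y i - 1 / 7 * (τ 0 i + τ 1 i + τ 2 i)) := fun _ _ => rfl
  have hGx : ∀ x i, (M g i) x = τ x i := by
    intro x i
    rw [← hκ, hM, inner_sum]
    simp only [inner_smul_right, hκκ, Fin.sum_univ_three, hg]
    fin_cases x
    · simp [ll]; ring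
    · simp [ll]; ring
    · simp [ll]; ring
  refine ⟨M g, fun x i => hGx x i, ?_⟩
  let h : Fin 3 → EuclideanSpace ℂ (Fin n) := fun x => toEuclideanLin (Φ x)ᴴ (g x)
  have hh : ∀ x j, h x j = ∑ i, conj (Φ x i j) * g x i := by
    intro x j
    simp only [h]
    rw [ofLp_toLpLin, toLin'_apply]
    simp only [mulVec, dotProduct, conjTranspose_apply]
    rfl
  have h1 : ⟪M g, M g⟫_ℂ = ⟪M h, F⟫_ℂ := by
    rw [hMF, hMF]
    refine Finset.sum_congr rfl fun x _ => ?_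
    simp only [hGx, hτ, hh, map_sum, map_mul, Complex.conj_conj, Finset.mul_sum, Finset.sum_mul]
    rw [Finset.sum_comm]
    refine Finset.sum_congr rfl fun i _ => Finset.sum_congr rfl fun j _ => ?_
    ring
  have h2 : ‖M h‖ ^ 2 ≤ ‖M g‖ ^ 2 := by
    rw [hMM, hMM]
    have := hΦ g
    unfold form at this
    simp only [mul_sub, Finset.sum_sub_distrib] at this
    simp only [h]
    linarith
  have h3 : ‖M h‖ ≤ ‖M g‖ := by
    exact (pow_le_pow_iff_left₀ (norm_nonneg _) (norm_nonneg _) two_ne_zero).mp h2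
  have h4 : ‖M g‖ ^ 2 ≤ ‖M h‖ * ‖F‖ := by
    have h5 : ((‖M g‖ ^ 2 : ℝ) : ℂ) = ⟪M h, F⟫_ℂ := by
      rw [← h1, inner_self_eq_norm_sq_to_K]; simp
    have h6 : ‖⟪M h, F⟫_ℂ‖ ≤ ‖M h‖ * ‖F‖ := norm_inner_le_norm _ _
    rw [← h5, Complex.norm_real, Real.norm_of_nonneg (by positivity)] at h6
    exact h6
  have h5 : ‖M g‖ ^ 2 ≤ ‖M g‖ * ‖F‖ := h4.trans (by gcongr)
  rcases (norm_nonneg (M g)).eq_or_lt with h0 | h0
  · rw [← h0]; exact norm_nonneg _
  · rw [sq] at h5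
    exact le_of_mul_le_mul_left h5 h0

end Multiplier

/-! ### Positivity of the kernels and the Hilbert space -/

open Matrix in
lemma posDef_kk : (Matrix.of fun x y : Fin 3 => ((kk x y : ℝ) : ℂ)).PosDef := by
  refine PosDef.of_dotProduct_mulVec_pos ?_ ?_
  · ext x y
    simp only [conjTranspose_apply, of_apply, kk]
    split_ifs <;> simp_all
  · intro x hx
    have h1 : star x ⬝ᵥ ((Matrix.of fun x y : Fin 3 => ((kk x y : ℝ) : ℂ)) *ᵥ x)
        = ((‖x 0‖ ^ 2 + ‖x 1‖ ^ 2 + ‖x 2‖ ^ 2 + ‖x 0 - x 1‖ ^ 2 + ‖x 0 - x 2‖ ^ 2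
          + ‖x 1 - x 2‖ ^ 2 : ℝ) : ℂ) := by
      have e : ∀ z : ℂ, ((‖z‖ ^ 2 : ℝ) : ℂ) = conj z * z := by
        intro z
        rw [← Complex.normSq_eq_norm_sq, Complex.normSq_eq_conj_mul_self]
      simp only [Complex.ofReal_add, e, map_sub]
      simp only [dotProduct, mulVec, Fin.sum_univ_three, kk, of_apply, Pi.star_apply]
      simp
      ring
    rw [h1]
    have h2 : (0 : ℝ) < ‖x 0‖ ^ 2 + ‖x 1‖ ^ 2 + ‖x 2‖ ^ 2 + ‖x 0 - x 1‖ ^ 2 + ‖x 0 - x 2‖ ^ 2
          + ‖x 1 - x 2‖ ^ 2 := by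
      obtain ⟨i, hi⟩ : ∃ i, x i ≠ 0 := by
        by_contra hcon
        push Not at hcon
        exact hx (funext hcon)
      have h3 : ∀ i, 0 ≤ ‖x i‖ ^ 2 := fun i => by positivity
      have h4 : 0 < ‖x i‖ ^ 2 := by positivity
      have h5 : ‖x i‖ ^ 2 ≤ ‖x 0‖ ^ 2 + ‖x 1‖ ^ 2 + ‖x 2‖ ^ 2 := by
        fin_cases i <;> simp <;> nlinarith [h3 0, h3 1, h3 2]
      have h6 : 0 ≤ ‖x 0 - x 1‖ ^ 2 := by positivity
      have h7 : 0 ≤ ‖x 0 - x 2‖ ^ 2 := by positivity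
      have h8 : 0 ≤ ‖x 1 - x 2‖ ^ 2 := by positivity
      linarith
    exact_mod_cast h2

open Matrix in
lemma posDef_ll : (Matrix.of fun x y : Fin 3 => ((ll x y : ℝ) : ℂ)).PosDef := by
  refine PosDef.of_dotProduct_mulVec_pos ?_ ?_
  · ext x y
    simp only [conjTranspose_apply, of_apply, ll]
    split_ifs <;> simp_all
  · intro x hx
    have h1 : star x ⬝ᵥ ((Matrix.of fun x y : Fin 3 => ((ll x y : ℝ) : ℂ)) *ᵥ x)
        = ((4 * ‖x 0‖ ^ 2 + 4 * ‖x 1‖ ^ 2 + 4 * ‖x 2‖ ^ 2 + ‖x 0 + x 1 + x 2‖ ^ 2 : ℝ) : ℂ) := by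
      have e : ∀ z : ℂ, ((‖z‖ ^ 2 : ℝ) : ℂ) = conj z * z := by
        intro z
        rw [← Complex.normSq_eq_norm_sq, Complex.normSq_eq_conj_mul_self]
      simp only [Complex.ofReal_add, Complex.ofReal_mul, e, map_add]
      simp only [dotProduct, mulVec, Fin.sum_univ_three, ll, of_apply, Pi.star_apply]
      simp
      ring
    rw [h1]
    have h2 : (0 : ℝ) < 4 * ‖x 0‖ ^ 2 + 4 * ‖x 1‖ ^ 2 + 4 * ‖x 2‖ ^ 2
        + ‖x 0 + x 1 + x 2‖ ^ 2 := by
      obtain ⟨i, hi⟩ : ∃ i, x i ≠ 0 := by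
        by_contra hcon
        push Not at hcon
        exact hx (funext hcon)
      have h3 : ∀ i, 0 ≤ ‖x i‖ ^ 2 := fun i => by positivity
      have h4 : 0 < ‖x i‖ ^ 2 := by positivity
      have h5 : ‖x i‖ ^ 2 ≤ ‖x 0‖ ^ 2 + ‖x 1‖ ^ 2 + ‖x 2‖ ^ 2 := by
        fin_cases i <;> simp <;> nlinarith [h3 0, h3 1, h3 2]
      have h6 : 0 ≤ ‖x 0 + x 1 + x 2‖ ^ 2 := by positivity
      linarith
    exact_mod_cast h2

/-- The operator valued form of the kernel `ℓ`. -/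
def LL : Matrix (Fin 3) (Fin 3) (ℂ →L[ℂ] ℂ) :=
  Matrix.of fun x y => ((ll x y : ℝ) : ℂ) • ContinuousLinearMap.id ℂ ℂ

instance fact_LL : Fact LL.PosSemidef := by
  constructor
  have h := (RKHS.posSemidef_tfae (K := LL)).out 0 2
  refine h.mpr ⟨?_, ?_⟩
  · ext x y
    simp only [LL, Matrix.conjTranspose_apply, Matrix.of_apply, ll]
    split_ifs <;> simp_all [ContinuousLinearMap.star_eq_adjoint]
  · intro vv
    have h1 : (vv.sum fun x w => vv.sum fun x' w' => ⟪LL x' x w, w'⟫_ℂ)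
        = ∑ x, ∑ x', ((ll x' x : ℝ) : ℂ) * (conj (vv x) * vv x') := by
      rw [Finsupp.sum_fintype _ _ (by simp)]
      refine Finset.sum_congr rfl fun x _ => ?_
      rw [Finsupp.sum_fintype _ _ (by simp)]
      refine Finset.sum_congr rfl fun x' _ => ?_
      simp [LL, inner_smul_left]
      ring
    rw [h1]
    have h2 : (∑ x, ∑ x', ((ll x' x : ℝ) : ℂ) * (conj (vv x) * vv x'))
        = ((4 * ‖vv 0‖ ^ 2 + 4 * ‖vv 1‖ ^ 2 + 4 * ‖vv 2‖ ^ 2 + ‖vv 0 + vv 1 + vv 2‖ ^ 2 : ℝ) : ℂ) := by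
      have e : ∀ z : ℂ, ((‖z‖ ^ 2 : ℝ) : ℂ) = conj z * z := by
        intro z
        rw [← Complex.normSq_eq_norm_sq, Complex.normSq_eq_conj_mul_self]
      simp only [Complex.ofReal_add, Complex.ofReal_mul, e, map_add]
      simp only [Fin.sum_univ_three, ll]
      simp
      ring
    rw [h2, RCLike.re_to_complex, Complex.ofReal_re]
    positivity

/-- The kernel of the associated space is `ℓ`. -/
lemma kernel_LL (x y : Fin 3) : RKHS.kernel (RKHS.OfKernel LL) x y 1 = ((ll x y : ℝ) : ℂ) := by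
  rw [RKHS.OfKernel.kernel_ofKernel]
  simp [LL]

/-- `ℓ / k` is not positive semidefinite. -/
lemma not_psd (h : (Matrix.of fun x y : Fin 3 => ((ll x y : ℝ) : ℂ) / ((kk x y : ℝ) : ℂ)).PosSemidef) :
    False := by
  have h1 := h.re_dotProduct_nonneg (fun _ => 1)
  simp [dotProduct, Matrix.mulVec, Fin.sum_univ_three, ll, kk] at h1
  norm_num at h1

end

end Pool.Agent.Helper88.PseudoPick
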